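import Pool.Agent.Grd.Defs

/-!
# Numbers of nonzeros, isomorphic graphs
-/

set_option autoImplicit false

open scoped BigOperators

namespace Pool.Agent.Grd

open Pool.Agent.KG Pool.Agent.P3 Pool.Agent.PL3 Pool.Agent.KGU

/-- MODULE QEQ (1). -/
theorem q_pos (F : FinField) : 0 < F.q := by
  unfold FinField.q
  exact_mod_cast Nat.card_pos

/-- MODULE QEQ (2). -/
theorem QE.symm {f g : FinField → ℤ} (h : QE f g) : QE g f := by
  obtain ⟨a, b, h⟩ := h
  exact ⟨b, a, fun F => (h F).symm⟩

/-- MODULE QEQ (3). -/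
theorem QE.trans {f g k : FinField → ℤ} (h : QE f g) (h' : QE g k) : QE f k := by
  obtain ⟨a, b, h⟩ := h
  obtain ⟨c, d, h'⟩ := h'
  refine ⟨a + c, b + d, fun F => ?_⟩
  have h1 := h F
  have h2 := h' F
  rw [pow_add, pow_add]
  calc F.q ^ a * F.q ^ c * f F = F.q ^ c * (F.q ^ a * f F) := by ring
    _ = F.q ^ c * (F.q ^ b * g F) := by rw [h1]
    _ = F.q ^ b * (F.q ^ c * g F) := by ring
    _ = F.q ^ b * (F.q ^ d * k F) := by rw [h2]
    _ = F.q ^ b * F.q ^ d * k F := by ring

/-- MODULE QEQ (4). -/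
theorem QE.mul {f g f' g' : FinField → ℤ} (h : QE f g) (h' : QE f' g') :
    QE (fun F => f F * f' F) fun F => g F * g' F := by
  obtain ⟨a, b, h⟩ := h
  obtain ⟨c, d, h'⟩ := h'
  refine ⟨a + c, b + d, fun F => ?_⟩
  have h1 := h F
  have h2 := h' F
  show F.q ^ (a + c) * (f F * f' F) = F.q ^ (b + d) * (g F * g' F)
  rw [pow_add, pow_add]
  calc F.q ^ a * F.q ^ c * (f F * f' F) = (F.q ^ a * f F) * (F.q ^ c * f' F) := by ring
    _ = (F.q ^ b * g F) * (F.q ^ d * g' F) := by rw [h1, h2]
    _ = F.q ^ b * F.q ^ d * (g F * g' F) := by ring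

/-- MODULE QEQ (5). -/
theorem QE.of_mul {f g : FinField → ℤ} (n : ℕ) (h : ∀ F, f F = F.q ^ n * g F) : QE f g :=
  ⟨0, n, fun F => by rw [h F, pow_zero, one_mul]⟩

/-- MODULE QEQ (6). -/
theorem GRc.congr {f g : FinField → ℤ} (h : QE f g) (hg : GRc g) : GRc f := by
  obtain ⟨V, E, i1, i2, s, t, pos, hD, hT, hQ⟩ := hg
  exact ⟨V, E, i1, i2, s, t, pos, hD, hT, h.trans hQ⟩

/-- MODULE QEQ (7). -/
theorem vl_eq {V E : Type} [Fintype V] [Fintype E] (s t : E → V) (F : FinField) :
    vl s t F = (Nat.card {x : E → F.K // sym s t x ≠ 0} : ℤ) := by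
  classical
  have h1 : (Nat.card (E → F.K) : ℤ) = F.q ^ Fintype.card E := by
    rw [Nat.card_fun, Nat.card_eq_fintype_card (α := E)]
    push_cast
    rfl
  have h2 : Nat.card {x : E → F.K // sym s t x = 0} + Nat.card {x : E → F.K // sym s t x ≠ 0} =
      Nat.card (E → F.K) := by
    rw [← Nat.card_sum]
    exact Nat.card_congr (Equiv.sumCompl fun x : E → F.K => sym s t x = 0)
  unfold vl ns NS
  rw [← h1, ← h2]
  push_cast
  ring

/-- MODULE ISM (1).  `KG.ns_iso` and `KG.ns_flip` (compose: transport by `f`, `g` first, then turn round). -/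
theorem is_vl {V E V' E' : Type} [Fintype V] [Fintype E] [Fintype V'] [Fintype E'] {s t : E → V}
    {s' t' : E' → V'} (h : Is s t s' t') : vl s' t' = vl s t := by
  obtain ⟨f, g, h⟩ := h
  have h1 : ns (fun e' => f (s (g.symm e'))) (fun e' => f (t (g.symm e'))) = ns s t :=
    ns_iso f g s t _ _ (fun e => by rw [g.symm_apply_apply]) fun e => by rw [g.symm_apply_apply]
  have h2 : ns s' t' = ns (fun e' => f (s (g.symm e'))) (fun e' => f (t (g.symm e'))) := by
    refine ns_flip _ _ _ _ fun e' => ?_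
    have := h (g.symm e')
    rw [g.apply_symm_apply] at this
    exact this
  funext F
  unfold vl
  rw [h2, h1, Fintype.card_congr g]

/-- MODULE ISM (2). -/
theorem is_symm {V E V' E' : Type} {s t : E → V} {s' t' : E' → V'} (h : Is s t s' t') : Is s' t' s t := by
  obtain ⟨f, g, h⟩ := h
  refine ⟨f.symm, g.symm, fun e' => ?_⟩
  have := h (g.symm e')
  rw [g.apply_symm_apply] at this
  rcases this with ⟨h1, h2⟩ | ⟨h1, h2⟩
  · left
    rw [h1, h2, f.symm_apply_apply, f.symm_apply_apply]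
    exact ⟨rfl, rfl⟩
  · right
    rw [h1, h2, f.symm_apply_apply, f.symm_apply_apply]
    exact ⟨rfl, rfl⟩

/-- MODULE ISM (3). -/
theorem is_trans {V E V' E' V'' E'' : Type} {s t : E → V} {s' t' : E' → V'} {s'' t'' : E'' → V''}
    (h : Is s t s' t') (h' : Is s' t' s'' t'') : Is s t s'' t'' := by
  obtain ⟨f, g, h⟩ := h
  obtain ⟨f', g', h'⟩ := h'
  refine ⟨f.trans f', g.trans g', fun e => ?_⟩
  show (s'' (g' (g e)) = f' (f (s e)) ∧ t'' (g' (g e)) = f' (f (t e))) ∨
    (s'' (g' (g e)) = f' (f (t e)) ∧ t'' (g' (g e)) = f' (f (s e)))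
  rcases h e with ⟨h1, h2⟩ | ⟨h1, h2⟩
  · rw [← h1, ← h2]
    exact h' (g e)
  · rw [← h1, ← h2]
    exact (h' (g e)).symm.imp (fun h => h) fun h => h

/-- MODULE ISM (4).  `PL3.pl_iso`, `PL3.pl_flip`. -/
theorem is_pl {V E V' E' : Type} [Fintype E] [Fintype E'] {s t : E → V} {s' t' : E' → V'}
    (h : Is s t s' t') (hp : Pl s t) : Pl s' t' := by
  obtain ⟨f, g, h⟩ := h
  have h1 : Pl (fun e' => f (s (g.symm e'))) fun e' => f (t (g.symm e')) :=
    pl_iso f g s t _ _ (fun e => by rw [g.symm_apply_apply]) (fun e => by rw [g.symm_apply_apply]) hp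
  refine pl_flip _ _ _ _ (fun e' => ?_) h1
  have := h (g.symm e')
  rw [g.apply_symm_apply] at this
  exact this

/-- MODULE ISM (5). -/
theorem is_ll {V E V' E' : Type} {s t : E → V} {s' t' : E' → V'} (h : Is s t s' t') (hl : LL s t) :
    LL s' t' := by
  obtain ⟨f, g, h⟩ := h
  intro e' he
  have := h (g.symm e')
  rw [g.apply_symm_apply, he] at this
  rcases this with ⟨h1, h2⟩ | ⟨h1, h2⟩
  · exact hl _ (f.injective (h1.symm.trans h2))
  · exact hl _ (f.injective (h2.symm.trans h1))

/-- MODULE ISM (6). -/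
theorem is_card {V E V' E' : Type} [Fintype E] [Fintype E'] {s t : E → V} {s' t' : E' → V'}
    (h : Is s t s' t') : Fintype.card E = Fintype.card E' := by
  obtain ⟨f, g, h⟩ := h
  exact Fintype.card_congr g

open Classical in
private theorem ISN_deg {V E : Type} [Fintype E] (s t : E → V) (v : V) :
    deg s t v = ∑ e, ((if s e = v then 1 else 0) + (if t e = v then 1 else 0)) := by
  have key : ∀ r : E → V, {e | r e = v}.ncard = ∑ e, if r e = v then 1 else 0 := by
    intro r
    rw [← Finset.card_filter, ← Set.ncard_coe_finset]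
    congr 1
    ext e
    simp
  unfold deg
  rw [key, key, Finset.sum_add_distrib]

/-- MODULE ISN (1).  `KG.deg_iso`; turning round an edge does not change the degrees: the degree is
`∑ e, ((if s e = v then 1 else 0) + (if t e = v then 1 else 0))`. -/
theorem is_deg {V E V' E' : Type} [Fintype E] [Fintype E'] {s t : E → V} {s' t' : E' → V'}
    (h : Is s t s' t') (n : ℕ) (hd : ∀ v, deg s t v ≤ n) (v : V') : deg s' t' v ≤ n := by
  obtain ⟨f, g, h⟩ := h
  obtain ⟨u, rfl⟩ := f.surjective v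
  have key : ∀ {V E : Type} [Fintype E] (s t : E → V) (v : V), deg s t v =
      {e : E ⊕ E | Sum.elim s t e = v}.ncard := by
    intro V E _ s t v
    have h1 : {e : E ⊕ E | Sum.elim s t e = v} = Sum.inl '' {e | s e = v} ∪ Sum.inr '' {e | t e = v} := by
      ext e
      rcases e with e | e <;> simp
    rw [h1, Set.ncard_union_eq _ (Set.toFinite _) (Set.toFinite _),
      Set.ncard_image_of_injective _ Sum.inl_injective, Set.ncard_image_of_injective _ Sum.inr_injective]
    · rfl
    · rw [Set.disjoint_left]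
      rintro _ ⟨e, -, rfl⟩ ⟨e', -, h⟩
      exact Sum.inr_ne_inl h
  refine le_trans (le_of_eq ?_) (hd u)
  rw [key, key]
  symm
  classical
  have hdec : ∀ e, (s' (g e) = f (s e) ∧ t' (g e) = f (t e)) ∨ ¬ (s' (g e) = f (s e) ∧ t' (g e) = f (t e)) :=
    fun e => em _
  have hm : ∀ (x : E ⊕ E), ∃ y : E' ⊕ E', Sum.elim s' t' y = f (Sum.elim s t x) ∧
      Sum.elim g.symm g.symm y = Sum.elim id id x ∧
      ((s' (g (Sum.elim id id x)) = f (s (Sum.elim id id x)) ∧ t' (g (Sum.elim id id x)) =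
        f (t (Sum.elim id id x))) → y.isLeft = x.isLeft) ∧
      (¬ (s' (g (Sum.elim id id x)) = f (s (Sum.elim id id x)) ∧ t' (g (Sum.elim id id x)) =
        f (t (Sum.elim id id x))) → y.isLeft = !x.isLeft) := by
    rintro (e | e)
    · by_cases hc : s' (g e) = f (s e) ∧ t' (g e) = f (t e)
      · exact ⟨Sum.inl (g e), hc.1, by simp, fun _ => rfl, fun hn => absurd hc hn⟩
      · have := (h e).resolve_left hc
        exact ⟨Sum.inr (g e), this.2, by simp, fun hn => absurd hn hc, fun _ => rfl⟩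
    · by_cases hc : s' (g e) = f (s e) ∧ t' (g e) = f (t e)
      · exact ⟨Sum.inr (g e), hc.2, by simp, fun _ => rfl, fun hn => absurd hc hn⟩
      · have := (h e).resolve_left hc
        exact ⟨Sum.inl (g e), this.1, by simp, fun hn => absurd hn hc, fun _ => rfl⟩
  choose m hm1 hm2 hm3 hm4 using hm
  have hinj : Function.Injective m := by
    intro x y hxy
    have h1 : (Sum.elim id id x : E) = Sum.elim id id y := by
      rw [← hm2 x, ← hm2 y, hxy]
    have h2 : x.isLeft = y.isLeft := by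
      by_cases hc : s' (g (Sum.elim id id x)) = f (s (Sum.elim id id x)) ∧ t' (g (Sum.elim id id x)) =
        f (t (Sum.elim id id x))
      · have h3 := hm3 x hc
        have h4 := hm3 y (by rw [← h1]; exact hc)
        rw [← h3, ← h4, hxy]
      · have h3 := hm4 x hc
        have h4 := hm4 y (by rw [← h1]; exact hc)
        have h5 : (!x.isLeft) = !y.isLeft := by rw [← h3, ← h4, hxy]
        exact Bool.not_inj h5
    rcases x with x | x <;> rcases y with y | y
    · have h6 : x = y := h1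
      rw [h6]
    · simp at h2
    · simp at h2
    · have h6 : x = y := h1
      rw [h6]
  have hcard : Fintype.card (E ⊕ E) = Fintype.card (E' ⊕ E') := by
    rw [Fintype.card_sum, Fintype.card_sum, Fintype.card_congr g]
  have hbij : Function.Bijective m := (Fintype.bijective_iff_injective_and_card m).2 ⟨hinj, hcard⟩
  have himg : {y | Sum.elim s' t' y = f u} = m '' {x | Sum.elim s t x = u} := by
    ext y
    constructor
    · intro hy
      obtain ⟨x, rfl⟩ := hbij.2 y
      refine ⟨x, ?_, rfl⟩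
      have hy' : Sum.elim s' t' (m x) = f u := hy
      rw [hm1] at hy'
      exact f.injective hy'
    · rintro ⟨x, hx, rfl⟩
      have hx' : Sum.elim s t x = u := hx
      show Sum.elim s' t' (m x) = f u
      rw [hm1, hx']
  rw [himg, Set.ncard_image_of_injective _ hinj]

/-- MODULE ISN (2).  `KG.isTree_iso`; turning round edges does not change `IsTree`. -/
theorem is_tree {V E V' E' : Type} [Fintype V] [Fintype V'] {s t : E → V} {s' t' : E' → V'}
    (h : Is s t s' t') (hT : ∃ T, IsTree s t T) : ∃ T, IsTree s' t' T := by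
  obtain ⟨f, g, h⟩ := h
  obtain ⟨T, hT⟩ := hT
  have h1 : IsTree (fun e' => f (s (g.symm e'))) (fun e' => f (t (g.symm e'))) (T.map g.toEmbedding) :=
    (isTree_iso f g s t _ _ (fun e => by rw [g.symm_apply_apply])
      (fun e => by rw [g.symm_apply_apply]) T).2 hT
  refine ⟨T.map g.toEmbedding, h1.1, fun u v => ?_⟩
  refine Relation.ReflTransGen.mono ?_ _ _ (h1.2 u v)
  rintro a b ⟨e', he', hab⟩
  refine ⟨e', he', ?_⟩
  have h3 := h (g.symm e')
  rw [g.apply_symm_apply] at h3
  rcases h3 with ⟨h4, h5⟩ | ⟨h4, h5⟩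
  · rw [h4, h5]
    exact hab
  · rw [h4, h5]
    rcases hab with ⟨h6, h7⟩ | ⟨h6, h7⟩
    · exact Or.inr ⟨h7, h6⟩
    · exact Or.inl ⟨h7, h6⟩

/-- MODULE ISN (3).  A connected graph has a spanning tree; `PL3.exists_tree` with `S = Finset.univ`. -/
theorem tree_of_conn {V E : Type} [Fintype V] [Nonempty V] [Fintype E] (s t : E → V)
    (h : ∀ u v : V, Relation.ReflTransGen (fun a b => ∃ e, (s e = a ∧ t e = b) ∨ (s e = b ∧ t e = a)) u v) :
    ∃ T, IsTree s t T := by
  refine exists_tree s t Finset.univ fun u v => ?_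
  refine Relation.ReflTransGen.mono ?_ _ _ (h u v)
  rintro a b ⟨e, he⟩
  exact ⟨e, Finset.mem_univ _, he⟩

/-- MODULE ISN (4). -/
theorem conn_of_tree {V E : Type} [Fintype V] {s t : E → V} (h : ∃ T, IsTree s t T) :
    Nonempty V ∧
    ∀ u v : V, Relation.ReflTransGen (fun a b => ∃ e, (s e = a ∧ t e = b) ∨ (s e = b ∧ t e = a)) u v := by
  obtain ⟨T, h1, h2⟩ := h
  refine ⟨Fintype.card_pos_iff.1 (by omega), fun u v => ?_⟩
  refine Relation.ReflTransGen.mono ?_ _ _ (h2 u v)
  rintro a b ⟨e, _, he⟩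
  exact ⟨e, he⟩

/-- MODULE ISN (5).  Planarity of a part: `net (f ∘ s) (f ∘ t) x (f v) = net s t x v`, and it is `0` at the vertices which are
not in the range of `f`.  The same `l`, `r`. -/
theorem pl_inj {V W E : Type} [Fintype E] (f : V → W) (hf : Function.Injective f) (s t : E → V)
    (h : Pl (f ∘ s) (f ∘ t)) : Pl s t := by
  classical
  obtain ⟨D, hD, l, r, hdu⟩ := h
  refine ⟨D, hD, l, r, fun x => ?_⟩
  rw [← hdu x]
  have h1 : ∀ v, P3.net (f ∘ s) (f ∘ t) x (f v) = P3.net s t x v := by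
    intro v
    unfold P3.net
    simp only [Function.comp_apply, hf.eq_iff]
  constructor
  · intro h w
    by_cases hw : ∃ v, f v = w
    · obtain ⟨v, rfl⟩ := hw
      rw [h1]
      exact h v
    · unfold P3.net
      rw [Finset.sum_eq_zero, Finset.sum_eq_zero, sub_zero]
      · intro e _
        exact if_neg fun h2 => hw ⟨_, h2⟩
      · intro e _
        exact if_neg fun h2 => hw ⟨_, h2⟩
  · intro h v
    rw [← h1]
    exact h _

end Pool.Agent.Grd
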