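import Pool.Agent.Grd.Nc
import Pool.Agent.Grd.Val

/-!
# Bridges
-/

set_option autoImplicit false

open scoped BigOperators

namespace Pool.Agent.Grd

open Pool.Agent.KG Pool.Agent.P3 Pool.Agent.PL3

/-- The part of a graph over a set of vertices which is connected without the edge `f`. -/
private theorem BRA_tree {V E : Type} [Fintype V] [Fintype E] (s t : E → V) (f : E) (P : V → Prop)
    [Fintype {v // P v}] [Fintype {e // e ≠ f ∧ P (s e)}]
    (hP : ∀ e, e ≠ f → (P (s e) ↔ P (t e))) (c : V) (hc : P c)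
    (hall : ∀ v, P v → Relation.ReflTransGen
      (fun a b => ∃ e ∈ ({f}ᶜ : Set E), (s e = a ∧ t e = b) ∨ (s e = b ∧ t e = a)) c v) :
    ∃ T, IsTree (fun e : {e // e ≠ f ∧ P (s e)} => (⟨s e.1, e.2.2⟩ : {v // P v}))
      (fun e : {e // e ≠ f ∧ P (s e)} => (⟨t e.1, (hP e.1 e.2.1).1 e.2.2⟩ : {v // P v})) T := by
  have : Nonempty {v // P v} := ⟨⟨c, hc⟩⟩
  refine tree_of_conn _ _ ?_
  have h1 : ∀ v, Relation.ReflTransGen
      (fun a b => ∃ e ∈ ({f}ᶜ : Set E), (s e = a ∧ t e = b) ∨ (s e = b ∧ t e = a)) c v →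
      ∃ h : P v, Relation.ReflTransGen (fun a b : {v // P v} => ∃ e : {e // e ≠ f ∧ P (s e)},
        ((⟨s e.1, e.2.2⟩ : {v // P v}) = a ∧ (⟨t e.1, (hP e.1 e.2.1).1 e.2.2⟩ : {v // P v}) = b) ∨
        ((⟨s e.1, e.2.2⟩ : {v // P v}) = b ∧ (⟨t e.1, (hP e.1 e.2.1).1 e.2.2⟩ : {v // P v}) = a))
        ⟨c, hc⟩ ⟨v, h⟩ := by
    intro v hv
    induction hv with
    | refl => exact ⟨hc, Relation.ReflTransGen.refl⟩
    | tail _ hs ih =>
      obtain ⟨hb, ih⟩ := ih
      obtain ⟨e, he, hst⟩ := hs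
      have he' : e ≠ f := he
      rcases hst with ⟨h2, h3⟩ | ⟨h2, h3⟩
      · subst h2 h3
        exact ⟨(hP e he').1 hb, ih.tail ⟨⟨e, he', hb⟩, Or.inl ⟨rfl, rfl⟩⟩⟩
      · subst h2 h3
        exact ⟨(hP e he').2 hb, ih.tail ⟨⟨e, he', (hP e he').2 hb⟩, Or.inr ⟨rfl, rfl⟩⟩⟩
  intro u v
  obtain ⟨_, hu⟩ := h1 u.1 (hall u.1 u.2)
  obtain ⟨_, hv⟩ := h1 v.1 (hall v.1 v.2)
  refine Relation.ReflTransGen.trans (b := ⟨c, hc⟩) ?_ hv
  clear hv
  change Relation.ReflTransGen _ _ u at hu
  induction hu with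
  | refl => exact Relation.ReflTransGen.refl
  | tail _ hs ih =>
    refine Relation.ReflTransGen.head ?_ (ih (Subtype.property _))
    obtain ⟨e, h2 | h2⟩ := hs
    · exact ⟨e, Or.inr h2⟩
    · exact ⟨e, Or.inl h2⟩

/-- The ends of a bridge are not connected without it. -/
private theorem BRA_cut {V E : Type} [Fintype E] (s t : E → V) (f : E)
    (hf : ∀ x : E → ℚ, (∀ v, net s t x v = 0) → x f = 0) : ¬ Relation.ReflTransGen
      (fun a b => ∃ e ∈ ({f}ᶜ : Set E), (s e = a ∧ t e = b) ∨ (s e = b ∧ t e = a)) (s f) (t f) := by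
  classical
  intro h
  obtain ⟨x, hx0, hx⟩ := flow_in s t ({f}ᶜ : Set E) (s f) (t f) h
  have h1 := hf (fun i => x i + (-1) * (if i = f then (1 : ℚ) else 0)) (fun v => by
    have h2 : net s t (fun i => if i = f then (1 : ℚ) else 0) v =
        (if s f = v then 1 else 0) - (if t f = v then 1 else 0) := by
      unfold net
      have h3 : ∀ u : E → V, (∑ e, if u e = v then (if e = f then (1 : ℚ) else 0) else 0) =
          if u f = v then 1 else 0 := by
        intro u
        rw [Finset.sum_eq_single f]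
        · rw [if_pos rfl]
        · intro i _ hi
          rw [if_neg hi, ite_self]
        · intro h
          exact absurd (Finset.mem_univ f) h
      rw [h3, h3]
    rw [net_add, net_smul, hx, h2]
    ring)
  have h2 : x f = 0 := hx0 f (by simp)
  simp only [if_true, h2] at h1
  norm_num at h1

/-- MODULE BRA.  A bridge.

Proof.  Let `R u v` mean that some edge `e ≠ f` joins `u` and `v`, `A` the set of the vertices which can be reached from
`s f` by `R`, `B` those which can be reached from `t f`.  `t f ∉ A`: by induction on `ReflTransGen R (s f) v` there is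
`x : E → ℚ` with `x f = 0` and `net s t x u = [u = s f] - [u = v]` (see the proof of `PL3.exists_flow`); for `v = t f` subtract
`Pi.single f 1`: a cycle with value `-1` at `f`.  `A` and `B` are disjoint (`R` is symmetric), and every vertex is in
`A` or `B`: induction on a path from `s f` (`conn_of_tree`).  `V1 = A`, `V2 = B`, `E1 = {e // e ≠ f ∧ s e ∈ A}`,
`E2 = {e // e ≠ f ∧ s e ∈ B}`, `a = s f`, `b = t f`.  The trees: `tree_of_conn`. -/
theorem bridge_iso {V E : Type} [Fintype V] [Fintype E] (s t : E → V) (hT : ∃ T, IsTree s t T) (f : E)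
    (hf : ∀ x : E → ℚ, (∀ v, net s t x v = 0) → x f = 0) :
    ∃ (V1 V2 E1 E2 : Type) (_ : Fintype V1) (_ : Fintype V2) (_ : Fintype E1) (_ : Fintype E2)
      (s1 t1 : E1 → V1) (s2 t2 : E2 → V2) (a : V1) (b : V2), Is s t (jnS a s1 s2) (jnT b t1 t2) ∧
      (∃ T, IsTree s1 t1 T) ∧ ∃ T, IsTree s2 t2 T := by
  classical
  let R : V → V → Prop :=
    fun a b => ∃ e ∈ ({f}ᶜ : Set E), (s e = a ∧ t e = b) ∨ (s e = b ∧ t e = a)
  have hRs : ∀ a b, R a b → R b a := by
    rintro a b ⟨e, he, h | h⟩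
    · exact ⟨e, he, Or.inr h⟩
    · exact ⟨e, he, Or.inl h⟩
  let P : V → Prop := fun v => Relation.ReflTransGen R (s f) v
  have hP : ∀ e, e ≠ f → (P (s e) ↔ P (t e)) := by
    intro e he
    have h1 : R (s e) (t e) := ⟨e, he, Or.inl ⟨rfl, rfl⟩⟩
    exact ⟨fun h => h.tail h1, fun h => h.tail (hRs _ _ h1)⟩
  have hPs : P (s f) := Relation.ReflTransGen.refl
  have hPt : ¬ P (t f) := BRA_cut s t f hf
  have hall : ∀ v, ¬ P v → Relation.ReflTransGen R (t f) v := by
    have h1 : ∀ v, P v ∨ Relation.ReflTransGen R (t f) v := by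
      intro v
      have h2 := (conn_of_tree hT).2 (s f) v
      induction h2 with
      | refl => exact Or.inl hPs
      | tail _ hs ih =>
        obtain ⟨e, hst⟩ := hs
        by_cases he : e = f
        · subst he
          rcases hst with ⟨-, h3⟩ | ⟨h3, -⟩
          · rw [← h3]
            exact Or.inr Relation.ReflTransGen.refl
          · rw [← h3]
            exact Or.inl Relation.ReflTransGen.refl
        · rcases ih with ih | ih
          · exact Or.inl (ih.tail ⟨e, he, hst⟩)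
          · exact Or.inr (ih.tail ⟨e, he, hst⟩)
    intro v hv
    exact (h1 v).resolve_left hv
  have hP2 : ∀ e, e ≠ f → (¬ P (s e) ↔ ¬ P (t e)) := fun e he => not_congr (hP e he)
  let V1 : Type := {v // P v}
  let V2 : Type := {v // ¬ P v}
  let E1 : Type := {e // e ≠ f ∧ P (s e)}
  let E2 : Type := {e // e ≠ f ∧ ¬ P (s e)}
  let k : Option (E1 ⊕ E2) → E := fun o => o.elim f (Sum.elim Subtype.val Subtype.val)
  have hk : Function.Bijective k := by
    constructor
    · rintro (_ | ⟨e | e⟩) (_ | ⟨e' | e'⟩) h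
      · rfl
      · exact absurd h.symm e'.2.1
      · exact absurd h.symm e'.2.1
      · exact absurd h e.2.1
      · have h' : e = e' := Subtype.ext h
        rw [h']
      · have h' : e.1 = e'.1 := h
        exact absurd (h' ▸ e.2.2) e'.2.2
      · exact absurd h e.2.1
      · have h' : e.1 = e'.1 := h
        exact absurd (h'.symm ▸ e'.2.2) e.2.2
      · have h' : e = e' := Subtype.ext h
        rw [h']
    · intro e
      by_cases h1 : e = f
      · exact ⟨none, h1.symm⟩
      · by_cases h2 : P (s e)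
        · exact ⟨some (Sum.inl ⟨e, h1, h2⟩), rfl⟩
        · exact ⟨some (Sum.inr ⟨e, h1, h2⟩), rfl⟩
  refine ⟨V1, V2, E1, E2, inferInstance, inferInstance, inferInstance, inferInstance,
    fun e => ⟨s e.1, e.2.2⟩, fun e => ⟨t e.1, (hP e.1 e.2.1).1 e.2.2⟩,
    fun e => ⟨s e.1, e.2.2⟩, fun e => ⟨t e.1, (hP2 e.1 e.2.1).1 e.2.2⟩,
    ⟨s f, hPs⟩, ⟨t f, hPt⟩, ?_, BRA_tree s t f P hP (s f) hPs (fun v hv => hv),
    BRA_tree s t f (fun v => ¬ P v) hP2 (t f) hPt hall⟩
  refine ⟨(Equiv.sumCompl P).symm, (Equiv.ofBijective k hk).symm, fun e => Or.inl ?_⟩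
  obtain ⟨o, rfl⟩ := hk.2 e
  have h1 : (Equiv.ofBijective k hk).symm (k o) = o :=
    (Equiv.ofBijective k hk).symm_apply_apply o
  rw [h1]
  rcases o with _ | e | e
  · exact ⟨(Equiv.sumCompl_symm_apply_of_pos hPs).symm, (Equiv.sumCompl_symm_apply_of_neg hPt).symm⟩
  · exact ⟨(Equiv.sumCompl_symm_apply_of_pos e.2.2).symm,
      (Equiv.sumCompl_symm_apply_of_pos ((hP e.1 e.2.1).1 e.2.2)).symm⟩
  · exact ⟨(Equiv.sumCompl_symm_apply_of_neg e.2.2).symm,
      (Equiv.sumCompl_symm_apply_of_neg ((hP2 e.1 e.2.1).1 e.2.2)).symm⟩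

private theorem BRB_deg {V V' E E' : Type} [Finite E'] (s t : E → V) (s' t' : E' → V') (ι : E → E')
    (hι : Function.Injective ι) (f : V → V') (v : V) (hs : ∀ e, s' (ι e) = f (s e))
    (ht : ∀ e, t' (ι e) = f (t e)) : deg s t v ≤ deg s' t' (f v) := by
  have key : ∀ (r : E → V) (r' : E' → V'), (∀ e, r' (ι e) = f (r e)) →
      {e | r e = v}.ncard ≤ {e | r' e = f v}.ncard := by
    intro r r' hr
    rw [← Set.ncard_image_of_injective {e | r e = v} hι]
    refine Set.ncard_le_ncard ?_ (Set.toFinite _)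
    rintro _ ⟨e, he, rfl⟩
    have he' : r e = v := he
    show r' (ι e) = f v
    rw [hr, he']
  exact Nat.add_le_add (key s s' hs) (key t t' ht)

/-- MODULE BRB.  The two parts of a graph with a bridge.

Proof.  `is_ll`, `is_pl`, `is_deg`, `is_card` for the joined graph.  `Pl s1 t1`: `PL3.pl_sub` with `ι = some ∘ inl`, then
`pl_inj` with `f = inl`.  The degrees: `{e | s1 e = v}` is mapped injectively into `{e | jnS a s1 s2 e = inl v}`. -/
theorem bridge_parts {V E V1 V2 E1 E2 : Type} [Fintype V] [Fintype E] [Fintype V1] [Fintype V2] [Fintype E1]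
    [Fintype E2] (s t : E → V) (s1 t1 : E1 → V1) (s2 t2 : E2 → V2) (a : V1) (b : V2)
    (h : Is s t (jnS a s1 s2) (jnT b t1 t2)) (hl : LL s t) (hp : Pl s t) (hd : ∀ v, deg s t v ≤ 3) :
    (LL s1 t1 ∧ Pl s1 t1 ∧ (∀ v, deg s1 t1 v ≤ 3) ∧ Fintype.card E1 < Fintype.card E) ∧
    (LL s2 t2 ∧ Pl s2 t2 ∧ (∀ v, deg s2 t2 v ≤ 3) ∧ Fintype.card E2 < Fintype.card E) := by
  have h1 := is_ll h hl
  have h2 := is_pl h hp
  have h3 := is_deg h 3 hd
  have h4 := is_card h
  rw [Fintype.card_option, Fintype.card_sum] at h4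
  have i1 : Function.Injective (fun e : E1 => (some (Sum.inl e) : Option (E1 ⊕ E2))) :=
    fun e e' he => Sum.inl_injective (Option.some_injective _ he)
  have i2 : Function.Injective (fun e : E2 => (some (Sum.inr e) : Option (E1 ⊕ E2))) :=
    fun e e' he => Sum.inr_injective (Option.some_injective _ he)
  refine ⟨⟨fun e he => ?_, ?_, fun v => ?_, by omega⟩, fun e he => ?_, ?_, fun v => ?_, by omega⟩
  · exact h1 (some (Sum.inl e)) (congrArg Sum.inl he)
  · exact pl_inj (Sum.inl : V1 → V1 ⊕ V2) Sum.inl_injective s1 t1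
      (pl_sub (jnS a s1 s2) (jnT b t1 t2) _ i1 h2)
  · exact (BRB_deg s1 t1 (jnS a s1 s2) (jnT b t1 t2) _ i1 Sum.inl v (fun _ => rfl)
      (fun _ => rfl)).trans (h3 _)
  · exact h1 (some (Sum.inr e)) (congrArg Sum.inr he)
  · exact pl_inj (Sum.inr : V2 → V1 ⊕ V2) Sum.inr_injective s2 t2
      (pl_sub (jnS a s1 s2) (jnT b t1 t2) _ i2 h2)
  · exact (BRB_deg s2 t2 (jnS a s1 s2) (jnT b t1 t2) _ i2 Sum.inr v (fun _ => rfl)
      (fun _ => rfl)).trans (h3 _)

/-- MODULE BRC.  A vertex of degree one gives a bridge.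

Proof.  No loops: exactly one edge `e` has `s e = v` or `t e = v`, and the net current at `v` is `x e` or `- x e`. -/
theorem bridge_one {V E : Type} [Fintype E] (s t : E → V) (hl : LL s t) (v : V) (hv : deg s t v = 1) :
    ∃ f : E, ∀ x : E → ℚ, (∀ v, net s t x v = 0) → x f = 0 := by
  classical
  unfold deg at hv
  have key : ∀ u : E → V, {e | u e = v}.ncard = 1 →
      ∃ f, ∀ x : E → ℚ, (∑ e, if u e = v then x e else 0) = x f := by
    intro u hu
    obtain ⟨f, hf⟩ := Set.ncard_eq_one.1 hu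
    have hf' : ∀ e, u e = v ↔ e = f := fun e => by
      have h1 : e ∈ {e | u e = v} ↔ e ∈ ({f} : Set E) := by rw [hf]
      exact h1
    refine ⟨f, fun x => ?_⟩
    rw [Finset.sum_eq_single f]
    · rw [if_pos ((hf' f).2 rfl)]
    · intro e _ he
      rw [if_neg (fun h => he ((hf' e).1 h))]
    · intro h
      exact absurd (Finset.mem_univ f) h
  have key0 : ∀ u : E → V, {e | u e = v}.ncard = 0 →
      ∀ x : E → ℚ, (∑ e, if u e = v then x e else 0) = 0 := by
    intro u hu x
    have h0 : {e | u e = v} = ∅ := (Set.ncard_eq_zero (Set.toFinite _)).1 hu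
    refine Finset.sum_eq_zero fun e _ => if_neg fun h => ?_
    have h1 : e ∈ {e | u e = v} := h
    rw [h0] at h1
    exact h1
  rcases Nat.eq_zero_or_pos {e | s e = v}.ncard with h0 | h0
  · obtain ⟨f, hf⟩ := key t (by omega)
    refine ⟨f, fun x hx => ?_⟩
    have h1 := hx v
    unfold net at h1
    rw [key0 s h0, hf] at h1
    linarith
  · obtain ⟨f, hf⟩ := key s (by omega)
    refine ⟨f, fun x hx => ?_⟩
    have h1 := hx v
    unfold net at h1
    rw [key0 t (by omega), hf] at h1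
    linarith

end Pool.Agent.Grd
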