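import Pool.Agent.Grd.Defs

/-!
# The steps of the drawing, without geometry
-/

set_option autoImplicit false

open scoped BigOperators

namespace Pool.Agent.Grd

open Pool.Agent.KG Pool.Agent.P3 Pool.Agent.PL3

/-- MODULE CMA (1).  `Set.ncard_insert_of_notMem` for the complement. -/
theorem ncard_step {E : Type} [Finite E] (C : Set E) (e : E) (he : e ∉ C) :
    (Cᶜ : Set E).ncard = ((insert e C)ᶜ : Set E).ncard + 1 := by
  have h1 : (Cᶜ : Set E) = insert e ((insert e C)ᶜ : Set E) := by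
    ext x
    simp only [Set.mem_compl_iff, Set.mem_insert_iff]
    by_cases hx : x = e
    · subst hx
      simp [he]
    · simp [hx]
  rw [h1, Set.ncard_insert_of_notMem (by simp) (Set.toFinite _)]

private theorem CMA_hsA {V E : Type} {s t : E → V} {A : Set V} {C : Set E}
    (h : ∀ e ∈ C, s e ∈ A ∧ t e ∈ A) (ζ : E × Bool) (hζ : ζ.1 ∈ C) : hs s t ζ ∈ A := by
  obtain ⟨e, b⟩ := ζ
  have h1 := h e hζ
  cases b
  · exact h1.2
  · exact h1.1

private theorem CMA_rv {E : Type} {ζ η : E × Bool} (h : ζ.1 = η.1) : ζ = η ∨ ζ = rv η := by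
  obtain ⟨e, b⟩ := ζ
  obtain ⟨e', b'⟩ := η
  have h' : e = e' := h
  subst h'
  cases b <;> cases b'
  · exact Or.inl rfl
  · exact Or.inr rfl
  · exact Or.inr rfl
  · exact Or.inl rfl

private theorem CMA_hsrv {V E : Type} {s t : E → V} (η : E × Bool) :
    hs s t (rv η) = he s t η := by
  obtain ⟨e, b⟩ := η
  cases b <;> rfl

private theorem CMA_ends {V E : Type} {s t : E → V} (η : E × Bool) {P : V → Prop}
    (h1 : P (hs s t η)) (h2 : P (he s t η)) : P (s η.1) ∧ P (t η.1) := by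
  obtain ⟨e, b⟩ := η
  cases b
  · exact ⟨h2, h1⟩
  · exact ⟨h1, h2⟩

private theorem CMA_st {V E : Type} {s t : E → V} (η : E × Bool) :
    (s η.1 = hs s t η ∧ t η.1 = he s t η) ∨ (s η.1 = he s t η ∧ t η.1 = hs s t η) := by
  obtain ⟨e, b⟩ := η
  cases b
  · exact Or.inr ⟨rfl, rfl⟩
  · exact Or.inl ⟨rfl, rfl⟩

open Classical in
/-- MODULE CMA (2).  A new vertex `v = he s t η`: the half edge `η` is replaced by `η1`, `η2`.

Proof.  `ends`: `hs η ∈ A`, `he η = v`.  `mem`: `ζ ≠ η` and `ζ.1 = η.1` would mean `ζ = rv η`, `hs ζ = v ∉ A`; the edges at `v`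
are not in `C` by `ends`; the half edges at `v` are `rv η`, `η1`, `η2`; `η1`, `η2 ∉ W`.  `gap`: with `M' = ((insert η.1 C)ᶜ).ncard`,
`2 ^ Cᶜ.ncard = 2 * 2 ^ M'` (`ncard_step`).  `face`: `fa η1 = fa η`, `fb η1 = fa η2`, `fb η2 = fb η`.  `conn`: `v` is connected with
`hs η` by `η.1`; monotonicity. -/
theorem peel_st {V E D : Type} [Fintype E] {s t : E → V} {l r : E → D} {A : Set V} {C : Set E}
    {W1 W2 : List (E × Bool)} {η : E × Bool} {p : E × Bool → ℤ} (hS : St s t l r A C (W1 ++ η :: W2) p)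
    (hl : LL s t) (hv : he s t η ∉ A) (η1 η2 : E × Bool) (h1 : hs s t η1 = he s t η)
    (h2 : hs s t η2 = he s t η) (e1 : η1.1 ≠ η.1) (e2 : η2.1 ≠ η.1) (e12 : η1.1 ≠ η2.1)
    (hall : ∀ ζ : E × Bool, hs s t ζ = he s t η → ζ.1 = η.1 ∨ ζ = η1 ∨ ζ = η2)
    (f1 : fa l r η1 = fa l r η) (f2 : fb l r η1 = fa l r η2) (f3 : fb l r η2 = fb l r η) :
    St s t l r (insert (he s t η) A) (insert η.1 C) (W1 ++ η1 :: η2 :: W2)
      (fun ζ => if ζ = η1 then p η else
        if ζ = η2 then p η + 2 ^ ((insert η.1 C)ᶜ : Set E).ncard else p ζ) := by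
  have hηW : η ∈ W1 ++ η :: W2 := by simp
  obtain ⟨hηC, hηA⟩ := (hS.mem η).1 hηW
  have hM : (2 : ℤ) ^ (Cᶜ : Set E).ncard = 2 * 2 ^ ((insert η.1 C)ᶜ : Set E).ncard := by
    rw [ncard_step C η.1 hηC, pow_succ]
    ring
  set M' := ((insert η.1 C)ᶜ : Set E).ncard with hM'
  have hpos : (0 : ℤ) < 2 ^ M' := by positivity
  have hgap := hS.gap
  rw [List.pairwise_append, List.pairwise_cons, hM] at hgap
  obtain ⟨g1, ⟨g2, g3⟩, g4⟩ := hgap
  have hvC : ∀ ζ : E × Bool, hs s t ζ = he s t η → ζ.1 ∉ C := by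
    intro ζ h hC
    exact hv (h ▸ CMA_hsA hS.ends ζ hC)
  have hη1 : η1 ∉ W1 ++ η :: W2 := fun h => hv (h1 ▸ ((hS.mem η1).1 h).2)
  have hη2 : η2 ∉ W1 ++ η :: W2 := fun h => hv (h2 ▸ ((hS.mem η2).1 h).2)
  have hW1 : ∀ ζ ∈ W1, ζ ∈ W1 ++ η :: W2 := fun ζ h => by simp [h]
  have hW2 : ∀ ζ ∈ W2, ζ ∈ W1 ++ η :: W2 := fun ζ h => by simp [h]
  have hne : ∀ ζ, (ζ ∈ W1 ∨ ζ ∈ W2) → ζ.1 ≠ η.1 := by
    intro ζ h he1
    rcases CMA_rv he1 with h' | h'
    · subst h'
      rcases h with h | h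
      · have := g4 ζ h ζ (by simp)
        omega
      · have := g2 ζ h
        omega
    · have h3 : hs s t ζ ∈ A := by
        rcases h with h | h
        · exact ((hS.mem ζ).1 (hW1 ζ h)).2
        · exact ((hS.mem ζ).1 (hW2 ζ h)).2
      rw [h', CMA_hsrv] at h3
      exact hv h3
  have n12 : η2 ≠ η1 := fun h => e12 (by rw [h])
  have p1 : (fun ζ => if ζ = η1 then p η else if ζ = η2 then p η + 2 ^ M' else p ζ) η1 = p η :=
    if_pos rfl
  have p2 : (fun ζ => if ζ = η1 then p η else if ζ = η2 then p η + 2 ^ M' else p ζ) η2 =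
      p η + 2 ^ M' := by
    show (if η2 = η1 then p η else if η2 = η2 then p η + 2 ^ M' else p η2) = _
    rw [if_neg n12, if_pos rfl]
  have p3 : ∀ ζ, (ζ ∈ W1 ∨ ζ ∈ W2) →
      (fun ζ => if ζ = η1 then p η else if ζ = η2 then p η + 2 ^ M' else p ζ) ζ = p ζ := by
    intro ζ h
    have k1 : ζ ≠ η1 := by
      rintro rfl
      rcases h with h | h
      · exact hη1 (hW1 _ h)
      · exact hη1 (hW2 _ h)
    have k2 : ζ ≠ η2 := by
      rintro rfl
      rcases h with h | h
      · exact hη2 (hW1 _ h)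
      · exact hη2 (hW2 _ h)
    show (if ζ = η1 then p η else if ζ = η2 then p η + 2 ^ M' else p ζ) = _
    rw [if_neg k1, if_neg k2]
  generalize hp' : (fun ζ => if ζ = η1 then p η else if ζ = η2 then p η + 2 ^ M' else p ζ) = p'
    at p1 p2 p3
  refine ⟨?_, ?_, ?_, ?_, ?_, ⟨he s t η, Or.inl rfl⟩⟩
  · rintro e (rfl | he)
    · have h3 := CMA_ends (s := s) (t := t) η (P := fun v => v ∈ insert (he s t η) A)
        (Or.inr hηA) (Or.inl rfl)
      exact h3
    · exact ⟨Or.inr (hS.ends e he).1, Or.inr (hS.ends e he).2⟩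
  · intro ζ
    constructor
    · intro hζ
      rw [List.mem_append, List.mem_cons, List.mem_cons] at hζ
      have hcase : (ζ ∈ W1 ∨ ζ ∈ W2) ∨ ζ = η1 ∨ ζ = η2 := by tauto
      rcases hcase with h | h | h
      · have h3 := (hS.mem ζ).1 (h.elim (hW1 ζ) (hW2 ζ))
        exact ⟨fun hh => hh.elim (hne ζ h) h3.1, Or.inr h3.2⟩
      · subst h
        exact ⟨fun hh => hh.elim e1 (hvC _ h1), Or.inl h1⟩
      · subst h
        exact ⟨fun hh => hh.elim e2 (hvC _ h2), Or.inl h2⟩
    · rintro ⟨k1, k2⟩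
      rw [List.mem_append, List.mem_cons, List.mem_cons]
      have k3 : ζ.1 ≠ η.1 := fun h => k1 (Or.inl h)
      have k4 : ζ.1 ∉ C := fun h => k1 (Or.inr h)
      rcases k2 with k2 | k2
      · rcases hall ζ k2 with h | h | h
        · exact absurd h k3
        · exact Or.inr (Or.inl h)
        · exact Or.inr (Or.inr (Or.inl h))
      · have h3 := (hS.mem ζ).2 ⟨k4, k2⟩
        rw [List.mem_append, List.mem_cons] at h3
        rcases h3 with h3 | h3 | h3
        · exact Or.inl h3
        · exact absurd (congrArg Prod.fst h3) k3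
        · exact Or.inr (Or.inr (Or.inr h3))
  · show List.Pairwise (fun η ζ => p' η + 2 ^ M' ≤ p' ζ) _
    rw [List.pairwise_append, List.pairwise_cons, List.pairwise_cons]
    refine ⟨?_, ⟨?_, ?_, ?_⟩, ?_⟩
    · refine List.Pairwise.imp_of_mem ?_ g1
      intro a b ha hb hab
      rw [p3 a (Or.inl ha), p3 b (Or.inl hb)]
      omega
    · intro b hb
      rw [List.mem_cons] at hb
      rcases hb with rfl | hb
      · rw [p1, p2]
      · rw [p1, p3 b (Or.inr hb)]
        have := g2 b hb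
        omega
    · intro b hb
      rw [p2, p3 b (Or.inr hb)]
      have := g2 b hb
      omega
    · refine List.Pairwise.imp_of_mem ?_ g3
      intro a b ha hb hab
      rw [p3 a (Or.inr ha), p3 b (Or.inr hb)]
      omega
    · intro a ha b hb
      have k1 := g4 a ha η (by simp)
      rw [p3 a (Or.inl ha)]
      rw [List.mem_cons, List.mem_cons] at hb
      rcases hb with rfl | rfl | hb
      · rw [p1]
        omega
      · rw [p2]
        omega
      · rw [p3 b (Or.inr hb)]
        have k2 := g4 a ha b (by simp [hb])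
        omega
  · have hf := hS.face
    rw [List.isChain_append, List.isChain_cons] at hf ⊢
    rw [List.isChain_cons]
    obtain ⟨c1, ⟨c2, c3⟩, c4⟩ := hf
    refine ⟨c1, ⟨?_, ?_, c3⟩, ?_⟩
    · intro b hb
      simp only [List.head?_cons, Option.mem_def, Option.some.injEq] at hb
      rw [← hb]
      exact f2
    · intro b hb
      rw [f3]
      exact c2 b hb
    · intro a ha b hb
      simp only [List.head?_cons, Option.mem_def, Option.some.injEq] at hb
      rw [← hb, f1]
      exact c4 a ha η (by simp)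
  · have hmono : ∀ u w, Relation.ReflTransGen
        (fun a b => ∃ e ∈ C, (s e = a ∧ t e = b) ∨ (s e = b ∧ t e = a)) u w →
        Relation.ReflTransGen
        (fun a b => ∃ e ∈ insert η.1 C, (s e = a ∧ t e = b) ∨ (s e = b ∧ t e = a)) u w :=
      fun u w h => Relation.ReflTransGen.mono
        (fun a b ⟨e, he, h⟩ => ⟨e, Or.inr he, h⟩) _ _ h
    have hst : (fun a b => ∃ e ∈ insert η.1 C, (s e = a ∧ t e = b) ∨ (s e = b ∧ t e = a))
        (hs s t η) (he s t η) ∧
        (fun a b => ∃ e ∈ insert η.1 C, (s e = a ∧ t e = b) ∨ (s e = b ∧ t e = a))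
        (he s t η) (hs s t η) := by
      have k := CMA_st (s := s) (t := t) η
      exact ⟨⟨η.1, Or.inl rfl, k⟩, ⟨η.1, Or.inl rfl, k.symm⟩⟩
    intro u hu w hw
    have hu' : Relation.ReflTransGen
        (fun a b => ∃ e ∈ insert η.1 C, (s e = a ∧ t e = b) ∨ (s e = b ∧ t e = a)) u
        (hs s t η) := by
      rcases hu with rfl | hu
      · exact Relation.ReflTransGen.single hst.2
      · exact hmono _ _ (hS.conn u hu _ hηA)
    have hw' : Relation.ReflTransGen
        (fun a b => ∃ e ∈ insert η.1 C, (s e = a ∧ t e = b) ∨ (s e = b ∧ t e = a))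
        (hs s t η) w := by
      rcases hw with rfl | hw
      · exact Relation.ReflTransGen.single hst.1
      · exact hmono _ _ (hS.conn _ hηA w hw)
    exact hu'.trans hw'

/-- MODULE CMB (1).  Two neighbouring halves of one edge are joined.

Proof.  `mem`: a half edge with the edge `η.1` is `η` or `rv η`.  `gap`: `2 ^ M' ≤ 2 ^ M`.  `face`: the face after the last
element of `W1` is `fa η = fb (rv η)`, which is the face before the first element of `W2`. -/
theorem cap_st {V E D : Type} [Fintype E] {s t : E → V} {l r : E → D} {A : Set V} {C : Set E}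
    {W1 W2 : List (E × Bool)} {η : E × Bool} {p : E × Bool → ℤ}
    (hS : St s t l r A C (W1 ++ η :: rv η :: W2) p) : St s t l r A (insert η.1 C) (W1 ++ W2) p := by
  have hηW : η ∈ W1 ++ η :: rv η :: W2 := by simp
  have hrW : rv η ∈ W1 ++ η :: rv η :: W2 := by simp
  obtain ⟨hηC, hηA⟩ := (hS.mem η).1 hηW
  obtain ⟨-, hrA⟩ := (hS.mem (rv η)).1 hrW
  have hM : (2 : ℤ) ^ (Cᶜ : Set E).ncard = 2 * 2 ^ ((insert η.1 C)ᶜ : Set E).ncard := by
    rw [ncard_step C η.1 hηC, pow_succ]
    ring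
  set M' := ((insert η.1 C)ᶜ : Set E).ncard with hM'
  have hpos : (0 : ℤ) < 2 ^ M' := by positivity
  have hgap := hS.gap
  rw [List.pairwise_append, List.pairwise_cons, List.pairwise_cons, hM] at hgap
  obtain ⟨g1, ⟨g2, g3, g5⟩, g4⟩ := hgap
  have hW1 : ∀ ζ ∈ W1, ζ ∈ W1 ++ η :: rv η :: W2 := fun ζ h => by simp [h]
  have hW2 : ∀ ζ ∈ W2, ζ ∈ W1 ++ η :: rv η :: W2 := fun ζ h => by simp [h]
  have hne : ∀ ζ, (ζ ∈ W1 ∨ ζ ∈ W2) → ζ.1 ≠ η.1 := by
    intro ζ h he1
    rcases CMA_rv he1 with h' | h'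
    · subst h'
      rcases h with h | h
      · have := g4 ζ h ζ (by simp)
        omega
      · have := g2 ζ (by simp [h])
        omega
    · rcases h with h | h
      · have := g4 ζ h ζ (by simp [h'])
        omega
      · have := g3 ζ h
        rw [h'] at this
        omega
  refine ⟨?_, ?_, ?_, ?_, ?_, hS.ne⟩
  · rintro e (rfl | he)
    · rw [CMA_hsrv] at hrA
      exact CMA_ends (s := s) (t := t) η (P := fun v => v ∈ A) hηA hrA
    · exact hS.ends e he
  · intro ζ
    constructor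
    · intro hζ
      rw [List.mem_append] at hζ
      have h3 := (hS.mem ζ).1 (hζ.elim (hW1 ζ) (hW2 ζ))
      exact ⟨fun hh => hh.elim (hne ζ hζ) h3.1, h3.2⟩
    · rintro ⟨k1, k2⟩
      have k3 : ζ.1 ≠ η.1 := fun h => k1 (Or.inl h)
      have k4 : ζ.1 ∉ C := fun h => k1 (Or.inr h)
      have h3 := (hS.mem ζ).2 ⟨k4, k2⟩
      rw [List.mem_append, List.mem_cons, List.mem_cons] at h3
      rw [List.mem_append]
      rcases h3 with h3 | h3 | h3 | h3
      · exact Or.inl h3
      · exact absurd (congrArg Prod.fst h3) k3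
      · exact absurd (congrArg Prod.fst h3) k3
      · exact Or.inr h3
  · show List.Pairwise (fun η ζ => p η + 2 ^ M' ≤ p ζ) _
    rw [List.pairwise_append]
    refine ⟨?_, ?_, ?_⟩
    · exact g1.imp fun h => by omega
    · exact g5.imp fun h => by omega
    · intro a ha b hb
      have := g4 a ha b (by simp [hb])
      omega
  · have hf := hS.face
    rw [List.isChain_append, List.isChain_cons, List.isChain_cons] at hf
    obtain ⟨c1, ⟨c2, c3, c5⟩, c4⟩ := hf
    rw [List.isChain_append]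
    refine ⟨c1, c5, fun a ha b hb => ?_⟩
    have k1 := c4 a ha η (by simp)
    have k2 := c3 b hb
    rw [k1, ← k2]
    obtain ⟨e, b⟩ := η
    cases b <;> rfl
  · intro u hu w hw
    exact Relation.ReflTransGen.mono (fun a b ⟨e, he, h⟩ => ⟨e, Or.inr he, h⟩) _ _
      (hS.conn u hu w hw)

open Classical in
/-- MODULE CMB (2).  The first state. -/
theorem start_st {V E D : Type} [Fintype E] {s t : E → V} {l r : E → D} (hl : LL s t) (v : V)
    (η0 η1 η2 : E × Bool) (h0 : hs s t η0 = v) (h1 : hs s t η1 = v) (h2 : hs s t η2 = v)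
    (e01 : η0.1 ≠ η1.1) (e02 : η0.1 ≠ η2.1) (e12 : η1.1 ≠ η2.1)
    (hall : ∀ ζ : E × Bool, hs s t ζ = v → ζ = η0 ∨ ζ = η1 ∨ ζ = η2)
    (f1 : fb l r η0 = fa l r η1) (f2 : fb l r η1 = fa l r η2) :
    St s t l r {v} ∅ [η0, η1, η2] (fun ζ => if ζ = η0 then -2 ^ ((∅ : Set E)ᶜ).ncard else
      if ζ = η2 then 2 ^ ((∅ : Set E)ᶜ).ncard else 0) := by
  set M := ((∅ : Set E)ᶜ).ncard with hM
  have hpos : (0 : ℤ) < 2 ^ M := by positivity
  have n01 : η1 ≠ η0 := fun h => e01 (by rw [h])
  have n02 : η2 ≠ η0 := fun h => e02 (by rw [h])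
  have n12 : η1 ≠ η2 := fun h => e12 (by rw [h])
  have p0 : (fun ζ => if ζ = η0 then -2 ^ M else if ζ = η2 then 2 ^ M else (0 : ℤ)) η0 =
      -2 ^ M := if_pos rfl
  have p1 : (fun ζ => if ζ = η0 then -2 ^ M else if ζ = η2 then 2 ^ M else (0 : ℤ)) η1 = 0 := by
    show (if η1 = η0 then -2 ^ M else if η1 = η2 then 2 ^ M else (0 : ℤ)) = 0
    rw [if_neg n01, if_neg n12]
  have p2 : (fun ζ => if ζ = η0 then -2 ^ M else if ζ = η2 then 2 ^ M else (0 : ℤ)) η2 =
      2 ^ M := by
    show (if η2 = η0 then -2 ^ M else if η2 = η2 then 2 ^ M else (0 : ℤ)) = _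
    rw [if_neg n02, if_pos rfl]
  generalize hp' : (fun ζ => if ζ = η0 then -2 ^ M else if ζ = η2 then 2 ^ M else (0 : ℤ)) = p'
    at p0 p1 p2
  refine ⟨fun e he => he.elim, ?_, ?_, ?_, ?_, ⟨v, rfl⟩⟩
  · intro ζ
    constructor
    · intro h
      simp only [List.mem_cons, List.not_mem_nil, or_false] at h
      rcases h with rfl | rfl | rfl
      · exact ⟨fun h => h, h0⟩
      · exact ⟨fun h => h, h1⟩
      · exact ⟨fun h => h, h2⟩
    · rintro ⟨-, h⟩
      simp only [List.mem_cons, List.not_mem_nil, or_false]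
      exact hall ζ h
  · show List.Pairwise (fun η ζ => p' η + 2 ^ M ≤ p' ζ) _
    rw [List.pairwise_cons, List.pairwise_cons]
    refine ⟨?_, ?_, List.pairwise_singleton _ _⟩
    · intro b hb
      simp only [List.mem_cons, List.not_mem_nil, or_false] at hb
      rcases hb with rfl | rfl
      · rw [p0, p1]
        omega
      · rw [p0, p2]
        omega
    · intro b hb
      simp only [List.mem_cons, List.not_mem_nil, or_false] at hb
      subst hb
      rw [p1, p2]
      omega
  · rw [List.isChain_cons_cons, List.isChain_cons_cons]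
    exact ⟨f1, f2, List.isChain_singleton _⟩
  · intro u hu w hw
    have hu' : u = v := hu
    have hw' : w = v := hw
    rw [hu', hw']

/-- MODULE CMB (3).  The last state.

Proof.  If `u ∈ A`, `v ∉ A`, then on a path from `u` to `v` there is an edge from a vertex of `A` to a vertex outside `A`;
it is not in `C` (`ends`), so `W` contains one of its half edges.  If all vertices are in `A` and `e ∉ C`, then `(e, true) ∈ W`. -/
theorem last_st {V E D : Type} [Fintype V] [Fintype E] {s t : E → V} {l r : E → D} {A : Set V} {C : Set E}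
    {p : E × Bool → ℤ} (hS : St s t l r A C [] p) (hT : ∃ T, IsTree s t T) :
    (∀ v, v ∈ A) ∧ ∀ e, e ∈ C := by
  have hA : ∀ v, v ∈ A := by
    obtain ⟨u, hu⟩ := hS.ne
    obtain ⟨T, -, hT⟩ := hT
    intro v
    have h := hT u v
    induction h with
    | refl => exact hu
    | tail _ hbc ih =>
      obtain ⟨e, -, he⟩ := hbc
      by_cases heC : e ∈ C
      · have h1 := hS.ends e heC
        rcases he with ⟨-, h2⟩ | ⟨h2, -⟩
        · exact h2 ▸ h1.2
        · exact h2 ▸ h1.1
      · exfalso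
        rcases he with ⟨h2, -⟩ | ⟨-, h2⟩
        · have h3 := (hS.mem (e, true)).2 ⟨heC, by
            show s e ∈ A
            rw [h2]
            exact ih⟩
          exact List.not_mem_nil h3
        · have h3 := (hS.mem (e, false)).2 ⟨heC, by
            show t e ∈ A
            rw [h2]
            exact ih⟩
          exact List.not_mem_nil h3
  refine ⟨hA, fun e => ?_⟩
  by_contra he
  exact List.not_mem_nil ((hS.mem (e, true)).2 ⟨he, hA _⟩)

end Pool.Agent.Grd
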