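import Pool.Agent.KG.Defs
import Pool.Agent.HGC.Defs

/-!
# Grid graphs

The definitions which are used in the statement of the final theorem.
-/

set_option autoImplicit false

open scoped BigOperators

namespace Pool.Agent.Grd

open Pool.Agent.KG Pool.Agent.HGC

/-- The edges between the points of `S`: the pairs `(a, b)` of points of `S` with `b = a + (1, 0)` or
`b = a + (0, 1)`. -/
def gedges (S : Finset (ℤ × ℤ)) : Finset ((ℤ × ℤ) × (ℤ × ℤ)) :=
  (S ×ˢ S).filter fun e => e.2 = e.1 + (1, 0) ∨ e.2 = e.1 + (0, 1)

/-- The first end of an edge. -/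
def gs (S : Finset (ℤ × ℤ)) (e : gedges S) : S :=
  ⟨e.1.1, (Finset.mem_product.1 (Finset.mem_filter.1 e.2).1).1⟩

/-- The second end of an edge. -/
def gt (S : Finset (ℤ × ℤ)) (e : gedges S) : S :=
  ⟨e.1.2, (Finset.mem_product.1 (Finset.mem_filter.1 e.2).1).2⟩

/-- A grid graph: a finite set of points of `ℤ²` such that the induced subgraph of `ℤ²` is connected. -/
structure GridGraph where
  /-- the points -/
  S : Finset (ℤ × ℤ)
  /-- there is a spanning tree -/
  conn : ∃ T, IsTree (gs S) (gt S) T

/-- The number of zeros of the first Symanzik polynomial of a grid graph. -/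
noncomputable def GridGraph.count (G : GridGraph) : PF := countPF fun K _ => NS (gs G.S) (gt G.S) K

end Pool.Agent.Grd
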