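import Pool.Agent.PL3.Main
import Pool.Agent.Grd.Poly

/-!
# Planar graphs as grid graphs: definitions

Nothing in this file is used in the statement of the final theorem (see `Grd/Poly.lean`).
-/

set_option autoImplicit false

open scoped BigOperators

namespace Pool.Agent.Grd

open Pool.Agent.KG Pool.Agent.P3 Pool.Agent.PL3

/-! ### the grid -/

/-- Neighbours in `ℤ²`. -/
def Nb (a b : ℤ × ℤ) : Prop :=
  (a.2 = b.2 ∧ (b.1 = a.1 + 1 ∨ a.1 = b.1 + 1)) ∨ (a.1 = b.1 ∧ (b.2 = a.2 + 1 ∨ a.2 = b.2 + 1))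

/-- A walk from `a` through the points of `L` which ends at `b`, the last point of `a :: L`. -/
def Wk : ℤ × ℤ → List (ℤ × ℤ) → ℤ × ℤ → Prop
  | a, [], b => a = b
  | a, c :: L, b => Nb a c ∧ Wk c L b

/-- The next `n` points to the right of `a`. -/
def hz (a : ℤ × ℤ) (n : ℕ) : List (ℤ × ℤ) := (List.range n).map fun i => (a.1 + i + 1, a.2)

/-- The next `n` points to the left of `a`. -/
def hy (a : ℤ × ℤ) (n : ℕ) : List (ℤ × ℤ) := (List.range n).map fun i => (a.1 - i - 1, a.2)

/-! ### numbers of nonzeros -/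

/-- The number of points where the Symanzik polynomial does not vanish. -/
noncomputable def vl {V E : Type} [Fintype V] [Fintype E] (s t : E → V) : FinField → ℤ :=
  fun F => F.q ^ Fintype.card E - ns s t F

/-- Equal up to powers of `q`. -/
def QE (f g : FinField → ℤ) : Prop := ∃ a b : ℕ, ∀ F : FinField, F.q ^ a * f F = F.q ^ b * g F

/-- Isomorphic graphs; the orientation of the edges does not matter. -/
def Is {V E V' E' : Type} (s t : E → V) (s' t' : E' → V') : Prop :=
  ∃ (f : V ≃ V') (g : E ≃ E'), ∀ e, (s' (g e) = f (s e) ∧ t' (g e) = f (t e)) ∨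
    (s' (g e) = f (t e) ∧ t' (g e) = f (s e))

/-! ### drawings -/

/-- A graph drawn in the grid, all edges have length one. -/
structure Dr {V E : Type} (s t : E → V) (pos : V → ℤ × ℤ) : Prop where
  /-- the vertices are different points -/
  inj : Function.Injective pos
  /-- the ends of an edge are neighbours -/
  unit : ∀ e, Nb (pos (s e)) (pos (t e))
  /-- there are no double edges -/
  simple : ∀ e e', (s e = s e' ∧ t e = t e') ∨ (s e = t e' ∧ t e = s e') → e = e'

/-- The functions which are, up to powers of `q`, numbers of nonzeros of connected graphs drawn in the grid. -/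
def GRc (f : FinField → ℤ) : Prop :=
  ∃ (V E : Type) (_ : Fintype V) (_ : Fintype E) (s t : E → V) (pos : V → ℤ × ℤ), Dr s t pos ∧
    (∃ T, IsTree s t T) ∧ QE f (vl s t)

/-- A drawing with long edges: `U e` is the list of the inner points of the edge `e`. -/
structure Fd {V E : Type} (s t : E → V) (pos : V → ℤ × ℤ) (U : E → List (ℤ × ℤ)) : Prop where
  /-- the vertices are different points -/
  inj : Function.Injective pos
  /-- each edge has inner points -/
  une : ∀ e, U e ≠ []
  /-- they are different -/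
  und : ∀ e, (U e).Nodup
  /-- different edges have no common inner points -/
  udj : ∀ e e', e ≠ e' → ∀ a ∈ U e, a ∉ U e'
  /-- the inner points are no vertices -/
  uv : ∀ e v, pos v ∉ U e
  /-- the edges are walks in the grid -/
  uw : ∀ e, Wk (pos (s e)) (U e ++ [pos (t e)]) (pos (t e))

/-! ### subdivision -/

/-- Subdivision, `n e` new vertices on the edge `e`: sources. -/
def sdS {V E : Type} (s : E → V) (n : E → ℕ) (x : Σ e, Fin (n e + 1)) : V ⊕ (Σ e, Fin (n e)) :=
  if h : (x.2 : ℕ) = 0 then Sum.inl (s x.1) else Sum.inr ⟨x.1, ⟨x.2 - 1, by have := x.2.2; omega⟩⟩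

/-- Subdivision: targets. -/
def sdT {V E : Type} (t : E → V) (n : E → ℕ) (x : Σ e, Fin (n e + 1)) : V ⊕ (Σ e, Fin (n e)) :=
  if h : (x.2 : ℕ) = n x.1 then Sum.inl (t x.1) else Sum.inr ⟨x.1, ⟨x.2, by have := x.2.2; omega⟩⟩

/-! ### half edges -/

/-- The vertex where a half edge begins. -/
def hs {V E : Type} (s t : E → V) (η : E × Bool) : V := if η.2 = true then s η.1 else t η.1

/-- The other end of its edge. -/
def he {V E : Type} (s t : E → V) (η : E × Bool) : V := if η.2 = true then t η.1 else s η.1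

/-- The face before a half edge, in the order around its beginning. -/
def fa {E D : Type} (l r : E → D) (η : E × Bool) : D := if η.2 = true then r η.1 else l η.1

/-- The face after a half edge. -/
def fb {E D : Type} (l r : E → D) (η : E × Bool) : D := if η.2 = true then l η.1 else r η.1

/-- The other half of the edge. -/
def rv {E : Type} (η : E × Bool) : E × Bool := (η.1, !η.2)

/-- Once subdivided: sources. -/
def inS {V E : Type} (s t : E → V) (η : E × Bool) : V ⊕ E := Sum.inl (hs s t η)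

/-- Once subdivided: targets. -/
def inT {E : Type} (V : Type) (η : E × Bool) : V ⊕ E := Sum.inr η.1

open Classical in
/-- The points of a drawing, in double size. -/
noncomputable def drS {V E : Type} [Fintype V] [Fintype E] (s t : E → V) (pos : V → ℤ × ℤ) : Finset (ℤ × ℤ) :=
  (Finset.univ.image fun v => pos v + pos v) ∪ Finset.univ.image fun e => pos (s e) + pos (t e)

/-! ### two graphs joined by an edge -/

/-- Two graphs and an edge between them: sources. -/
def jnS {V1 V2 E1 E2 : Type} (a : V1) (s1 : E1 → V1) (s2 : E2 → V2) : Option (E1 ⊕ E2) → V1 ⊕ V2 :=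
  ae (Sum.inl a) (Sum.map s1 s2)

/-- Two graphs and an edge between them: targets. -/
def jnT {V1 V2 E1 E2 : Type} (b : V2) (t1 : E1 → V1) (t2 : E2 → V2) : Option (E1 ⊕ E2) → V1 ⊕ V2 :=
  ae (Sum.inr b) (Sum.map t1 t2)

/-! ### states

A part of the drawing lies below a horizontal line: the vertices `A` and the edges `C`.  The half edges `W` leave this
part, in this order from left to right, at the first coordinates `p`. -/

/-- A state of the drawing. -/
structure St {V E D : Type} (s t : E → V) (l r : E → D) (A : Set V) (C : Set E) (W : List (E × Bool))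
    (p : E × Bool → ℤ) : Prop where
  /-- the ends of the edges in `C` are in `A` -/
  ends : ∀ e ∈ C, s e ∈ A ∧ t e ∈ A
  /-- the half edges which leave the lower part -/
  mem : ∀ η : E × Bool, η ∈ W ↔ η.1 ∉ C ∧ hs s t η ∈ A
  /-- distances -/
  gap : W.Pairwise fun η ζ => p η + 2 ^ (Cᶜ : Set E).ncard ≤ p ζ
  /-- the faces between them -/
  face : W.IsChain fun η ζ => fb l r η = fa l r ζ
  /-- the lower part is connected -/
  conn : ∀ u ∈ A, ∀ v ∈ A, Relation.ReflTransGen
    (fun a b => ∃ e ∈ C, (s e = a ∧ t e = b) ∨ (s e = b ∧ t e = a)) u v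
  /-- and not empty -/
  ne : A.Nonempty

open Classical in
/-- The point where the upper part of a half edge begins. -/
noncomputable def pt {V E : Type} (s t : E → V) (A : Set V) (p : E × Bool → ℤ) (h : ℤ) (pos : V → ℤ × ℤ)
    (η : E × Bool) : ℤ × ℤ := if hs s t η ∈ A then (p η, h) else pos (hs s t η)

/-- A drawing of the rest above the row `h`. -/
structure Dw {V E : Type} (s t : E → V) (A : Set V) (C : Set E) (p : E × Bool → ℤ) (h : ℤ) (pos : V → ℤ × ℤ)
    (U : E → List (ℤ × ℤ)) : Prop where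
  vrow : ∀ v, v ∉ A → h < (pos v).2
  vinj : ∀ u v, u ∉ A → v ∉ A → pos u = pos v → u = v
  urow : ∀ e, e ∉ C → ∀ a ∈ U e, h < a.2
  une : ∀ e, e ∉ C → U e ≠ []
  und : ∀ e, e ∉ C → (U e).Nodup
  udj : ∀ e e', e ∉ C → e' ∉ C → e ≠ e' → ∀ a ∈ U e, a ∉ U e'
  uv : ∀ e v, e ∉ C → v ∉ A → pos v ∉ U e
  uw : ∀ e, e ∉ C → Wk (pt s t A p h pos (e, true)) (U e ++ [pt s t A p h pos (e, false)])
    (pt s t A p h pos (e, false))

/-- The part of the drawing between the rows `h` and `h'`: the new vertices are `A' \ A`, the edges in `C' \ C` are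
finished (`Y`), the others have the pieces `pre`. -/
structure Sl {V E : Type} (s t : E → V) (A A' : Set V) (C C' : Set E) (p p' : E × Bool → ℤ) (h h' : ℤ)
    (pos : V → ℤ × ℤ) (pre : E × Bool → List (ℤ × ℤ)) (Y : E → List (ℤ × ℤ)) : Prop where
  hA : A ⊆ A'
  hC : C ⊆ C'
  hh : h ≤ h'
  vrow : ∀ v ∈ A', v ∉ A → h < (pos v).2 ∧ (pos v).2 ≤ h'
  vinj : ∀ u ∈ A', ∀ v ∈ A', u ∉ A → v ∉ A → pos u = pos v → u = v
  prow : ∀ η : E × Bool, η.1 ∉ C' → ∀ a ∈ pre η, h < a.2 ∧ a.2 ≤ h'
  pnd : ∀ η : E × Bool, η.1 ∉ C' → (pre η).Nodup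
  pdj : ∀ η ζ : E × Bool, η.1 ∉ C' → ζ.1 ∉ C' → η ≠ ζ → ∀ a ∈ pre η, a ∉ pre ζ
  pv : ∀ (η : E × Bool) (v : V), η.1 ∉ C' → v ∈ A' → v ∉ A → pos v ∉ pre η
  pw : ∀ η : E × Bool, η.1 ∉ C' → Wk (pt s t A p h pos η) (pre η) (pt s t A' p' h' pos η)
  yrow : ∀ e ∈ C', e ∉ C → ∀ a ∈ Y e, h < a.2 ∧ a.2 ≤ h'
  yne : ∀ e ∈ C', e ∉ C → Y e ≠ []
  ynd : ∀ e ∈ C', e ∉ C → (Y e).Nodup
  ydj : ∀ e ∈ C', ∀ e' ∈ C', e ∉ C → e' ∉ C → e ≠ e' → ∀ a ∈ Y e, a ∉ Y e'
  yp : ∀ e ∈ C', e ∉ C → ∀ η : E × Bool, η.1 ∉ C' → ∀ a ∈ Y e, a ∉ pre η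
  yv : ∀ e ∈ C', e ∉ C → ∀ v ∈ A', v ∉ A → pos v ∉ Y e
  yw : ∀ e ∈ C', e ∉ C → Wk (pt s t A p h pos (e, true)) (Y e ++ [pt s t A p h pos (e, false)])
    (pt s t A p h pos (e, false))

end Pool.Agent.Grd
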