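import Pool.Agent.Grd.Walk

/-!
# The steps of the drawing, geometry
-/

set_option autoImplicit false

open scoped BigOperators

namespace Pool.Agent.Grd

open Pool.Agent.KG Pool.Agent.P3 Pool.Agent.PL3

/-- MODULE LFT (1).  `pos` matters only outside of `A`. -/
theorem dw_congr {V E : Type} {s t : E → V} {A : Set V} {C : Set E} {p : E × Bool → ℤ} {h : ℤ}
    {pos pos' : V → ℤ × ℤ} {U : E → List (ℤ × ℤ)} (hp : ∀ v, v ∉ A → pos' v = pos v)
    (hD : Dw s t A C p h pos U) : Dw s t A C p h pos' U := by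
  have hpt : ∀ η, pt s t A p h pos' η = pt s t A p h pos η := by
    intro η
    unfold pt
    split_ifs with h1
    · rfl
    · exact hp _ h1
  refine ⟨?_, ?_, hD.urow, hD.une, hD.und, hD.udj, ?_, ?_⟩
  · intro v hv
    rw [hp v hv]
    exact hD.vrow v hv
  · intro u v hu hv huv
    rw [hp u hu, hp v hv] at huv
    exact hD.vinj u v hu hv huv
  · intro e v he hv
    rw [hp v hv]
    exact hD.uv e v he hv
  · intro e he
    rw [hpt, hpt]
    exact hD.uw e he

open Classical in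
/-- MODULE LFT (2).  Proof.  For `e ∉ C'` the new list is `pre (e, true) ++ U e ++ (pre (e, false)).reverse`.  The points of
`pre` are in the rows `h < y ≤ h'`, those of `U` in the rows `> h'`.  `uw`: `wk_glue` with `pw`.  In all conditions distinguish
`v ∈ A'` or not, `e ∈ C'` or not. -/
theorem lift {V E : Type} {s t : E → V} {A A' : Set V} {C C' : Set E} {p p' : E × Bool → ℤ} {h h' : ℤ}
    {pos : V → ℤ × ℤ} {pre : E × Bool → List (ℤ × ℤ)} {Y U : E → List (ℤ × ℤ)}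
    (hS : Sl s t A A' C C' p p' h h' pos pre Y) (hD : Dw s t A' C' p' h' pos U) :
    Dw s t A C p h pos (fun e => if e ∈ C' then Y e else
      pre (e, true) ++ U e ++ (pre (e, false)).reverse) := by
  have hmem : ∀ e, e ∉ C → ∀ a, a ∈ (if e ∈ C' then Y e else
      pre (e, true) ++ U e ++ (pre (e, false)).reverse) →
      (e ∈ C' ∧ a ∈ Y e ∧ h < a.2 ∧ a.2 ≤ h') ∨
      (e ∉ C' ∧ (∃ b, a ∈ pre (e, b)) ∧ h < a.2 ∧ a.2 ≤ h') ∨ (e ∉ C' ∧ a ∈ U e ∧ h' < a.2) := by
    intro e he a ha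
    by_cases h1 : e ∈ C'
    · rw [if_pos h1] at ha
      exact Or.inl ⟨h1, ha, hS.yrow e h1 he a ha⟩
    · rw [if_neg h1, List.mem_append, List.mem_append, List.mem_reverse] at ha
      rcases ha with (ha | ha) | ha
      · exact Or.inr (Or.inl ⟨h1, ⟨true, ha⟩, hS.prow (e, true) h1 a ha⟩)
      · exact Or.inr (Or.inr ⟨h1, ha, hD.urow e h1 a ha⟩)
      · exact Or.inr (Or.inl ⟨h1, ⟨false, ha⟩, hS.prow (e, false) h1 a ha⟩)
  have hrow : ∀ v, v ∉ A → (v ∈ A' ∧ h < (pos v).2 ∧ (pos v).2 ≤ h') ∨ (v ∉ A' ∧ h' < (pos v).2) := by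
    intro v hv
    by_cases h1 : v ∈ A'
    · exact Or.inl ⟨h1, hS.vrow v h1 hv⟩
    · exact Or.inr ⟨h1, hD.vrow v h1⟩
  have hh := hS.hh
  refine ⟨?_, ?_, ?_, ?_, ?_, ?_, ?_, ?_⟩
  · intro v hv
    rcases hrow v hv with h1 | h1
    · exact h1.2.1
    · exact lt_of_le_of_lt hh h1.2
  · intro u v hu hv huv
    rcases hrow u hu with h1 | h1 <;> rcases hrow v hv with h2 | h2
    · exact hS.vinj u h1.1 v h2.1 hu hv huv
    · exfalso
      have h3 := h1.2.2
      have h4 := h2.2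
      rw [huv] at h3
      omega
    · exfalso
      have h3 := h2.2.2
      have h4 := h1.2
      rw [huv] at h4
      omega
    · exact hD.vinj u v h1.1 h2.1 huv
  · intro e he a ha
    rcases hmem e he a ha with h1 | h1 | h1
    · exact h1.2.2.1
    · exact h1.2.2.1
    · exact lt_of_le_of_lt hh h1.2.2
  · intro e he
    by_cases h1 : e ∈ C'
    · rw [if_pos h1]
      exact hS.yne e h1 he
    · rw [if_neg h1]
      intro h2
      rw [List.append_eq_nil_iff, List.append_eq_nil_iff] at h2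
      exact hD.une e h1 h2.1.2
  · intro e he
    by_cases h1 : e ∈ C'
    · rw [if_pos h1]
      exact hS.ynd e h1 he
    · rw [if_neg h1]
      refine List.nodup_append.2 ⟨List.nodup_append.2 ⟨hS.pnd (e, true) h1, hD.und e h1, ?_⟩,
        List.nodup_reverse.2 (hS.pnd (e, false) h1), ?_⟩
      · intro a ha b hb hab
        have h2 := (hS.prow (e, true) h1 a ha).2
        have h3 := hD.urow e h1 b hb
        rw [hab] at h2
        omega
      · intro a ha b hb hab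
        rw [List.mem_reverse] at hb
        rw [List.mem_append] at ha
        rcases ha with ha | ha
        · exact hS.pdj (e, true) (e, false) h1 h1 (fun h2 => by simp at h2) a ha (hab ▸ hb)
        · have h2 := (hS.prow (e, false) h1 b hb).2
          have h3 := hD.urow e h1 a ha
          rw [hab] at h3
          omega
  · intro e e' he he' hee a ha ha'
    rcases hmem e he a ha with h1 | h1 | h1 <;> rcases hmem e' he' a ha' with h2 | h2 | h2
    · exact hS.ydj e h1.1 e' h2.1 he he' hee a h1.2.1 h2.2.1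
    · obtain ⟨b, hb⟩ := h2.2.1
      exact hS.yp e h1.1 he (e', b) h2.1 a h1.2.1 hb
    · omega
    · obtain ⟨b, hb⟩ := h1.2.1
      exact hS.yp e' h2.1 he' (e, b) h1.1 a h2.2.1 hb
    · obtain ⟨b, hb⟩ := h1.2.1
      obtain ⟨b', hb'⟩ := h2.2.1
      exact hS.pdj (e, b) (e', b') h1.1 h2.1 (fun h3 => hee (congrArg Prod.fst h3)) a hb hb'
    · omega
    · omega
    · omega
    · exact hD.udj e e' h1.1 h2.1 hee a h1.2.1 h2.2.1
  · intro e v he hv ha
    rcases hmem e he _ ha with h1 | h1 | h1 <;> rcases hrow v hv with h2 | h2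
    · exact hS.yv e h1.1 he v h2.1 hv h1.2.1
    · omega
    · obtain ⟨b, hb⟩ := h1.2.1
      exact hS.pv (e, b) v h1.1 h2.1 hv hb
    · omega
    · omega
    · exact hD.uv e v h1.1 h2.1 h1.2.1
  · intro e he
    by_cases h1 : e ∈ C'
    · rw [if_pos h1]
      exact hS.yw e h1 he
    · rw [if_neg h1]
      exact wk_glue (hS.pw (e, true) h1) (hD.uw e h1) (hS.pw (e, false) h1)

private theorem GPL_ncard {E : Type} [Fintype E] {C : Set E} {e : E} (he : e ∉ C) :
    (Cᶜ : Set E).ncard = ((insert e C)ᶜ : Set E).ncard + 1 := by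
  have h1 : ((insert e C)ᶜ : Set E) = Cᶜ \ {e} := by
    ext x
    simp only [Set.mem_compl_iff, Set.mem_insert_iff, Set.mem_sdiff, Set.mem_singleton_iff]
    tauto
  rw [h1, Set.ncard_sdiff_singleton_add_one he (Set.toFinite _)]

private theorem GPL_gap {V E D : Type} {s t : E → V} {l r : E → D} {A : Set V} {C : Set E}
    {W : List (E × Bool)} {p : E × Bool → ℤ} (hS : St s t l r A C W p) :
    ∀ ζ ξ : E × Bool, (ζ.1 ∉ C ∧ hs s t ζ ∈ A) → (ξ.1 ∉ C ∧ hs s t ξ ∈ A) → ζ ≠ ξ →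
      p ζ + 2 ^ (Cᶜ : Set E).ncard ≤ p ξ ∨ p ξ + 2 ^ (Cᶜ : Set E).ncard ≤ p ζ := by
  intro ζ ξ h1 h2 h3
  have h4 : W.Pairwise fun ζ ξ => p ζ + 2 ^ (Cᶜ : Set E).ncard ≤ p ξ ∨
      p ξ + 2 ^ (Cᶜ : Set E).ncard ≤ p ζ := hS.gap.imp fun h => Or.inl h
  have : Std.Symm (fun ζ ξ : E × Bool => p ζ + 2 ^ (Cᶜ : Set E).ncard ≤ p ξ ∨
      p ξ + 2 ^ (Cᶜ : Set E).ncard ≤ p ζ) := ⟨fun _ _ h => h.symm⟩
  exact List.Pairwise.forall h4 ((hS.mem ζ).2 h1) ((hS.mem ξ).2 h2) h3

open Classical in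
/-- MODULE GPL.  A new vertex.

Proof.  `pos v = (p η, h + 2)` for `v = he s t η`.  `pre η1 = []`, `pre η2 = hz (p η, h + 2) (2 ^ M')`,
`pre ζ = [(p ζ, h + 1), (p ζ, h + 2)]` for the other `ζ` with `hs s t ζ ∈ A`, `pre ζ = []` if `hs s t ζ ∉ A`; `Y e = [(p η, h + 1)]`.
`2 ^ Cᶜ.ncard = 2 * 2 ^ M'`.  For `ζ ∈ W1`: `p ζ + 2 * 2 ^ M' ≤ p η`; for `ζ ∈ W2`: `p η + 2 * 2 ^ M' ≤ p ζ`; the `p ζ`, `ζ ∈ W`, are
different.  If `ζ.1 ∉ insert η.1 C`, `hs s t ζ ∈ A`, then `ζ ∈ W1` or `ζ ∈ W2` (`mem`), and `ζ ≠ η1`, `η2` (they begin at `v ∉ A`).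
`yw`: one of the half edges of `η.1` is `η` (`pt = (p η, h)`), the other one is `rv η` (`pt = pos v`). -/
theorem peel_sl {V E D : Type} [Fintype E] {s t : E → V} {l r : E → D} {A : Set V} {C : Set E}
    {W1 W2 : List (E × Bool)} {η : E × Bool} {p : E × Bool → ℤ} (hS : St s t l r A C (W1 ++ η :: W2) p)
    (hl : LL s t) (hv : he s t η ∉ A) (η1 η2 : E × Bool) (h1 : hs s t η1 = he s t η)
    (h2 : hs s t η2 = he s t η) (e1 : η1.1 ≠ η.1) (e2 : η2.1 ≠ η.1) (e12 : η1.1 ≠ η2.1)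
    (hall : ∀ ζ : E × Bool, hs s t ζ = he s t η → ζ.1 = η.1 ∨ ζ = η1 ∨ ζ = η2) (h : ℤ)
    (pos : V → ℤ × ℤ) :
    ∃ pre Y, Sl s t A (insert (he s t η) A) C (insert η.1 C) p
      (fun ζ => if ζ = η1 then p η else
        if ζ = η2 then p η + 2 ^ ((insert η.1 C)ᶜ : Set E).ncard else p ζ) h (h + 2)
      (Function.update pos (he s t η) (p η, h + 2)) pre Y := by
  obtain ⟨v, hv0⟩ : ∃ v, v = he s t η := ⟨_, rfl⟩
  rw [← hv0] at h1 h2 hall hv ⊢
  have hηW : η ∈ W1 ++ η :: W2 := by simp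
  obtain ⟨hηC, hηA⟩ := (hS.mem η).1 hηW
  have hrv : hs s t (rv η) = v := by
    rw [hv0]
    unfold hs rv he
    cases η.2 <;> simp
  -- the numbers of unfinished edges
  obtain ⟨K, hK⟩ : ∃ K : ℤ, K = 2 ^ ((insert η.1 C)ᶜ : Set E).ncard := ⟨_, rfl⟩
  have hK0 : 0 < K := by
    rw [hK]
    positivity
  have hK2 : (2 : ℤ) ^ (Cᶜ : Set E).ncard = 2 * K := by
    rw [hK, GPL_ncard hηC, pow_succ]
    ring
  have hKn : ((2 ^ ((insert η.1 C)ᶜ : Set E).ncard : ℕ) : ℤ) = K := by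
    rw [hK]
    push_cast
    rfl
  have hgap := GPL_gap hS
  rw [hK2] at hgap
  have hgapη : ∀ ζ : E × Bool, ζ.1 ∉ insert η.1 C → hs s t ζ ∈ A →
      p ζ + 2 * K ≤ p η ∨ p η + 2 * K ≤ p ζ := by
    intro ζ h3 h4
    refine hgap ζ η ⟨fun h5 => h3 (Set.mem_insert_of_mem _ h5), h4⟩ ⟨hηC, hηA⟩ ?_
    intro h5
    apply h3
    rw [h5]
    exact Set.mem_insert _ _
  rw [← hK]
  have hηv : hs s t η ≠ v := fun h3 => hv (h3 ▸ hηA)
  have h1A : hs s t η1 ∉ A := by rw [h1]; exact hv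
  have h2A : hs s t η2 ∉ A := by rw [h2]; exact hv
  have h12 : η2 ≠ η1 := fun h3 => e12 (by rw [h3])
  have hposv : Function.update pos v (p η, h + 2) v = (p η, h + 2) := Function.update_self _ _ _
  set pos' := Function.update pos v (p η, h + 2) with hpos'
  set pre : E × Bool → List (ℤ × ℤ) := fun ζ => if ζ = η1 then [] else
    if ζ = η2 then hz (p η, h + 2) (2 ^ ((insert η.1 C)ᶜ : Set E).ncard) else
    if hs s t ζ ∈ A then [(p ζ, h + 1), (p ζ, h + 2)] else [] with hpre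
  have hmem : ∀ ζ : E × Bool, ∀ a, a ∈ pre ζ →
      (ζ = η2 ∧ a.2 = h + 2 ∧ p η < a.1 ∧ a.1 ≤ p η + K) ∨
      (ζ ≠ η2 ∧ ζ ≠ η1 ∧ hs s t ζ ∈ A ∧ a.1 = p ζ ∧ (a.2 = h + 1 ∨ a.2 = h + 2)) := by
    intro ζ a ha
    change a ∈ (if ζ = η1 then [] else
      if ζ = η2 then hz (p η, h + 2) (2 ^ ((insert η.1 C)ᶜ : Set E).ncard) else
      if hs s t ζ ∈ A then [(p ζ, h + 1), (p ζ, h + 2)] else [] : List (ℤ × ℤ)) at ha
    by_cases h3 : ζ = η1
    · rw [if_pos h3] at ha
      simp at ha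
    · rw [if_neg h3] at ha
      by_cases h4 : ζ = η2
      · rw [if_pos h4, mem_hz, hKn] at ha
        exact Or.inl ⟨h4, ha⟩
      · rw [if_neg h4] at ha
        by_cases h5 : hs s t ζ ∈ A
        · rw [if_pos h5] at ha
          right
          rcases List.mem_pair.1 ha with rfl | rfl
          · exact ⟨h4, h3, h5, rfl, Or.inl rfl⟩
          · exact ⟨h4, h3, h5, rfl, Or.inr rfl⟩
        · rw [if_neg h5] at ha
          simp at ha
  have hA' : ∀ u ∈ insert v A, u ∉ A → u = v := by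
    intro u h3 h4
    rcases h3 with h3 | h3
    · exact h3
    · exact absurd h3 h4
  have hC' : ∀ e ∈ insert η.1 C, e ∉ C → e = η.1 := by
    intro u h3 h4
    rcases h3 with h3 | h3
    · exact h3
    · exact absurd h3 h4
  refine ⟨pre, fun _ => [(p η, h + 1)], ?_⟩
  refine ⟨Set.subset_insert _ _, Set.subset_insert _ _, by omega, ?_, ?_, ?_, ?_, ?_, ?_, ?_, ?_, ?_,
    ?_, ?_, ?_, ?_, ?_⟩
  · -- vrow
    intro u h3 h4
    rw [hA' u h3 h4, hposv]
    exact ⟨by show h < h + 2; omega, le_rfl⟩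
  · -- vinj
    intro u h3 w h4 h5 h6 _
    rw [hA' u h3 h5, hA' w h4 h6]
  · -- prow
    intro ζ _ a ha
    rcases hmem ζ a ha with h3 | h3
    · omega
    · omega
  · -- pnd
    intro ζ _
    change (if ζ = η1 then [] else
      if ζ = η2 then hz (p η, h + 2) (2 ^ ((insert η.1 C)ᶜ : Set E).ncard) else
      if hs s t ζ ∈ A then [(p ζ, h + 1), (p ζ, h + 2)] else [] : List (ℤ × ℤ)).Nodup
    split_ifs
    · exact List.nodup_nil
    · exact nodup_hz _ _
    · rw [List.nodup_cons]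
      refine ⟨?_, List.nodup_singleton _⟩
      intro h3
      have h4 := congrArg Prod.snd (List.mem_singleton.1 h3)
      have h5 : h + 1 = h + 2 := h4
      omega
    · exact List.nodup_nil
  · -- pdj
    intro ζ ξ hζ hξ hne a ha hb
    rcases hmem ζ a ha with h3 | h3 <;> rcases hmem ξ a hb with h4 | h4
    · exact hne (h3.1.trans h4.1.symm)
    · have := hgapη ξ hξ h4.2.2.1
      omega
    · have := hgapη ζ hζ h3.2.2.1
      omega
    · have := hgap ζ ξ ⟨fun h5 => hζ (Set.mem_insert_of_mem _ h5), h3.2.2.1⟩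
        ⟨fun h5 => hξ (Set.mem_insert_of_mem _ h5), h4.2.2.1⟩ hne
      omega
  · -- pv
    intro ζ u hζ h3 h4 ha
    rw [hA' u h3 h4, hposv] at ha
    rcases hmem ζ _ ha with h5 | h5
    · have h6 : p η < p η := h5.2.2.1
      omega
    · have h6 : p η = p ζ := h5.2.2.2.1
      have := hgapη ζ hζ h5.2.2.1
      omega
  · -- pw
    intro ζ hζ
    change Wk (pt s t A p h pos' ζ) (if ζ = η1 then [] else
      if ζ = η2 then hz (p η, h + 2) (2 ^ ((insert η.1 C)ᶜ : Set E).ncard) else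
      if hs s t ζ ∈ A then [(p ζ, h + 1), (p ζ, h + 2)] else [] : List (ℤ × ℤ)) _
    unfold pt
    beta_reduce
    by_cases h3 : ζ = η1
    · rw [if_pos h3, h3, if_neg h1A, if_pos (by rw [h1]; exact Set.mem_insert _ _), if_pos rfl,
        h1, hposv]
      exact rfl
    · rw [if_neg h3]
      by_cases h4 : ζ = η2
      · rw [if_pos h4, h4, if_neg h2A, if_pos (by rw [h2]; exact Set.mem_insert _ _), if_neg h12,
          if_pos rfl, h2, hposv]
        have h5 := wk_hz (p η, h + 2) (2 ^ ((insert η.1 C)ᶜ : Set E).ncard)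
        rw [hKn] at h5
        exact h5
      · rw [if_neg h4]
        by_cases h5 : hs s t ζ ∈ A
        · rw [if_pos h5, if_pos h5, if_pos (Set.mem_insert_of_mem _ h5), if_neg h3, if_neg h4]
          refine ⟨?_, ?_, rfl⟩
          · exact Or.inr ⟨rfl, Or.inl rfl⟩
          · exact Or.inr ⟨rfl, Or.inl (by show h + 2 = h + 1 + 1; ring)⟩
        · have h6 : hs s t ζ ≠ v := by
            intro h6
            rcases hall ζ h6 with h7 | h7 | h7
            · exact hζ (by rw [h7]; exact Set.mem_insert _ _)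
            · exact h3 h7
            · exact h4 h7
          rw [if_neg h5, if_neg h5, if_neg (fun h7 => h5 (h7.resolve_left h6))]
          exact rfl
  · -- yrow
    intro e _ _ a ha
    rw [List.mem_singleton.1 ha]
    exact ⟨by show h < h + 1; omega, by show h + 1 ≤ h + 2; omega⟩
  · intro e _ _
    simp
  · intro e _ _
    exact List.nodup_singleton _
  · intro e he e' he' h3 h4 h5
    exact absurd ((hC' e he h3).trans (hC' e' he' h4).symm) h5
  · -- yp
    intro e _ _ ζ hζ a ha hb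
    rw [List.mem_singleton.1 ha] at hb
    rcases hmem ζ _ hb with h5 | h5
    · have h6 : h + 1 = h + 2 := h5.2.1
      omega
    · have h6 : p η = p ζ := h5.2.2.2.1
      have := hgapη ζ hζ h5.2.2.1
      omega
  · -- yv
    intro e _ _ u h3 h4 ha
    rw [hA' u h3 h4, hposv] at ha
    have h5 := congrArg Prod.snd (List.mem_singleton.1 ha)
    have h6 : h + 2 = h + 1 := h5
    omega
  · -- yw
    intro e he0 he1
    have he2 := hC' e he0 he1
    have hptη : pt s t A p h pos' η = (p η, h) := by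
      unfold pt
      rw [if_pos hηA]
    have hptr : pt s t A p h pos' (rv η) = (p η, h + 2) := by
      unfold pt
      rw [hrv, if_neg hv, hposv]
    rcases hb : η.2 with _ | _
    · have e3 : (e, false) = η := by rw [he2, ← hb]
      have e4 : (e, true) = rv η := by rw [he2, rv, hb]; rfl
      rw [e3, e4, hptη, hptr]
      refine ⟨?_, ?_, rfl⟩
      · exact Or.inr ⟨rfl, Or.inr (by show h + 2 = h + 1 + 1; ring)⟩
      · exact Or.inr ⟨rfl, Or.inr rfl⟩
    · have e3 : (e, true) = η := by rw [he2, ← hb]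
      have e4 : (e, false) = rv η := by rw [he2, rv, hb]; rfl
      rw [e3, e4, hptη, hptr]
      refine ⟨?_, ?_, rfl⟩
      · exact Or.inr ⟨rfl, Or.inl rfl⟩
      · exact Or.inr ⟨rfl, Or.inl (by show h + 2 = h + 1 + 1; ring)⟩

/-- MODULE GCP.  A cap.

Proof.  `pre ζ = [(p ζ, h + 1)]` for `hs s t ζ ∈ A`, `[]` if not; with `L = (p η, h + 1) :: hz (p η, h + 1) (p (rv η) - p η).toNat`
(a walk from `(p η, h)` to `(p (rv η), h + 1)`, and on to `(p (rv η), h)`) `Y e = L` if `η.2 = true` and `L.reverse` if not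
(`wk_rev`).  The `p ζ` of the other half edges are smaller than `p η` or larger than `p (rv η)` (`gap`, `mem`). -/
theorem cap_sl {V E D : Type} [Fintype E] {s t : E → V} {l r : E → D} {A : Set V} {C : Set E}
    {W1 W2 : List (E × Bool)} {η : E × Bool} {p : E × Bool → ℤ}
    (hS : St s t l r A C (W1 ++ η :: rv η :: W2) p) (h : ℤ) (pos : V → ℤ × ℤ) :
    ∃ pre Y, Sl s t A A C (insert η.1 C) p p h (h + 1) pos pre Y := by
  have hW : (W1 ++ η :: rv η :: W2) = W1 ++ η :: (rv η :: W2) := rfl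
  have hηW : η ∈ W1 ++ η :: rv η :: W2 := by simp
  have hrW : rv η ∈ W1 ++ η :: rv η :: W2 := by simp
  obtain ⟨hηC, hηA⟩ := (hS.mem η).1 hηW
  obtain ⟨hrC, hrA⟩ := (hS.mem (rv η)).1 hrW
  obtain ⟨K, hK⟩ : ∃ K : ℤ, K = 2 ^ (Cᶜ : Set E).ncard := ⟨_, rfl⟩
  have hK0 : 0 < K := by
    rw [hK]
    positivity
  have hgap := GPL_gap hS
  have hg := hS.gap
  rw [← hK] at hgap hg
  rw [List.pairwise_append] at hg
  obtain ⟨-, hg2, hg3⟩ := hg
  rw [List.pairwise_cons, List.pairwise_cons] at hg2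
  obtain ⟨hg4, hg5, -⟩ := hg2
  have hηr : p η + K ≤ p (rv η) := hg4 _ (by simp)
  have hout : ∀ ζ : E × Bool, ζ.1 ∉ insert η.1 C → hs s t ζ ∈ A →
      p ζ + K ≤ p η ∨ p (rv η) + K ≤ p ζ := by
    intro ζ h1 h2
    have h3 : ζ ∈ W1 ++ η :: rv η :: W2 :=
      (hS.mem ζ).2 ⟨fun h5 => h1 (Set.mem_insert_of_mem _ h5), h2⟩
    have hne1 : ζ ≠ η := fun h4 => h1 (by rw [h4]; exact Set.mem_insert _ _)
    have hne2 : ζ ≠ rv η := fun h4 => h1 (by rw [h4]; exact Set.mem_insert _ _)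
    rcases List.mem_append.1 h3 with h4 | h4
    · exact Or.inl (hg3 ζ h4 η (by simp))
    · right
      rcases List.mem_cons.1 h4 with h5 | h5
      · exact absurd h5 hne1
      · rcases List.mem_cons.1 h5 with h6 | h6
        · exact absurd h6 hne2
        · exact hg5 ζ h6
  obtain ⟨m, hm⟩ : ∃ m : ℕ, (m : ℤ) = p (rv η) - p η :=
    ⟨(p (rv η) - p η).toNat, Int.toNat_of_nonneg (by omega)⟩
  set L : List (ℤ × ℤ) := (p η, h + 1) :: hz (p η, h + 1) m with hL
  have hLmem : ∀ a, a ∈ L ↔ a.2 = h + 1 ∧ p η ≤ a.1 ∧ a.1 ≤ p (rv η) := by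
    intro a
    rw [hL, List.mem_cons, mem_hz]
    constructor
    · rintro (h1 | h1)
      · rw [h1]
        exact ⟨rfl, le_rfl, by omega⟩
      · obtain ⟨h2, h3, h4⟩ := h1
        refine ⟨h2, le_of_lt h3, ?_⟩
        have h5 : a.1 ≤ p η + m := h4
        omega
    · rintro ⟨h1, h2, h3⟩
      rcases eq_or_lt_of_le h2 with h4 | h4
      · left
        exact Prod.ext h4.symm h1
      · right
        refine ⟨h1, h4, ?_⟩
        show a.1 ≤ p η + m
        omega
  have hLnd : L.Nodup := by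
    rw [hL, List.nodup_cons, mem_hz]
    refine ⟨?_, nodup_hz _ _⟩
    rintro ⟨-, h2, -⟩
    exact lt_irrefl _ h2
  have hLw : Wk (p η, h) (L ++ [(p (rv η), h)]) (p (rv η), h) := by
    refine ⟨Or.inr ⟨rfl, Or.inl rfl⟩, ?_⟩
    have h1 := wk_hz (p η, h + 1) m
    have h2 : ((p η, h + 1).1 + (m : ℤ), (p η, h + 1).2) = (p (rv η), h + 1) :=
      Prod.ext (by show p η + m = p (rv η); omega) rfl
    rw [h2] at h1
    refine wk_app h1 ?_
    exact ⟨Or.inr ⟨rfl, Or.inr rfl⟩, rfl⟩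
  have hpt : ∀ ζ, hs s t ζ ∈ A → pt s t A p h pos ζ = (p ζ, h) := by
    intro ζ h1
    unfold pt
    rw [if_pos h1]
  have hC' : ∀ e ∈ insert η.1 C, e ∉ C → e = η.1 := by
    intro u h3 h4
    rcases h3 with h3 | h3
    · exact h3
    · exact absurd h3 h4
  classical
  set pre : E × Bool → List (ℤ × ℤ) := fun ζ => if hs s t ζ ∈ A then [(p ζ, h + 1)] else []
    with hpre
  have hmem : ∀ ζ : E × Bool, ∀ a, a ∈ pre ζ → hs s t ζ ∈ A ∧ a = (p ζ, h + 1) := by
    intro ζ a ha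
    change a ∈ (if hs s t ζ ∈ A then [(p ζ, h + 1)] else [] : List (ℤ × ℤ)) at ha
    by_cases h5 : hs s t ζ ∈ A
    · rw [if_pos h5] at ha
      exact ⟨h5, List.mem_singleton.1 ha⟩
    · rw [if_neg h5] at ha
      simp at ha
  set Yl : List (ℤ × ℤ) := if η.2 = true then L else L.reverse with hYl
  have hYmem : ∀ a, a ∈ Yl ↔ a ∈ L := by
    intro a
    rw [hYl]
    split_ifs
    · exact Iff.rfl
    · exact List.mem_reverse
  refine ⟨pre, fun _ => Yl, ?_⟩
  refine ⟨le_rfl, Set.subset_insert _ _, by omega, ?_, ?_, ?_, ?_, ?_, ?_, ?_, ?_, ?_,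
    ?_, ?_, ?_, ?_, ?_⟩
  · intro u h3 h4
    exact absurd h3 h4
  · intro u h3 w h4 h5
    exact absurd h3 h5
  · intro ζ _ a ha
    obtain ⟨h3, rfl⟩ := hmem ζ a ha
    exact ⟨by show h < h + 1; omega, le_rfl⟩
  · intro ζ _
    change (if hs s t ζ ∈ A then [(p ζ, h + 1)] else [] : List (ℤ × ℤ)).Nodup
    split_ifs
    · exact List.nodup_singleton _
    · exact List.nodup_nil
  · intro ζ ξ hζ hξ hne a ha hb
    obtain ⟨h3, rfl⟩ := hmem ζ a ha
    obtain ⟨h4, h5⟩ := hmem ξ _ hb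
    have h6 : p ζ = p ξ := congrArg Prod.fst h5
    have := hgap ζ ξ ⟨fun h5 => hζ (Set.mem_insert_of_mem _ h5), h3⟩
      ⟨fun h5 => hξ (Set.mem_insert_of_mem _ h5), h4⟩ hne
    omega
  · intro ζ u _ h3 h4
    exact absurd h3 h4
  · intro ζ hζ
    change Wk (pt s t A p h pos ζ) (if hs s t ζ ∈ A then [(p ζ, h + 1)] else [] : List (ℤ × ℤ)) _
    unfold pt
    by_cases h5 : hs s t ζ ∈ A
    · rw [if_pos h5, if_pos h5, if_pos h5]
      exact ⟨Or.inr ⟨rfl, Or.inl rfl⟩, rfl⟩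
    · rw [if_neg h5, if_neg h5, if_neg h5]
      exact rfl
  · intro e _ _ a ha
    obtain ⟨h3, -, -⟩ := (hLmem a).1 ((hYmem a).1 ha)
    omega
  · intro e _ _ h3
    have h4 : (p η, h + 1) ∈ Yl := (hYmem _).2 (by rw [hL]; simp)
    have h5 : Yl = [] := h3
    rw [h5] at h4
    simp at h4
  · intro e _ _
    show Yl.Nodup
    rw [hYl]
    split_ifs
    · exact hLnd
    · exact List.nodup_reverse.2 hLnd
  · intro e he e' he' h3 h4 h5
    exact absurd ((hC' e he h3).trans (hC' e' he' h4).symm) h5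
  · intro e _ _ ζ hζ a ha hb
    obtain ⟨h3, h4, h5⟩ := (hLmem a).1 ((hYmem a).1 ha)
    obtain ⟨h6, rfl⟩ := hmem ζ a hb
    have h7 : p η ≤ p ζ := h4
    have h8 : p ζ ≤ p (rv η) := h5
    have := hout ζ hζ h6
    omega
  · intro e _ _ u h3 h4
    exact absurd h3 h4
  · intro e he0 he1
    have he2 := hC' e he0 he1
    show Wk _ (Yl ++ _) _
    rcases hb : η.2 with _ | _
    · have e3 : (e, false) = η := by rw [he2, ← hb]
      have e4 : (e, true) = rv η := by rw [he2, rv, hb]; rfl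
      rw [e3, e4, hpt η hηA, hpt _ hrA, hYl, hb, if_neg (by decide)]
      exact wk_rev hLw
    · have e3 : (e, true) = η := by rw [he2, ← hb]
      have e4 : (e, false) = rv η := by rw [he2, rv, hb]; rfl
      rw [e3, e4, hpt η hηA, hpt _ hrA, hYl, hb, if_pos rfl]
      exact hLw

open Classical in
/-- MODULE GST.  The beginning.

Proof.  `pos v = (0, 0)`, `pre η0 = hy (0, 0) (2 ^ M)`, `pre η2 = hz (0, 0) (2 ^ M)`, `pre ζ = []` for the others; there are no
finished edges. -/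
theorem start_sl {V E : Type} [Fintype E] {s t : E → V} (hl : LL s t) (v : V)
    (η0 η1 η2 : E × Bool) (h0 : hs s t η0 = v) (h1 : hs s t η1 = v) (h2 : hs s t η2 = v)
    (e01 : η0.1 ≠ η1.1) (e02 : η0.1 ≠ η2.1) (e12 : η1.1 ≠ η2.1)
    (hall : ∀ ζ : E × Bool, hs s t ζ = v → ζ = η0 ∨ ζ = η1 ∨ ζ = η2) (pos : V → ℤ × ℤ)
    (p : E × Bool → ℤ) :
    ∃ pre Y, Sl s t ∅ {v} ∅ ∅ p (fun ζ => if ζ = η0 then -2 ^ ((∅ : Set E)ᶜ).ncard else
      if ζ = η2 then 2 ^ ((∅ : Set E)ᶜ).ncard else 0) (-1) 0 (Function.update pos v (0, 0)) pre Y := by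
  obtain ⟨K, hK⟩ : ∃ K : ℤ, K = 2 ^ ((∅ : Set E)ᶜ).ncard := ⟨_, rfl⟩
  have hK0 : 0 < K := by
    rw [hK]
    positivity
  have hKn : ((2 ^ ((∅ : Set E)ᶜ).ncard : ℕ) : ℤ) = K := by
    rw [hK]
    push_cast
    rfl
  rw [← hK]
  have hposv : Function.update pos v (0, 0) v = (0, 0) := Function.update_self _ _ _
  set pos' := Function.update pos v (0, 0) with hpos'
  set pre : E × Bool → List (ℤ × ℤ) := fun ζ => if ζ = η0 then
      hy (0, 0) (2 ^ ((∅ : Set E)ᶜ).ncard) else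
    if ζ = η2 then hz (0, 0) (2 ^ ((∅ : Set E)ᶜ).ncard) else [] with hpre
  have hmem : ∀ ζ : E × Bool, ∀ a, a ∈ pre ζ →
      (ζ = η0 ∧ a.2 = 0 ∧ a.1 < 0) ∨ (ζ = η2 ∧ a.2 = 0 ∧ 0 < a.1) := by
    intro ζ a ha
    change a ∈ (if ζ = η0 then hy (0, 0) (2 ^ ((∅ : Set E)ᶜ).ncard) else
      if ζ = η2 then hz (0, 0) (2 ^ ((∅ : Set E)ᶜ).ncard) else [] : List (ℤ × ℤ)) at ha
    by_cases h3 : ζ = η0
    · rw [if_pos h3, mem_hy] at ha
      exact Or.inl ⟨h3, ha.1, ha.2.1⟩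
    · rw [if_neg h3] at ha
      by_cases h4 : ζ = η2
      · rw [if_pos h4, mem_hz] at ha
        exact Or.inr ⟨h4, ha.1, ha.2.1⟩
      · rw [if_neg h4] at ha
        simp at ha
  have h20 : η2 ≠ η0 := fun h3 => e02 (by rw [h3])
  have h10 : η1 ≠ η0 := fun h3 => e01 (by rw [h3])
  have h12 : η1 ≠ η2 := fun h3 => e12 (by rw [h3])
  refine ⟨pre, fun _ => [], ?_⟩
  refine ⟨Set.empty_subset _, le_rfl, by omega, ?_, ?_, ?_, ?_, ?_, ?_, ?_, ?_, ?_,
    ?_, ?_, ?_, ?_, ?_⟩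
  · intro u h3 _
    rw [Set.mem_singleton_iff.1 h3, hposv]
    exact ⟨by norm_num, le_rfl⟩
  · intro u h3 w h4 _ _ _
    rw [Set.mem_singleton_iff.1 h3, Set.mem_singleton_iff.1 h4]
  · intro ζ _ a ha
    rcases hmem ζ a ha with h3 | h3
    · omega
    · omega
  · intro ζ _
    change (if ζ = η0 then hy (0, 0) (2 ^ ((∅ : Set E)ᶜ).ncard) else
      if ζ = η2 then hz (0, 0) (2 ^ ((∅ : Set E)ᶜ).ncard) else [] : List (ℤ × ℤ)).Nodup
    split_ifs
    · exact nodup_hy _ _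
    · exact nodup_hz _ _
    · exact List.nodup_nil
  · intro ζ ξ _ _ hne a ha hb
    rcases hmem ζ a ha with h3 | h3 <;> rcases hmem ξ a hb with h4 | h4
    · exact hne (h3.1.trans h4.1.symm)
    · omega
    · omega
    · exact hne (h3.1.trans h4.1.symm)
  · intro ζ u _ h3 _ ha
    rw [Set.mem_singleton_iff.1 h3, hposv] at ha
    rcases hmem ζ _ ha with h5 | h5
    · exact lt_irrefl _ h5.2.2
    · exact lt_irrefl _ h5.2.2
  · intro ζ _
    change Wk (pt s t ∅ p (-1) pos' ζ) (if ζ = η0 then hy (0, 0) (2 ^ ((∅ : Set E)ᶜ).ncard) else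
      if ζ = η2 then hz (0, 0) (2 ^ ((∅ : Set E)ᶜ).ncard) else [] : List (ℤ × ℤ)) _
    unfold pt
    beta_reduce
    rw [if_neg (Set.notMem_empty _)]
    by_cases h3 : ζ = η0
    · rw [if_pos h3, h3, h0, hposv, if_pos (Set.mem_singleton _), if_pos rfl]
      have h5 := wk_hy (0, 0) (2 ^ ((∅ : Set E)ᶜ).ncard)
      rw [hKn] at h5
      have h6 : ((0 : ℤ) - K, (0 : ℤ)) = (-K, 0) := by rw [zero_sub]
      change Wk (0, 0) _ ((0 : ℤ) - K, (0 : ℤ)) at h5
      rw [h6] at h5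
      exact h5
    · rw [if_neg h3]
      by_cases h4 : ζ = η2
      · rw [if_pos h4, h4, h2, hposv, if_pos (Set.mem_singleton _), if_neg h20, if_pos rfl]
        have h5 := wk_hz (0, 0) (2 ^ ((∅ : Set E)ᶜ).ncard)
        rw [hKn] at h5
        have h6 : ((0 : ℤ) + K, (0 : ℤ)) = (K, 0) := by rw [zero_add]
        change Wk (0, 0) _ ((0 : ℤ) + K, (0 : ℤ)) at h5
        rw [h6] at h5
        exact h5
      · rw [if_neg h4]
        by_cases h5 : hs s t ζ ∈ ({v} : Set V)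
        · rw [if_pos h5, if_neg h3, if_neg h4, Set.mem_singleton_iff.1 h5, hposv]
          exact rfl
        · rw [if_neg h5]
          exact rfl
  · intro e he
    exact absurd he (Set.notMem_empty _)
  · intro e he
    exact absurd he (Set.notMem_empty _)
  · intro e he
    exact absurd he (Set.notMem_empty _)
  · intro e he
    exact absurd he (Set.notMem_empty _)
  · intro e he
    exact absurd he (Set.notMem_empty _)
  · intro e he
    exact absurd he (Set.notMem_empty _)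
  · intro e he
    exact absurd he (Set.notMem_empty _)

end Pool.Agent.Grd
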