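import Pool.Agent.Grd.Defs

/-!
# If all half edges lead back, then two neighbours are the halves of one edge
-/

set_option autoImplicit false

open scoped BigOperators

namespace Pool.Agent.Grd

open Pool.Agent.KG Pool.Agent.P3 Pool.Agent.PL3

open Classical in
/-- MODULE NCA (1).  Induction on `Relation.ReflTransGen`, see the proof of `PL3.exists_flow`. -/
theorem flow_in {V E : Type} [Fintype E] (s t : E → V) (C : Set E) (u v : V)
    (h : Relation.ReflTransGen (fun a b => ∃ e ∈ C, (s e = a ∧ t e = b) ∨ (s e = b ∧ t e = a)) u v) :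
    ∃ x : E → ℚ, (∀ e, e ∉ C → x e = 0) ∧
      ∀ w, net s t x w = (if u = w then 1 else 0) - (if v = w then 1 else 0) := by
  have key : ∀ (e : E) (v : V), net s t (fun i => if i = e then (1 : ℚ) else 0) v =
      (if s e = v then 1 else 0) - (if t e = v then 1 else 0) := by
    intro e v
    unfold net
    congr 1
    · rw [Finset.sum_eq_single e]
      · dsimp only
        rw [if_pos rfl]
      · intro i _ hi
        dsimp only
        rw [if_neg hi, ite_self]
      · intro h
        exact absurd (Finset.mem_univ e) h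
    · rw [Finset.sum_eq_single e]
      · dsimp only
        rw [if_pos rfl]
      · intro i _ hi
        dsimp only
        rw [if_neg hi, ite_self]
      · intro h
        exact absurd (Finset.mem_univ e) h
  induction h with
  | refl =>
    refine ⟨fun _ => 0, fun _ _ => rfl, fun v => ?_⟩
    rw [sub_self]
    unfold net
    simp
  | tail _ hs ih =>
    obtain ⟨x, hx0, hx⟩ := ih
    obtain ⟨e, heC, he⟩ := hs
    rcases he with ⟨h1, h2⟩ | ⟨h1, h2⟩
    · refine ⟨fun i => x i + (if i = e then (1 : ℚ) else 0), fun e' he' => ?_, fun v => ?_⟩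
      · dsimp only
        rw [hx0 e' he', if_neg (fun h : e' = e => he' (h ▸ heC)), add_zero]
      · rw [net_add, hx, key, h1, h2]
        ring
    · refine ⟨fun i => x i + (-1) * (if i = e then (1 : ℚ) else 0), fun e' he' => ?_, fun v => ?_⟩
      · dsimp only
        rw [hx0 e' he', if_neg (fun h : e' = e => he' (h ▸ heC)), mul_zero, add_zero]
      · rw [net_add, net_smul, hx, key, h1, h2]
        ring

/-- MODULE NCA (2).  Proof.  Let `e = η.1 ∉ C`, with both ends in `A`.  `flow_in` from `t e` to `s e` in `C`, plus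
`Pi.single e 1`, is a cycle `x` with `x e = 1` and `x e' = 0` for `e' ∉ C`, `e' ≠ e`.  By `Du` it is the coboundary of some `φ`:
`φ (l e) - φ (r e) = 1` and `φ (l e') = φ (r e')`. -/
theorem pot_in {V E D : Type} [Fintype E] {s t : E → V} {l r : E → D} (h : Du s t l r) {A : Set V} {C : Set E}
    {W : List (E × Bool)} {p : E × Bool → ℤ} (hS : St s t l r A C W p) (η : E × Bool) (hη : η ∈ W)
    (hA : he s t η ∈ A) : ∃ φ : D → ℚ, φ (fb l r η) ≠ φ (fa l r η) ∧
      ∀ ζ : E × Bool, ζ.1 ∉ C → ζ.1 ≠ η.1 → φ (fb l r ζ) = φ (fa l r ζ) := by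
  classical
  obtain ⟨hηC, hηA⟩ := (hS.mem η).1 hη
  have hst : s η.1 ∈ A ∧ t η.1 ∈ A := by
    unfold hs at hηA
    unfold he at hA
    by_cases hb : η.2 = true
    · rw [if_pos hb] at hηA hA
      exact ⟨hηA, hA⟩
    · rw [if_neg hb] at hηA hA
      exact ⟨hA, hηA⟩
  obtain ⟨x, hx0, hx⟩ := flow_in s t C (t η.1) (s η.1) (hS.conn _ hst.2 _ hst.1)
  have h1 : ∀ v, net s t (fun i => x i + (if i = η.1 then (1 : ℚ) else 0)) v = 0 := by
    intro v
    rw [net_add, hx]
    unfold net
    have h2 : ∀ u : E → V, (∑ e, if u e = v then (if e = η.1 then (1 : ℚ) else 0) else 0) =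
        if u η.1 = v then 1 else 0 := by
      intro u
      rw [Finset.sum_eq_single η.1]
      · rw [if_pos rfl]
      · intro i _ hi
        rw [if_neg hi, ite_self]
      · intro h
        exact absurd (Finset.mem_univ η.1) h
    rw [h2, h2]
    ring
  obtain ⟨φ, hφ⟩ := (h _).1 h1
  have h2 := hφ η.1
  rw [hx0 _ hηC, if_pos rfl, zero_add] at h2
  refine ⟨φ, ?_, fun ζ hζ hne => ?_⟩
  · unfold fb fa
    by_cases hb : η.2 = true
    · rw [if_pos hb, if_pos hb]
      intro h3
      rw [h3, sub_self] at h2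
      exact one_ne_zero h2
    · rw [if_neg hb, if_neg hb]
      intro h3
      rw [h3, sub_self] at h2
      exact one_ne_zero h2
  · have h3 := hφ ζ.1
    rw [hx0 _ hζ, if_neg hne, zero_add] at h3
    have h4 := sub_eq_zero.1 h3.symm
    unfold fb fa
    by_cases hb : ζ.2 = true
    · rw [if_pos hb, if_pos hb, h4]
    · rw [if_neg hb, if_neg hb, h4]

/-- MODULE NCB.  Proof.  Write `W k` for the entries, `f 0 = fa (W 0)`, `f (k + 1) = fb (W k)`; by the chain condition
`fa (W k) = f k`.  Take a pair `i < j` with `W j = rv (W i)` and `j - i` minimal (there is one: `W ≠ []`, `hr`).  Suppose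
`j ≠ i + 1`.  Let `φ` be given by `hφ` for `η = W i`.  `φ (f (k + 1)) = φ (f k)` for `k ≠ i, j` (by `nd` only `W i`, `W j` have
the edge `η.1`), so `φ (f k) = φ (f i)` for `k ≤ i`, `φ (f k) = φ (f (i + 1))` for `i < k ≤ j`, and
`φ (f k) = φ (f (j + 1))` for `k > j`; moreover `f (j + 1) = fb (rv η) = fa η = f i`.  Let `ζ = W (i + 1)`, `rv ζ = W m`.  Then
`m ≠ i, i + 1, j`, and not `i < m < j` by minimality.  So `φ (f m) = φ (f i)`.  But `f m = fa (rv ζ) = fb ζ = f (i + 2)` and
`i + 2 ≤ j`, so `φ (f m) = φ (f (i + 1)) ≠ φ (f i)`, a contradiction. -/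
theorem nc_list {E D : Type} (l r : E → D) (C : Set E) (W : List (E × Bool)) (nd : W.Nodup)
    (hC : ∀ η ∈ W, η.1 ∉ C) (face : W.IsChain fun η ζ => fb l r η = fa l r ζ) (hr : ∀ η ∈ W, rv η ∈ W)
    (hφ : ∀ η ∈ W, ∃ φ : D → ℚ, φ (fb l r η) ≠ φ (fa l r η) ∧
      ∀ ζ : E × Bool, ζ.1 ∉ C → ζ.1 ≠ η.1 → φ (fb l r ζ) = φ (fa l r ζ)) (hW : W ≠ []) :
    ∃ W1 η W2, W = W1 ++ η :: rv η :: W2 := by
  classical
  obtain ⟨n, hn⟩ : ∃ n, n = W.length := ⟨_, rfl⟩
  have hn0 : 0 < n := by
    rw [hn]
    exact List.length_pos_iff.2 hW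
  obtain ⟨w, hw⟩ : ∃ w : ℕ → E × Bool, ∀ (k : ℕ) (h : k < W.length), w k = W[k] :=
    ⟨fun k => if h : k < W.length then W[k] else W[0]'(hn ▸ hn0), fun k h => dif_pos h⟩
  have hmem : ∀ k < n, w k ∈ W := by
    intro k hk
    rw [hw k (hn ▸ hk)]
    exact List.getElem_mem _
  have hinj : ∀ i < n, ∀ j < n, w i = w j → i = j := by
    intro i hi j hj h
    rw [hw i (hn ▸ hi), hw j (hn ▸ hj)] at h
    exact (List.Nodup.getElem_inj_iff nd).1 h
  have hch : ∀ k, k + 1 < n → fb l r (w k) = fa l r (w (k + 1)) := by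
    intro k hk
    have hk' : k + 1 < W.length := hn ▸ hk
    rw [hw k (by omega), hw (k + 1) hk']
    exact List.isChain_iff_getElem.1 face k hk'
  have hex : ∀ i < n, ∃ j < n, w j = rv (w i) := by
    intro i hi
    obtain ⟨j, hj, hj'⟩ := List.mem_iff_getElem.1 (hr _ (hmem i hi))
    exact ⟨j, hn ▸ hj, by rw [hw j hj, hj']⟩
  have hrv : ∀ η : E × Bool, rv (rv η) = η := by
    intro η
    unfold rv
    simp
  have hrvne : ∀ η : E × Bool, rv η ≠ η := by
    intro η h
    have h1 : (!η.2) = η.2 := congrArg Prod.snd h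
    cases hb : η.2 <;> rw [hb] at h1 <;> exact absurd h1 (by decide)
  have hff : ∀ η : E × Bool, fa l r (rv η) = fb l r η ∧ fb l r (rv η) = fa l r η := by
    intro η
    unfold fa fb rv
    cases hb : η.2 <;> simp
  have hedge : ∀ η ζ : E × Bool, ζ.1 = η.1 → ζ = η ∨ ζ = rv η := by
    rintro ⟨a, b⟩ ⟨c, d⟩ h
    have h' : c = a := h
    subst h'
    unfold rv
    cases b <;> cases d <;> simp
  -- a pair with the minimal distance
  have hP : ∃ d, 0 < d ∧ ∃ i, i + d < n ∧ w (i + d) = rv (w i) := by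
    obtain ⟨j, hj, hj'⟩ := hex 0 hn0
    refine ⟨j, Nat.pos_of_ne_zero ?_, 0, by omega, by rw [zero_add, hj']⟩
    rintro rfl
    exact hrvne _ hj'.symm
  obtain ⟨hd0, i, hid, hwi⟩ := Nat.find_spec hP
  have hmin : ∀ d', 0 < d' → d' < Nat.find hP → ∀ i', i' + d' < n → w (i' + d') ≠ rv (w i') := by
    intro d' h1 h2 i' h3 h4
    exact Nat.find_min hP h2 ⟨h1, i', h3, h4⟩
  generalize Nat.find hP = d at hd0 hid hwi hmin
  rcases Nat.lt_or_ge d 2 with hd | hd
  · have hd1 : d = 1 := by omega
    subst hd1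
    have h1 : i < W.length := by omega
    have h2 : i + 1 < W.length := by omega
    refine ⟨W.take i, w i, W.drop (i + 2), ?_⟩
    conv_lhs => rw [← List.take_append_drop i W]
    rw [List.drop_eq_getElem_cons h1, List.drop_eq_getElem_cons h2, ← hw i h1, ← hw (i + 1) h2, hwi]
  · exfalso
    obtain ⟨φ, hφ1, hφ2⟩ := hφ (w i) (hmem i (by omega))
    let f : ℕ → D := fun k => if k = 0 then fa l r (w 0) else fb l r (w (k - 1))
    have hfs : ∀ k, f (k + 1) = fb l r (w k) := fun k => rfl
    have hf : ∀ k < n, f k = fa l r (w k) := by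
      intro k hk
      rcases Nat.eq_zero_or_pos k with h0 | h0
      · subst h0
        rfl
      · obtain ⟨m, rfl⟩ := Nat.exists_eq_succ_of_ne_zero h0.ne'
        exact (hfs m).trans (hch m hk)
    have hstep : ∀ k < n, k ≠ i → k ≠ i + d → φ (f (k + 1)) = φ (f k) := by
      intro k hk h1 h2
      rw [hfs, hf k hk]
      refine hφ2 _ (hC _ (hmem k hk)) fun h3 => ?_
      rcases hedge _ _ h3 with h4 | h4
      · exact h1 (hinj k hk i (by omega) h4)
      · rw [← hwi] at h4
        exact h2 (hinj k hk _ hid h4)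
    have hA : ∀ m, m ≤ i → φ (f m) = φ (f i) := by
      intro m hm
      obtain ⟨c, rfl⟩ := Nat.exists_eq_add_of_le hm
      clear hm
      have : ∀ b, b ≤ c → φ (f (m + b)) = φ (f m) := by
        intro b
        induction b with
        | zero => intro _; rfl
        | succ b ih =>
          intro hb
          rw [← add_assoc, hstep (m + b) (by omega) (by omega) (by omega), ih (by omega)]
      exact (this c le_rfl).symm
    have hB : ∀ b, i + 1 + b ≤ i + d → φ (f (i + 1 + b)) = φ (f (i + 1)) := by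
      intro b
      induction b with
      | zero => intro _; rfl
      | succ b ih =>
        intro hb
        rw [← add_assoc, hstep (i + 1 + b) (by omega) (by omega) (by omega), ih (by omega)]
    have hC' : ∀ b, i + d + 1 + b ≤ n → φ (f (i + d + 1 + b)) = φ (f (i + d + 1)) := by
      intro b
      induction b with
      | zero => intro _; rfl
      | succ b ih =>
        intro hb
        rw [← add_assoc, hstep (i + d + 1 + b) (by omega) (by omega) (by omega), ih (by omega)]
    have hj1 : f (i + d + 1) = f i := by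
      rw [hfs, hwi, (hff _).2, hf i (by omega)]
    obtain ⟨m, hm, hm'⟩ := hex (i + 1) (by omega)
    have m1 : m ≠ i := by
      rintro rfl
      have h1 := congrArg rv hm'
      rw [hrv, ← hwi] at h1
      have h2 := hinj _ hid _ (by omega) h1
      omega
    have m2 : m ≠ i + 1 := by
      rintro rfl
      exact hrvne _ hm'.symm
    have m3 : m ≠ i + d := by
      rintro rfl
      rw [hwi] at hm'
      have h1 := congrArg rv hm'
      rw [hrv, hrv] at h1
      have h2 := hinj _ (by omega) _ (by omega) h1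
      omega
    have m4 : ¬ (i + 1 < m ∧ m < i + d) := by
      rintro ⟨h1, h2⟩
      refine hmin (m - (i + 1)) (by omega) (by omega) (i + 1) (by omega) ?_
      rw [show i + 1 + (m - (i + 1)) = m by omega]
      exact hm'
    have hm2 : φ (f m) = φ (f i) := by
      rcases Nat.lt_or_ge m i with h1 | h1
      · exact hA m h1.le
      · have h2 : i + d < m := by omega
        obtain ⟨b, rfl⟩ := Nat.exists_eq_add_of_le h2
        have h3 := hC' b (by omega)
        rw [hj1] at h3
        exact h3
    have hm3 : f m = f (i + 1 + 1) := by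
      rw [hf m hm, hm', (hff _).1, hfs]
    have hm4 := hB 1 (by omega)
    rw [hm3, hm4, hfs, hf i (by omega)] at hm2
    exact hφ1 hm2

/-- MODULE NCC.  Proof.  `nc_list`, `pot_in`; `Nodup` from `gap` (`p` is strictly increasing); `rv η ∈ W` by `mem`. -/
theorem nc {V E D : Type} [Fintype E] {s t : E → V} {l r : E → D} (h : Du s t l r) {A : Set V} {C : Set E}
    {W : List (E × Bool)} {p : E × Bool → ℤ} (hS : St s t l r A C W p) (hA : ∀ η ∈ W, he s t η ∈ A)
    (hW : W ≠ []) : ∃ W1 η W2, W = W1 ++ η :: rv η :: W2 := by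
  refine nc_list l r C W ?_ (fun η hη => ((hS.mem η).1 hη).1) hS.face ?_
    (fun η hη => pot_in h hS η hη (hA η hη)) hW
  · refine hS.gap.imp ?_
    rintro η ζ h1 rfl
    have h2 : (0 : ℤ) < 2 ^ (Cᶜ : Set E).ncard := by positivity
    omega
  · intro η hη
    have h1 := (hS.mem η).1 hη
    refine (hS.mem _).2 ⟨h1.1, ?_⟩
    have h2 := hA η hη
    unfold he at h2
    unfold hs rv
    cases hb : η.2
    · rw [hb, if_neg (by decide)] at h2
      simpa using h2
    · rw [hb, if_pos rfl] at h2
      simpa using h2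

end Pool.Agent.Grd
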