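import Pool.Agent.Grd.Trl
import Pool.Agent.Grd.Nc
import Pool.Agent.Grd.Cmb
import Pool.Agent.Grd.Geo

/-!
# Connected planar cubic graphs without bridges can be drawn in the grid
-/

set_option autoImplicit false

open scoped BigOperators

namespace Pool.Agent.Grd

open Pool.Agent.KG Pool.Agent.P3 Pool.Agent.PL3

/-- MODULE DRS.  Proof.  Induction on `n`.  If `W = []`: `last_st`, everything is drawn (any `pos`, `U`).  If `he s t η ∉ A` for some
`η ∈ W = W1 ++ η :: W2`: `rot3`, `peel_st`, induction, `peel_sl` for the `pos` obtained, `dw_congr`, `lift`.  Otherwise `nc`,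
`cap_st`, induction, `cap_sl`, `lift`. -/
theorem draw_state {V E D : Type} [Fintype V] [Fintype E] {s t : E → V} {l r : E → D} (hl : LL s t)
    (hT : ∃ T, IsTree s t T) (h : Du s t l r) (hb : ∀ e, l e ≠ r e) (h3 : ∀ v, deg s t v = 3) (n : ℕ) :
    ∀ (A : Set V) (C : Set E) (W : List (E × Bool)) (p : E × Bool → ℤ) (y : ℤ), St s t l r A C W p →
      (Cᶜ : Set E).ncard = n → ∃ pos U, Dw s t A C p y pos U := by
  classical
  induction n with
  | zero =>
    intro A C W p y hS hn
    have hC : ∀ e, e ∈ C := by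
      rw [Set.ncard_eq_zero (Set.toFinite _), Set.compl_empty_iff] at hn
      intro e
      rw [hn]
      exact Set.mem_univ e
    have hW : W = [] := by
      rw [List.eq_nil_iff_forall_not_mem]
      intro η hη
      exact ((hS.mem η).1 hη).1 (hC _)
    subst hW
    obtain ⟨hA, -⟩ := last_st hS hT
    refine ⟨fun _ => (0, 0), fun _ => [], ?_, ?_, ?_, ?_, ?_, ?_, ?_, ?_⟩
    · exact fun v hv => absurd (hA v) hv
    · exact fun u _ hu => absurd (hA u) hu
    · exact fun e he => absurd (hC e) he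
    · exact fun e he => absurd (hC e) he
    · exact fun e he => absurd (hC e) he
    · exact fun e _ he => absurd (hC e) he
    · exact fun e _ he => absurd (hC e) he
    · exact fun e he => absurd (hC e) he
  | succ n ih =>
    intro A C W p y hS hn
    by_cases hW : W = []
    · subst hW
      obtain ⟨-, hC⟩ := last_st hS hT
      exfalso
      have : (Cᶜ : Set E) = ∅ := by
        rw [Set.compl_empty_iff, Set.eq_univ_iff_forall]
        exact hC
      rw [this, Set.ncard_empty] at hn
      exact absurd hn (Nat.succ_ne_zero n).symm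
    by_cases hex : ∃ η ∈ W, he s t η ∉ A
    · obtain ⟨η, hη, hv⟩ := hex
      obtain ⟨W1, W2, rfl⟩ := List.append_of_mem hη
      have heC : η.1 ∉ C := ((hS.mem η).1 hη).1
      obtain ⟨η1, η2, h1, h2, e1, e2, e12, hall, f1, f2, f3⟩ := rot3 s t hl l r h hb η (h3 _)
      have hS' := peel_st hS hl hv η1 η2 h1 h2 e1 e2 e12 hall f1 f2 f3
      have hn' : ((insert η.1 C)ᶜ : Set E).ncard = n := by
        have := ncard_step C η.1 heC
        omega
      obtain ⟨pos, U, hD⟩ := ih _ _ _ _ (y + 2) hS' hn'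
      obtain ⟨pre, Y, hSl⟩ := peel_sl hS hl hv η1 η2 h1 h2 e1 e2 e12 hall y pos
      refine ⟨_, _, lift hSl (dw_congr (fun v hv' => ?_) hD)⟩
      have : v ≠ he s t η := fun hc => hv' (hc ▸ Set.mem_insert _ _)
      rw [Function.update_of_ne this]
    · push Not at hex
      obtain ⟨W1, η, W2, rfl⟩ := nc h hS hex hW
      have heC : η.1 ∉ C := ((hS.mem η).1 (by simp)).1
      have hS' := cap_st hS
      have hn' : ((insert η.1 C)ᶜ : Set E).ncard = n := by
        have := ncard_step C η.1 heC
        omega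
      obtain ⟨pos, U, hD⟩ := ih _ _ _ _ (y + 1) hS' hn'
      obtain ⟨pre, Y, hSl⟩ := cap_sl hS y pos
      exact ⟨_, _, lift hSl hD⟩

/-- MODULE DRF.  Proof.  `start3`, `start_st`, `draw_state`, `start_sl`, `dw_congr`, `lift`; `Dw` for `A = ∅`, `C = ∅` gives
`Fd` (`pt s t ∅ p h pos η = pos (hs s t η)`). -/
theorem draw_full {V E D : Type} [Fintype V] [Fintype E] (s t : E → V) (l r : E → D) (hl : LL s t)
    (hT : ∃ T, IsTree s t T) (h : Du s t l r) (hb : ∀ e, l e ≠ r e) (h3 : ∀ v, deg s t v = 3) :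
    ∃ pos U, Fd s t pos U := by
  classical
  obtain ⟨T, hT'⟩ := hT
  have hne : Nonempty V := by
    rw [← Fintype.card_pos_iff]
    have := hT'.1
    omega
  obtain ⟨v⟩ := hne
  obtain ⟨η0, η1, η2, h0, h1, h2, e01, e02, e12, hall, f1, f2⟩ := start3 s t hl l r h hb v (h3 v)
  have hS := start_st hl v η0 η1 η2 h0 h1 h2 e01 e02 e12 hall f1 f2
  obtain ⟨pos, U, hD⟩ := draw_state hl ⟨T, hT'⟩ h hb h3 _ _ _ _ _ 0 hS rfl
  obtain ⟨pre, Y, hSl⟩ := start_sl hl v η0 η1 η2 h0 h1 h2 e01 e02 e12 hall pos fun _ => 0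
  have hD' := lift hSl (dw_congr (pos' := Function.update pos v (0, 0)) (fun w hw => by
    rw [Function.update_of_ne (fun hc => hw (Set.mem_singleton_iff.2 hc))]) hD)
  have hpt : ∀ η, pt s t ∅ (fun _ => 0) (-1) (Function.update pos v (0, 0)) η =
      Function.update pos v (0, 0) (hs s t η) := fun η => if_neg (Set.notMem_empty _)
  refine ⟨_, _, fun u w huw => hD'.vinj u w (Set.notMem_empty _) (Set.notMem_empty _) huw,
    fun e => hD'.une e (Set.notMem_empty _), fun e => hD'.und e (Set.notMem_empty _),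
    fun e e' hne => hD'.udj e e' (Set.notMem_empty _) (Set.notMem_empty _) hne,
    fun e w => hD'.uv e w (Set.notMem_empty _) (Set.notMem_empty _), fun e => ?_⟩
  have := hD'.uw e (Set.notMem_empty _)
  rw [hpt, hpt] at this
  exact this

end Pool.Agent.Grd
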