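import Pool.Agent.Grd.Val

/-!
# Two graphs joined by an edge
-/

set_option autoImplicit false

open scoped BigOperators

namespace Pool.Agent.Grd

open Pool.Agent.KG Pool.Agent.P3 Pool.Agent.PL3

open Classical in
/-- MODULE JNA (1). -/
theorem net_jn {V1 V2 E1 E2 K : Type} [Fintype E1] [Fintype E2] [Field K] (s1 t1 : E1 → V1)
    (s2 t2 : E2 → V2) (a : V1) (b : V2) (x : Option (E1 ⊕ E2) → K) :
    (∀ v, net (jnS a s1 s2) (jnT b t1 t2) x (Sum.inl v) =
      net s1 t1 (fun e => x (some (Sum.inl e))) v + if a = v then x none else 0) ∧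
    ∀ v, net (jnS a s1 s2) (jnT b t1 t2) x (Sum.inr v) =
      net s2 t2 (fun e => x (some (Sum.inr e))) v - if b = v then x none else 0 := by
  constructor
  · intro v
    unfold net
    rw [Fintype.sum_option, Fintype.sum_option, Fintype.sum_sum_type, Fintype.sum_sum_type]
    simp only [jnS, jnT, ae, Option.elim, Sum.map_inl, Sum.map_inr, Sum.inl.injEq, reduceCtorEq,
      if_false, Finset.sum_const_zero, add_zero, zero_add]
    ring
  · intro v
    unfold net
    rw [Fintype.sum_option, Fintype.sum_option, Fintype.sum_sum_type, Fintype.sum_sum_type]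
    simp only [jnS, jnT, ae, Option.elim, Sum.map_inl, Sum.map_inr, Sum.inr.injEq, reduceCtorEq,
      if_false, Finset.sum_const_zero, add_zero, zero_add]
    ring

/-- MODULE JNA (2).  Proof.  `P3.crit` for the three graphs, `net_jn`.  The current in the new edge is `0`: the sum of the
net currents over `V1` is `x none` (`P3.sum_net`).  So a solution for the joined graph consists of solutions for the
two graphs whose potentials agree at `a` and `b`; the potentials can be shifted. -/
theorem sym_jn {V1 V2 E1 E2 K : Type} [Fintype V1] [Fintype V2] [Nonempty V1] [Nonempty V2] [Fintype E1]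
    [Fintype E2] [Field K] (s1 t1 : E1 → V1) (s2 t2 : E2 → V2) (a : V1) (b : V2)
    (x : Option (E1 ⊕ E2) → K) : sym (jnS a s1 s2) (jnT b t1 t2) x ≠ 0 ↔
      sym s1 t1 (fun e => x (some (Sum.inl e))) ≠ 0 ∧ sym s2 t2 (fun e => x (some (Sum.inr e))) ≠ 0 := by
  classical
  rw [crit, crit, crit]
  constructor
  · intro h
    constructor
    · intro i φ h3 h4
      obtain ⟨h5, c, h6⟩ := h
        (fun o => o.elim 0 (fun e => Sum.elim i (fun _ => 0) e))
        (Sum.elim φ fun _ => φ a) (by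
          rintro (_ | e | e)
          · show x none * 0 = φ a - φ a
            rw [mul_zero, sub_self]
          · exact h3 e
          · show x (some (Sum.inr e)) * 0 = φ a - φ a
            rw [mul_zero, sub_self]) (by
          rintro (v | v)
          · rw [(net_jn s1 t1 s2 t2 a b _).1]
            show net s1 t1 i v + (if a = v then (0 : K) else 0) = 0
            rw [h4 v, ite_self, add_zero]
          · rw [(net_jn s1 t1 s2 t2 a b _).2]
            show net s2 t2 (fun _ => (0 : K)) v - (if b = v then (0 : K) else 0) = 0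
            unfold net
            simp)
      refine ⟨funext fun e => congrFun h5 (some (Sum.inl e)), c, fun v => h6 (Sum.inl v)⟩
    · intro i φ h3 h4
      obtain ⟨h5, c, h6⟩ := h
        (fun o => o.elim 0 (fun e => Sum.elim (fun _ => 0) i e))
        (Sum.elim (fun _ => φ b) φ) (by
          rintro (_ | e | e)
          · show x none * 0 = φ b - φ b
            rw [mul_zero, sub_self]
          · show x (some (Sum.inl e)) * 0 = φ b - φ b
            rw [mul_zero, sub_self]
          · exact h3 e) (by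
          rintro (v | v)
          · rw [(net_jn s1 t1 s2 t2 a b _).1]
            show net s1 t1 (fun _ => (0 : K)) v + (if a = v then (0 : K) else 0) = 0
            unfold net
            simp
          · rw [(net_jn s1 t1 s2 t2 a b _).2]
            show net s2 t2 i v - (if b = v then (0 : K) else 0) = 0
            rw [h4 v, ite_self, sub_zero])
      refine ⟨funext fun e => congrFun h5 (some (Sum.inr e)), c, fun v => h6 (Sum.inr v)⟩
  · rintro ⟨k1, k2⟩ i φ h3 h4
    have n1 : ∀ v, net s1 t1 (fun e => i (some (Sum.inl e))) v + (if a = v then i none else 0) =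
        0 := fun v => by
      rw [← (net_jn s1 t1 s2 t2 a b i).1]
      exact h4 _
    have n2 : ∀ v, net s2 t2 (fun e => i (some (Sum.inr e))) v - (if b = v then i none else 0) =
        0 := fun v => by
      rw [← (net_jn s1 t1 s2 t2 a b i).2]
      exact h4 _
    have h0 : i none = 0 := by
      have h5 : ∑ v, (net s1 t1 (fun e => i (some (Sum.inl e))) v +
          (if a = v then i none else 0)) = 0 := Finset.sum_eq_zero fun v _ => n1 v
      rw [Finset.sum_add_distrib, sum_net, zero_add, Finset.sum_ite_eq,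
        if_pos (Finset.mem_univ a)] at h5
      exact h5
    rw [h0] at n1 n2
    obtain ⟨i1, c1, p1⟩ := k1 (fun e => i (some (Sum.inl e))) (fun v => φ (Sum.inl v))
      (fun e => h3 (some (Sum.inl e))) (fun v => by
        have := n1 v
        rwa [ite_self, add_zero] at this)
    obtain ⟨i2, c2, p2⟩ := k2 (fun e => i (some (Sum.inr e))) (fun v => φ (Sum.inr v))
      (fun e => h3 (some (Sum.inr e))) (fun v => by
        have := n2 v
        rwa [ite_self, sub_zero] at this)
    have h6 : x none * i none = φ (Sum.inl a) - φ (Sum.inr b) := h3 none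
    rw [h0, mul_zero, p1, p2] at h6
    have h7 : c1 = c2 := (sub_eq_zero.1 h6.symm)
    refine ⟨?_, c1, ?_⟩
    · funext o
      rcases o with _ | e | e
      · exact h0
      · exact congrFun i1 e
      · exact congrFun i2 e
    · rintro (v | v)
      · exact p1 v
      · rw [h7]
        exact p2 v

/-- MODULE JNB (1).  Proof.  `vl_eq`, `sym_jn`, `(Option (E1 ⊕ E2) → K) ≃ K × (E1 → K) × (E2 → K)`. -/
theorem vl_jn {V1 V2 E1 E2 : Type} [Fintype V1] [Fintype V2] [Nonempty V1] [Nonempty V2] [Fintype E1]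
    [Fintype E2] (s1 t1 : E1 → V1) (s2 t2 : E2 → V2) (a : V1) (b : V2) (F : FinField) :
    vl (jnS a s1 s2) (jnT b t1 t2) F = F.q * (vl s1 t1 F * vl s2 t2 F) := by
  rw [vl_eq, vl_eq, vl_eq]
  have hq : F.q = (Nat.card F.K : ℤ) := rfl
  have h1 : Nat.card {x : Option (E1 ⊕ E2) → F.K // sym (jnS a s1 s2) (jnT b t1 t2) x ≠ 0} =
      Nat.card (F.K × ({x : E1 → F.K // sym s1 t1 x ≠ 0} × {x : E2 → F.K // sym s2 t2 x ≠ 0})) := by
    refine Nat.card_congr
      ⟨fun x => (x.1 none, ⟨fun e => x.1 (some (Sum.inl e)),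
          ((sym_jn s1 t1 s2 t2 a b x.1).1 x.2).1⟩,
          ⟨fun e => x.1 (some (Sum.inr e)), ((sym_jn s1 t1 s2 t2 a b x.1).1 x.2).2⟩),
        fun y => ⟨fun o => o.elim y.1 (Sum.elim y.2.1.1 y.2.2.1),
          (sym_jn s1 t1 s2 t2 a b _).2 ⟨y.2.1.2, y.2.2.2⟩⟩, ?_, fun y => rfl⟩
    intro x
    apply Subtype.ext
    funext o
    rcases o with _ | e | e <;> rfl
  rw [h1, Nat.card_prod, Nat.card_prod, hq]
  push_cast
  ring

/-- MODULE JNB (2).  `conn_of_tree`, `tree_of_conn`. -/
theorem tree_jn {V1 V2 E1 E2 : Type} [Fintype V1] [Fintype V2] [Fintype E1] [Fintype E2] (s1 t1 : E1 → V1)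
    (s2 t2 : E2 → V2) (a : V1) (b : V2) (h1 : ∃ T, IsTree s1 t1 T) (h2 : ∃ T, IsTree s2 t2 T) :
    ∃ T, IsTree (jnS a s1 s2) (jnT b t1 t2) T := by
  obtain ⟨⟨v0⟩, c1⟩ := conn_of_tree h1
  obtain ⟨-, c2⟩ := conn_of_tree h2
  have : Nonempty (V1 ⊕ V2) := ⟨Sum.inl v0⟩
  apply tree_of_conn
  have l1 : ∀ u v : V1, Relation.ReflTransGen (fun x y => ∃ e, (jnS a s1 s2 e = x ∧
      jnT b t1 t2 e = y) ∨ (jnS a s1 s2 e = y ∧ jnT b t1 t2 e = x)) (Sum.inl u) (Sum.inl v) := by
    intro u v
    refine Relation.ReflTransGen.lift (Sum.inl : V1 → V1 ⊕ V2) ?_ _ _ (c1 u v)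
    rintro x y ⟨e, ⟨h, h'⟩ | ⟨h, h'⟩⟩
    · exact ⟨some (Sum.inl e), Or.inl ⟨congrArg Sum.inl h, congrArg Sum.inl h'⟩⟩
    · exact ⟨some (Sum.inl e), Or.inr ⟨congrArg Sum.inl h, congrArg Sum.inl h'⟩⟩
  have l2 : ∀ u v : V2, Relation.ReflTransGen (fun x y => ∃ e, (jnS a s1 s2 e = x ∧
      jnT b t1 t2 e = y) ∨ (jnS a s1 s2 e = y ∧ jnT b t1 t2 e = x)) (Sum.inr u) (Sum.inr v) := by
    intro u v
    refine Relation.ReflTransGen.lift (Sum.inr : V2 → V1 ⊕ V2) ?_ _ _ (c2 u v)
    rintro x y ⟨e, ⟨h, h'⟩ | ⟨h, h'⟩⟩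
    · exact ⟨some (Sum.inr e), Or.inl ⟨congrArg Sum.inr h, congrArg Sum.inr h'⟩⟩
    · exact ⟨some (Sum.inr e), Or.inr ⟨congrArg Sum.inr h, congrArg Sum.inr h'⟩⟩
  have m1 : Relation.ReflTransGen (fun x y => ∃ e, (jnS a s1 s2 e = x ∧
      jnT b t1 t2 e = y) ∨ (jnS a s1 s2 e = y ∧ jnT b t1 t2 e = x)) (Sum.inl a) (Sum.inr b) :=
    Relation.ReflTransGen.single ⟨none, Or.inl ⟨rfl, rfl⟩⟩
  have m2 : Relation.ReflTransGen (fun x y => ∃ e, (jnS a s1 s2 e = x ∧
      jnT b t1 t2 e = y) ∨ (jnS a s1 s2 e = y ∧ jnT b t1 t2 e = x)) (Sum.inr b) (Sum.inl a) :=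
    Relation.ReflTransGen.single ⟨none, Or.inr ⟨rfl, rfl⟩⟩
  rintro (u | u) (v | v)
  · exact l1 u v
  · exact ((l1 u a).trans m1).trans (l2 b v)
  · exact ((l2 u b).trans m2).trans (l1 a v)
  · exact l2 u v

/-- MODULE JNC (1).  Proof.  Let `a` be a vertex with the largest first coordinate in the first drawing, `b` one with the
smallest first coordinate in the second; translate the second drawing such that `pos b = pos a + (1, 0)`. -/
theorem dr_jn {V1 V2 E1 E2 : Type} [Fintype V1] [Fintype V2] [Nonempty V1] [Nonempty V2] (s1 t1 : E1 → V1)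
    (s2 t2 : E2 → V2) (pos1 : V1 → ℤ × ℤ) (pos2 : V2 → ℤ × ℤ) (h1 : Dr s1 t1 pos1) (h2 : Dr s2 t2 pos2) :
    ∃ (a : V1) (b : V2) (pos : V1 ⊕ V2 → ℤ × ℤ), Dr (jnS a s1 s2) (jnT b t1 t2) pos := by
  obtain ⟨a, ha⟩ := Finite.exists_max fun v => (pos1 v).1
  obtain ⟨b, hb⟩ := Finite.exists_min fun v => (pos2 v).1
  refine ⟨a, b, Sum.elim pos1 fun v => ((pos2 v).1 - (pos2 b).1 + (pos1 a).1 + 1,
    (pos2 v).2 - (pos2 b).2 + (pos1 a).2), ?_, ?_, ?_⟩
  · rintro (u | u) (v | v) h
    · exact congrArg Sum.inl (h1.inj h)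
    · exfalso
      have h3 : (pos1 u).1 = (pos2 v).1 - (pos2 b).1 + (pos1 a).1 + 1 := congrArg Prod.fst h
      have h4 := ha u
      have h5 := hb v
      omega
    · exfalso
      have h3 : (pos2 u).1 - (pos2 b).1 + (pos1 a).1 + 1 = (pos1 v).1 := congrArg Prod.fst h
      have h4 := ha v
      have h5 := hb u
      omega
    · have h3 : (pos2 u).1 - (pos2 b).1 + (pos1 a).1 + 1 =
          (pos2 v).1 - (pos2 b).1 + (pos1 a).1 + 1 := congrArg Prod.fst h
      have h4 : (pos2 u).2 - (pos2 b).2 + (pos1 a).2 = (pos2 v).2 - (pos2 b).2 + (pos1 a).2 :=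
        congrArg Prod.snd h
      exact congrArg Sum.inr (h2.inj (Prod.ext (by omega) (by omega)))
  · rintro (_ | e | e)
    · left
      refine ⟨?_, Or.inl ?_⟩
      · show (pos1 a).2 = (pos2 b).2 - (pos2 b).2 + (pos1 a).2
        omega
      · show (pos2 b).1 - (pos2 b).1 + (pos1 a).1 + 1 = (pos1 a).1 + 1
        omega
    · exact h1.unit e
    · have h3 := h2.unit e
      unfold Nb at h3 ⊢
      show ((pos2 (s2 e)).2 - (pos2 b).2 + (pos1 a).2 = (pos2 (t2 e)).2 - (pos2 b).2 + (pos1 a).2 ∧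
          ((pos2 (t2 e)).1 - (pos2 b).1 + (pos1 a).1 + 1 =
            (pos2 (s2 e)).1 - (pos2 b).1 + (pos1 a).1 + 1 + 1 ∨
          (pos2 (s2 e)).1 - (pos2 b).1 + (pos1 a).1 + 1 =
            (pos2 (t2 e)).1 - (pos2 b).1 + (pos1 a).1 + 1 + 1)) ∨
        ((pos2 (s2 e)).1 - (pos2 b).1 + (pos1 a).1 + 1 =
            (pos2 (t2 e)).1 - (pos2 b).1 + (pos1 a).1 + 1 ∧
          ((pos2 (t2 e)).2 - (pos2 b).2 + (pos1 a).2 =
            (pos2 (s2 e)).2 - (pos2 b).2 + (pos1 a).2 + 1 ∨
          (pos2 (s2 e)).2 - (pos2 b).2 + (pos1 a).2 =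
            (pos2 (t2 e)).2 - (pos2 b).2 + (pos1 a).2 + 1))
      omega
  · rintro (_ | e | e) (_ | e' | e') h
    · rfl
    · exfalso
      rcases h with ⟨-, h⟩ | ⟨-, h⟩ <;> cases h
    · exfalso
      rcases h with ⟨h, -⟩ | ⟨h, -⟩ <;> cases h
    · exfalso
      rcases h with ⟨-, h⟩ | ⟨h, -⟩ <;> cases h
    · have h3 : (s1 e = s1 e' ∧ t1 e = t1 e') ∨ (s1 e = t1 e' ∧ t1 e = s1 e') := by
        rcases h with ⟨h, h'⟩ | ⟨h, h'⟩
        · exact Or.inl ⟨Sum.inl_injective h, Sum.inl_injective h'⟩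
        · exact Or.inr ⟨Sum.inl_injective h, Sum.inl_injective h'⟩
      rw [h1.simple e e' h3]
    · exfalso
      rcases h with ⟨h, -⟩ | ⟨h, -⟩ <;> cases h
    · exfalso
      rcases h with ⟨h, -⟩ | ⟨-, h⟩ <;> cases h
    · exfalso
      rcases h with ⟨h, -⟩ | ⟨h, -⟩ <;> cases h
    · have h3 : (s2 e = s2 e' ∧ t2 e = t2 e') ∨ (s2 e = t2 e' ∧ t2 e = s2 e') := by
        rcases h with ⟨h, h'⟩ | ⟨h, h'⟩
        · exact Or.inl ⟨Sum.inr_injective h, Sum.inr_injective h'⟩
        · exact Or.inr ⟨Sum.inr_injective h, Sum.inr_injective h'⟩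
      rw [h2.simple e e' h3]

/-- MODULE JNC (2).  Proof.  `dr_jn`, `vl_jn`, `tree_jn`, `QE.mul`. -/
theorem GRc.mul {f g : FinField → ℤ} (hf : GRc f) (hg : GRc g) : GRc fun F => f F * g F := by
  obtain ⟨V1, E1, i1, i2, s1, t1, pos1, d1, T1, q1⟩ := hf
  obtain ⟨V2, E2, i3, i4, s2, t2, pos2, d2, T2, q2⟩ := hg
  have n1 := (conn_of_tree T1).1
  have n2 := (conn_of_tree T2).1
  obtain ⟨a, b, pos, d⟩ := dr_jn s1 t1 s2 t2 pos1 pos2 d1 d2
  refine ⟨V1 ⊕ V2, Option (E1 ⊕ E2), inferInstance, inferInstance, jnS a s1 s2, jnT b t1 t2, pos,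
    d, tree_jn s1 t1 s2 t2 a b T1 T2, ?_⟩
  have h3 : QE (vl (jnS a s1 s2) (jnT b t1 t2)) (fun F => vl s1 t1 F * vl s2 t2 F) :=
    QE.of_mul 1 fun F => by rw [vl_jn, pow_one]
  exact QE.trans (QE.mul q1 q2) h3.symm

private theorem PTS_point {V E : Type} [Fintype V] [Fintype E] (s t : E → V)
    (hT : ∃ T, IsTree s t T) (v : V) (hv : deg s t v = 0) (F : FinField) : vl s t F = 1 := by
  classical
  obtain ⟨hne, hc⟩ := conn_of_tree hT
  unfold deg at hv
  have h1 : {e | s e = v} = ∅ := by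
    rw [← Set.ncard_eq_zero (Set.toFinite _)]
    omega
  have h2 : {e | t e = v} = ∅ := by
    rw [← Set.ncard_eq_zero (Set.toFinite _)]
    omega
  have h3 : ∀ u, u = v := by
    intro u
    rcases Relation.ReflTransGen.cases_head (hc v u) with h | ⟨w, ⟨e, h | h⟩, -⟩
    · exact h.symm
    · exact absurd (show e ∈ {e | s e = v} from h.1) (by rw [h1]; exact Set.notMem_empty e)
    · exact absurd (show e ∈ {e | t e = v} from h.2) (by rw [h2]; exact Set.notMem_empty e)
  have h4 : IsEmpty E := ⟨fun e => by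
    have : e ∈ {e | s e = v} := h3 (s e)
    rw [h1] at this
    exact this⟩
  rw [vl_eq]
  have h5 : ∀ x : E → F.K, sym s t x ≠ 0 := by
    intro x
    rw [crit]
    intro i φ _ _
    exact ⟨funext fun e => h4.elim e, φ v, fun u => by rw [h3 u]⟩
  have h6 : Nat.card {x : E → F.K // sym s t x ≠ 0} = 1 := by
    have : Unique {x : E → F.K // sym s t x ≠ 0} :=
      ⟨⟨⟨fun e => h4.elim e, h5 _⟩⟩, fun x => Subtype.ext (funext fun e => h4.elim e)⟩
    exact Nat.card_unique
  rw [h6, Nat.cast_one]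

/-- MODULE PTS (1).  One point: `V = Unit`, `E = Empty`. -/
theorem grc_one : GRc fun _ => 1 := by
  have hT : ∃ T : Finset Empty, IsTree (V := Unit) (fun e => e.elim) (fun e => e.elim) T :=
    ⟨∅, by simp, fun u v => by
      cases u
      cases v
      exact Relation.ReflTransGen.refl⟩
  refine ⟨Unit, Empty, inferInstance, inferInstance, fun e => e.elim, fun e => e.elim,
    fun _ => (0, 0), ⟨fun u v _ => rfl, fun e => e.elim, fun e => e.elim⟩, hT, 0, 0, fun F => ?_⟩
  rw [PTS_point _ _ hT () (by simp [deg])]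

/-- MODULE PTS (2).  Proof.  The graph has one vertex and no edge: an edge would be at `v`, and a path from `v` to another
vertex would begin with an edge at `v`.  Then `sym = 1`. -/
theorem vl_point {V E : Type} [Fintype V] [Fintype E] (s t : E → V) (hT : ∃ T, IsTree s t T) (v : V)
    (hv : deg s t v = 0) (F : FinField) : vl s t F = 1 := by
  exact PTS_point s t hT v hv F

/-- MODULE SQR.  The square: `Fin 4` with `s i = i`, `t i = i + 1` at the points `(0, 0)`, `(1, 0)`, `(1, 1)`, `(0, 1)`.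
By `P3.crit` its Symanzik polynomial is nonzero iff `x 0 + x 1 + x 2 + x 3 ≠ 0`: the four currents are equal.  So
`vl = q ^ 3 * (q - 1)`.  (Or by `P3.ns_two`, `KGU.ns_loop` from the graph with one vertex and one loop.) -/
theorem grc_square : GRc fun F => F.q - 1 := by
  classical
  let s : Fin 4 → Fin 4 := fun i => i
  let t : Fin 4 → Fin 4 := fun i => i + 1
  let pos : Fin 4 → ℤ × ℤ := ![(0, 0), (1, 0), (1, 1), (0, 1)]
  have hd : Dr s t pos := by
    refine ⟨?_, ?_, ?_⟩
    · show ∀ i j : Fin 4, pos i = pos j → i = j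
      decide
    · show ∀ e : Fin 4, Nb (pos e) (pos (e + 1))
      unfold Nb
      decide
    · show ∀ e e' : Fin 4, (e = e' ∧ e + 1 = e' + 1) ∨ (e = e' + 1 ∧ e + 1 = e') → e = e'
      decide
  have hT : ∃ T, IsTree s t T := by
    apply tree_of_conn
    have hs : ∀ i : Fin 4, Relation.ReflTransGen
        (fun a b => ∃ e, (s e = a ∧ t e = b) ∨ (s e = b ∧ t e = a)) i (i + 1) := fun i =>
      Relation.ReflTransGen.single ⟨i, Or.inl ⟨rfl, rfl⟩⟩
    have r01 := hs 0
    have r12 := hs 1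
    have r23 := hs 2
    have r30 := hs 3
    have h1 : ∀ v : Fin 4, Relation.ReflTransGen
        (fun a b => ∃ e, (s e = a ∧ t e = b) ∨ (s e = b ∧ t e = a)) 0 v := by
      intro v
      fin_cases v
      · exact Relation.ReflTransGen.refl
      · exact r01
      · exact r01.trans r12
      · exact (r01.trans r12).trans r23
    have h2 : ∀ v : Fin 4, Relation.ReflTransGen
        (fun a b => ∃ e, (s e = a ∧ t e = b) ∨ (s e = b ∧ t e = a)) v 0 := by
      intro v
      fin_cases v
      · exact Relation.ReflTransGen.refl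
      · exact (r12.trans r23).trans r30
      · exact r23.trans r30
      · exact r30
    intro u v
    exact (h2 u).trans (h1 v)
  refine ⟨Fin 4, Fin 4, inferInstance, inferInstance, s, t, pos, hd, hT, ?_⟩
  apply QE.symm
  refine QE.of_mul 3 fun F => ?_
  have hnet : ∀ (i : Fin 4 → F.K) (v : Fin 4), net s t i v = i v - i (v - 1) := by
    intro i v
    unfold net
    have e1 : ∀ e : Fin 4, (t e = v) = (e = v - 1) := by
      intro e
      show (e + 1 = v) = _
      rw [eq_sub_iff_add_eq]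
    have e0 : ∀ e : Fin 4, (s e = v) = (e = v) := fun e => rfl
    simp only [e0, e1, Finset.sum_ite_eq', Finset.mem_univ, if_true]
  have hsym : ∀ x : Fin 4 → F.K, sym s t x ≠ 0 ↔ x 0 + x 1 + x 2 + x 3 ≠ 0 := by
    intro x
    rw [crit]
    constructor
    · intro h h0
      have h1 := (h (fun _ => 1) ![0, -x 0, -x 0 - x 1, -x 0 - x 1 - x 2] (by
        intro e
        have e3 : x 3 = -x 0 - x 1 - x 2 := by linear_combination h0
        fin_cases e
        · show x 0 * 1 = 0 - (-x 0)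
          ring
        · show x 1 * 1 = -x 0 - (-x 0 - x 1)
          ring
        · show x 2 * 1 = (-x 0 - x 1) - (-x 0 - x 1 - x 2)
          ring
        · show x 3 * 1 = (-x 0 - x 1 - x 2) - 0
          rw [e3]
          ring) (by
        intro v
        rw [hnet, sub_self])).1
      exact one_ne_zero (congrFun h1 0)
    · intro h0 i φ h3 h4
      have k0 : i 0 = i 3 := by
        have := h4 0
        rw [hnet] at this
        exact sub_eq_zero.1 this
      have k1 : i 1 = i 0 := by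
        have := h4 1
        rw [hnet] at this
        exact sub_eq_zero.1 this
      have k2 : i 2 = i 1 := by
        have := h4 2
        rw [hnet] at this
        exact sub_eq_zero.1 this
      have l0 : x 0 * i 0 = φ 0 - φ 1 := h3 0
      have l1 : x 1 * i 1 = φ 1 - φ 2 := h3 1
      have l2 : x 2 * i 2 = φ 2 - φ 3 := h3 2
      have l3 : x 3 * i 3 = φ 3 - φ 0 := h3 3
      rw [k2, k1] at l2
      rw [k1] at l1
      rw [← k0] at l3
      have h5 : (x 0 + x 1 + x 2 + x 3) * i 0 = 0 := by linear_combination l0 + l1 + l2 + l3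
      have h6 : i 0 = 0 := (mul_eq_zero.1 h5).resolve_left h0
      rw [h6, mul_zero] at l0 l1 l2 l3
      refine ⟨?_, φ 0, ?_⟩
      · funext e
        fin_cases e
        · exact h6
        · show i 1 = 0
          rw [k1, h6]
        · show i 2 = 0
          rw [k2, k1, h6]
        · show i 3 = 0
          rw [← k0, h6]
      · intro v
        fin_cases v
        · rfl
        · exact (sub_eq_zero.1 l0.symm).symm
        · show φ 2 = φ 0
          rw [sub_eq_zero.1 l0.symm, sub_eq_zero.1 l1.symm]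
        · exact sub_eq_zero.1 l3.symm
  have hq : F.q = (Nat.card F.K : ℤ) := rfl
  have hcard : Nat.card {x : Fin 4 → F.K // sym s t x = 0} =
      Nat.card (F.K × (F.K × F.K)) := by
    refine Nat.card_congr ⟨fun x => (x.1 0, x.1 1, x.1 2),
      fun y => ⟨![y.1, y.2.1, y.2.2, -(y.1 + y.2.1 + y.2.2)], ?_⟩, ?_, ?_⟩
    · by_contra h
      refine (hsym _).1 h ?_
      show y.1 + y.2.1 + y.2.2 + -(y.1 + y.2.1 + y.2.2) = 0
      ring
    · intro x
      apply Subtype.ext
      have h0 : x.1 0 + x.1 1 + x.1 2 + x.1 3 = 0 := by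
        by_contra h
        exact (hsym x.1).2 h x.2
      funext e
      fin_cases e
      · rfl
      · rfl
      · rfl
      · show -(x.1 0 + x.1 1 + x.1 2) = x.1 3
        linear_combination -h0
    · intro y
      rfl
  have hns : ns s t F = (Nat.card {x : Fin 4 → F.K // sym s t x = 0} : ℤ) := rfl
  show F.q ^ Fintype.card (Fin 4) - ns s t F = F.q ^ 3 * (F.q - 1)
  rw [hns, hcard, Nat.card_prod, Nat.card_prod, Fintype.card_fin]
  push_cast
  rw [← hq]
  ring

end Pool.Agent.Grd
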