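import Pool.Agent.Grd.Val

/-!
# Vertices of degree two
-/

set_option autoImplicit false

open scoped BigOperators

namespace Pool.Agent.Grd

open Pool.Agent.KG Pool.Agent.P3 Pool.Agent.PL3 Pool.Agent.KGU

private theorem TWA_at {V E : Type} [Fintype E] (s t : E → V) (h : LL s t) (v : V) :
    {e | s e = v ∨ t e = v}.ncard = deg s t v := by
  have h1 : {e | s e = v ∨ t e = v} = {e | s e = v} ∪ {e | t e = v} := rfl
  unfold deg
  rw [h1, Set.ncard_union_eq _ (Set.toFinite _) (Set.toFinite _)]
  rw [Set.disjoint_left]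
  intro e he he'
  exact h e ((show s e = v from he).trans (show t e = v from he').symm)

/-- MODULE TWA.  Proof.  See the proof of `PL3.exists_twoP` (or `P3.exists_two'`): `V' = {u // u ≠ v}`; there are exactly two
edges `e0 ≠ e1` at `v`, `E'` is the set of the other edges, `a`, `b` are the other ends of `e0`, `e1`. -/
theorem exists_twoI {V E : Type} [Fintype V] [Fintype E] (s t : E → V) (h : LL s t) (v : V)
    (hv : deg s t v = 2) : ∃ (V' E' : Type) (_ : Fintype V') (_ : Fintype E') (s' t' : E' → V') (a b : V'),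
      Is s t (ae (some a) (ae none (some ∘ s'))) (ae none (ae (some b) (some ∘ t'))) := by
  classical
  have hA := TWA_at s t h v
  rw [hv, Set.ncard_eq_two] at hA
  obtain ⟨e0, e1, he01, he⟩ := hA
  have h0 : s e0 = v ∨ t e0 = v := by
    have : e0 ∈ {e | s e = v ∨ t e = v} := by rw [he]; exact Or.inl rfl
    exact this
  have h1 : s e1 = v ∨ t e1 = v := by
    have : e1 ∈ {e | s e = v ∨ t e = v} := by rw [he]; exact Or.inr rfl
    exact this
  have hne : ∀ e, e ≠ e0 → e ≠ e1 → s e ≠ v ∧ t e ≠ v := by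
    intro e he0 he1
    have hn : e ∉ {e | s e = v ∨ t e = v} := by
      rw [he]
      rintro (hc | hc)
      · exact he0 hc
      · exact he1 hc
    exact ⟨fun hs => hn (Or.inl hs), fun ht => hn (Or.inr ht)⟩
  have hoth : ∀ e, (s e = v ∨ t e = v) → ∃ w, w ≠ v ∧ ((s e = v ∧ t e = w) ∨ (s e = w ∧ t e = v)) := by
    intro e h0
    rcases h0 with h0 | h0
    · exact ⟨t e, fun hc => h e (h0.trans hc.symm), Or.inl ⟨h0, rfl⟩⟩
    · exact ⟨s e, fun hc => h e (hc.trans h0.symm), Or.inr ⟨rfl, h0⟩⟩
  obtain ⟨w0, hw0, hor0⟩ := hoth e0 h0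
  obtain ⟨w1, hw1, hor1⟩ := hoth e1 h1
  let e1' : {e // e ≠ e0} := ⟨e1, he01.symm⟩
  let f : Option {u // u ≠ v} ≃ V := Equiv.optionSubtypeNe v
  let g : Option (Option {e : {e // e ≠ e0} // e ≠ e1'}) ≃ E :=
    (Equiv.optionCongr (Equiv.optionSubtypeNe e1')).trans (Equiv.optionSubtypeNe e0)
  have hE : ∀ e : {e : {e // e ≠ e0} // e ≠ e1'}, s e.1.1 ≠ v ∧ t e.1.1 ≠ v := fun e =>
    hne e.1.1 e.1.2 fun hc => e.2 (Subtype.ext hc)
  let s' : {e : {e // e ≠ e0} // e ≠ e1'} → {u // u ≠ v} := fun e => ⟨s e.1.1, (hE e).1⟩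
  let t' : {e : {e // e ≠ e0} // e ≠ e1'} → {u // u ≠ v} := fun e => ⟨t e.1.1, (hE e).2⟩
  have hf0 : f none = v := Equiv.optionSubtypeNe_none v
  have hf1 : ∀ u, f (some u) = u.1 := fun u => Equiv.optionSubtypeNe_some v u
  have hg0 : g none = e0 := Equiv.optionSubtypeNe_none e0
  have hg1 : g (some none) = e1 := by
    show Equiv.optionSubtypeNe e0 (some (Equiv.optionSubtypeNe e1' none)) = e1
    rw [Equiv.optionSubtypeNe_none, Equiv.optionSubtypeNe_some]
  have hg2 : ∀ e, g (some (some e)) = e.1.1 := by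
    intro e
    show Equiv.optionSubtypeNe e0 (some (Equiv.optionSubtypeNe e1' (some e))) = e.1.1
    rw [Equiv.optionSubtypeNe_some, Equiv.optionSubtypeNe_some]
  have key : ∀ o, (s (g o) = f (ae (some ⟨w0, hw0⟩) (ae none (some ∘ s')) o) ∧
        t (g o) = f (ae none (ae (some ⟨w1, hw1⟩) (some ∘ t')) o)) ∨
      (s (g o) = f (ae none (ae (some ⟨w1, hw1⟩) (some ∘ t')) o) ∧
        t (g o) = f (ae (some ⟨w0, hw0⟩) (ae none (some ∘ s')) o)) := by
    intro o
    rcases o with _ | _ | e
    · show (s (g none) = f (some ⟨w0, hw0⟩) ∧ t (g none) = f none) ∨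
        (s (g none) = f none ∧ t (g none) = f (some ⟨w0, hw0⟩))
      rw [hg0, hf0, hf1]
      exact hor0.symm
    · show (s (g (some none)) = f none ∧ t (g (some none)) = f (some ⟨w1, hw1⟩)) ∨
        (s (g (some none)) = f (some ⟨w1, hw1⟩) ∧ t (g (some none)) = f none)
      rw [hg1, hf0, hf1]
      exact hor1
    · left
      show s (g (some (some e))) = f (some (s' e)) ∧ t (g (some (some e))) = f (some (t' e))
      rw [hg2, hf1, hf1]
      exact ⟨rfl, rfl⟩
  refine ⟨{u // u ≠ v}, {e : {e // e ≠ e0} // e ≠ e1'}, inferInstance, inferInstance, s', t',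
    ⟨w0, hw0⟩, ⟨w1, hw1⟩, f.symm, g.symm, fun e => ?_⟩
  have k := key (g.symm e)
  rw [Equiv.apply_symm_apply] at k
  rcases k with ⟨k1, k2⟩ | ⟨k1, k2⟩
  · left
    rw [k1, k2, Equiv.symm_apply_apply, Equiv.symm_apply_apply]
    exact ⟨rfl, rfl⟩
  · right
    rw [k1, k2, Equiv.symm_apply_apply, Equiv.symm_apply_apply]
    exact ⟨rfl, rfl⟩

/-- MODULE TWB (1).  Proof.  `conn_of_tree`, `tree_of_conn` (`V'` is nonempty: `a`).  Induction on a path from `some u`: if it is at
`some v`, then `u` is connected with `v`, if it is at `none`, then `u` is connected with `a` (equivalently with `b`, by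
the edge `none` of `ae a s'`, `ae b t'`). -/
theorem tree_two {V E : Type} [Fintype V] [Fintype E] (a b : V) (s t : E → V)
    (h : ∃ T, IsTree (ae (some a) (ae none (some ∘ s))) (ae none (ae (some b) (some ∘ t))) T) :
    ∃ T, IsTree (ae a s) (ae b t) T := by
  obtain ⟨-, hc⟩ := conn_of_tree h
  have hne : Nonempty V := ⟨a⟩
  refine tree_of_conn _ _ fun u w => ?_
  have hab : Relation.ReflTransGen (fun x y => ∃ e, (ae a s e = x ∧ ae b t e = y) ∨
      (ae a s e = y ∧ ae b t e = x)) a b := Relation.ReflTransGen.single ⟨none, Or.inl ⟨rfl, rfl⟩⟩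
  have hba : Relation.ReflTransGen (fun x y => ∃ e, (ae a s e = x ∧ ae b t e = y) ∨
      (ae a s e = y ∧ ae b t e = x)) b a := Relation.ReflTransGen.single ⟨none, Or.inr ⟨rfl, rfl⟩⟩
  have key : ∀ x, Relation.ReflTransGen (fun x y => ∃ e,
      (ae (some a) (ae none (some ∘ s)) e = x ∧ ae none (ae (some b) (some ∘ t)) e = y) ∨
      (ae (some a) (ae none (some ∘ s)) e = y ∧ ae none (ae (some b) (some ∘ t)) e = x)) (some u) x →
      Relation.ReflTransGen (fun x y => ∃ e, (ae a s e = x ∧ ae b t e = y) ∨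
      (ae a s e = y ∧ ae b t e = x)) u (x.getD a) := by
    intro x hx
    induction hx with
    | refl => exact Relation.ReflTransGen.refl
    | @tail x y h1 h2 ih =>
      obtain ⟨e, he⟩ := h2
      rcases e with _ | _ | e
      · rcases he with ⟨k1, k2⟩ | ⟨k1, k2⟩
        · have k1' : some a = x := k1
          have k2' : none = y := k2
          subst k1' k2'
          exact ih
        · have k1' : some a = y := k1
          have k2' : none = x := k2
          subst k1' k2'
          exact ih
      · rcases he with ⟨k1, k2⟩ | ⟨k1, k2⟩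
        · have k1' : none = x := k1
          have k2' : some b = y := k2
          subst k1' k2'
          exact ih.trans hab
        · have k1' : none = y := k1
          have k2' : some b = x := k2
          subst k1' k2'
          exact ih.trans hba
      · rcases he with ⟨k1, k2⟩ | ⟨k1, k2⟩
        · have k1' : some (s e) = x := k1
          have k2' : some (t e) = y := k2
          subst k1' k2'
          exact ih.tail ⟨some e, Or.inl ⟨rfl, rfl⟩⟩
        · have k1' : some (s e) = y := k1
          have k2' : some (t e) = x := k2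
          subst k1' k2'
          exact ih.tail ⟨some e, Or.inr ⟨rfl, rfl⟩⟩
  exact key (some w) (hc (some u) (some w))

/-- MODULE TWB (2).  A loop is not needed. -/
theorem tree_loop {V E : Type} [Fintype V] [Fintype E] (a : V) (s t : E → V)
    (h : ∃ T, IsTree (ae a s) (ae a t) T) : ∃ T, IsTree s t T := by
  obtain ⟨-, hc⟩ := conn_of_tree h
  have hne : Nonempty V := ⟨a⟩
  refine tree_of_conn _ _ fun u w => ?_
  have hx := hc u w
  induction hx with
  | refl => exact Relation.ReflTransGen.refl
  | @tail x y h1 h2 ih =>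
    obtain ⟨e, he⟩ := h2
    rcases e with _ | e
    · rcases he with ⟨k1, k2⟩ | ⟨k1, k2⟩
      · have k1' : a = x := k1
        have k2' : a = y := k2
        subst k1'
        subst k2'
        exact ih
      · have k1' : a = y := k1
        have k2' : a = x := k2
        subst k1'
        subst k2'
        exact ih
    · exact ih.tail ⟨e, he⟩

/-- MODULE TWC (1).  Degrees: `KG.deg_ae`, `KG.deg_some` (`some ∘ s` is `fun e => some (s e)`). -/
theorem deg_two {V E : Type} [Fintype E] (a b : V) (s t : E → V) (n : ℕ)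
    (h : ∀ v, deg (ae (some a) (ae none (some ∘ s))) (ae none (ae (some b) (some ∘ t))) v ≤ n) (v : V) :
    deg (ae a s) (ae b t) v ≤ n ∧ deg s t v ≤ n := by
  classical
  have h2 := h (some v)
  have h3 : deg (some ∘ s) (some ∘ t) (some v) = deg s t v := KG.deg_some s t v
  rw [KG.deg_ae, KG.deg_ae, h3] at h2
  rw [KG.deg_ae]
  simp only [Option.some.injEq, reduceCtorEq, if_false, add_zero] at h2
  constructor
  · by_cases h5 : v = a
    · by_cases h6 : v = b
      · rw [if_pos h5, if_pos h6] at h2 ⊢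
        omega
      · rw [if_pos h5, if_neg h6] at h2 ⊢
        omega
    · by_cases h6 : v = b
      · rw [if_neg h5, if_pos h6] at h2 ⊢
        omega
      · rw [if_neg h5, if_neg h6] at h2 ⊢
        omega
  · exact le_trans (le_trans (Nat.le_add_right _ _) (Nat.le_add_right _ _)) h2

/-- MODULE TWC (2). -/
theorem ll_two {V E : Type} (a b : V) (s t : E → V)
    (h : LL (ae (some a) (ae none (some ∘ s))) (ae none (ae (some b) (some ∘ t)))) : LL s t := by
  intro e he
  exact h (some (some e)) (congrArg some he)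

/-- MODULE TWC (3).  `P3.ns_two`. -/
theorem vl_two {V E : Type} [Fintype V] [Fintype E] (a b : V) (s t : E → V) (F : FinField) :
    vl (ae (some a) (ae none (some ∘ s))) (ae none (ae (some b) (some ∘ t))) F =
      F.q * vl (ae a s) (ae b t) F := by
  unfold vl
  rw [ns_two, Fintype.card_option, Fintype.card_option]
  ring

/-- MODULE TWC (4).  `KGU.ns_loop`. -/
theorem vl_loop {V E : Type} [Fintype V] [Fintype E] (a : V) (s t : E → V) (F : FinField) :
    vl (ae a s) (ae a t) F = (F.q - 1) * vl s t F := by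
  unfold vl
  rw [ns_loop, Fintype.card_option]
  ring

end Pool.Agent.Grd
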