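import Pool.Agent.Grd.Pgr
import Pool.Agent.Grd.Join
import Pool.Agent.Grd.Brd
import Pool.Agent.Grd.Two
import Pool.Agent.Grd.Draw

/-!
# All connected planar graphs of maximal degree three
-/

set_option autoImplicit false

open scoped BigOperators

namespace Pool.Agent.Grd

open Pool.Agent.KG Pool.Agent.P3 Pool.Agent.PL3

/-- MODULE IND (1).  Proof.  Strong induction on the number of edges.
(a) A bridge `f`: `bridge_iso`, `bridge_parts`, induction for both parts, `is_vl`, `vl_jn`, `GRc.mul`, `GRc.congr` with `QE.of_mul 1`.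
(b) No bridge, a vertex of degree `0`: `vl_point`, `grc_one`.  Degree `1`: not possible by `bridge_one`.  Degree `2`: `exists_twoI`;
`PL3.pl_two`, `deg_two`, `tree_two`, `vl_two`.  If `a ≠ b`: the graph `ae a s'`, `ae b t'` has no loops (`LL_ae`, `ll_two`) and one
edge less; induction.  If `a = b`: `vl_loop`, `tree_loop`, `PL3.pl_sub` with `ι = some` for `s'`, `t'`, induction and `grc_square`,
`GRc.mul`.
(c) No bridge, all degrees `3`: for a dual graph `l`, `r` all `l e ≠ r e` (if `l e = r e` then `x e = 0` for all cycles `x`);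
`draw_full`, `grc_of_fd`. -/
theorem grc_all (n : ℕ) : ∀ (V E : Type) [Fintype V] [Fintype E] (s t : E → V), (∃ T, IsTree s t T) →
    LL s t → Pl s t → (∀ v, deg s t v ≤ 3) → Fintype.card E = n → GRc (vl s t) := by
  induction n using Nat.strong_induction_on with
  | _ n ih =>
    intro V E _ _ s t hT hl hp hd hn
    by_cases hbr : ∃ f : E, ∀ x : E → ℚ, (∀ v, net s t x v = 0) → x f = 0
    · obtain ⟨f, hf⟩ := hbr
      obtain ⟨V1, V2, E1, E2, _, _, _, _, s1, t1, s2, t2, a, b, hI, hT1, hT2⟩ := bridge_iso s t hT f hf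
      obtain ⟨⟨l1, p1, d1, c1⟩, ⟨l2, p2, d2, c2⟩⟩ := bridge_parts s t s1 t1 s2 t2 a b hI hl hp hd
      have g1 := ih _ (by omega) V1 E1 s1 t1 hT1 l1 p1 d1 rfl
      have g2 := ih _ (by omega) V2 E2 s2 t2 hT2 l2 p2 d2 rfl
      have : Nonempty V1 := ⟨a⟩
      have : Nonempty V2 := ⟨b⟩
      refine GRc.congr (QE.of_mul 1 fun F => ?_) (GRc.mul g1 g2)
      rw [← is_vl hI, vl_jn, pow_one]
    · by_cases hdeg : ∀ v, deg s t v = 3
      · obtain ⟨D, _, l, r, hdu⟩ := hp
        have hb : ∀ e, l e ≠ r e := by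
          intro e he
          refine hbr ⟨e, fun x hx => ?_⟩
          obtain ⟨φ, hφ⟩ := (hdu x).1 hx
          rw [hφ, he, sub_self]
        obtain ⟨pos, U, hF⟩ := draw_full s t l r hl hT hdu hb hdeg
        exact grc_of_fd s t hl hT pos U hF
      · push Not at hdeg
        obtain ⟨v, hv⟩ := hdeg
        have hv3 := hd v
        rcases Nat.lt_or_ge (deg s t v) 1 with h0 | h1
        · refine GRc.congr (QE.of_mul 0 fun F => ?_) grc_one
          rw [vl_point s t hT v (by omega), pow_zero, one_mul]
        rcases Nat.lt_or_ge (deg s t v) 2 with h1' | h2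
        · exact absurd (bridge_one s t hl v (by omega)) hbr
        have hv2 : deg s t v = 2 := by omega
        obtain ⟨V', E', _, _, s', t', a, b, hI⟩ := exists_twoI s t hl v hv2
        have hp' := pl_two a b s' t' (is_pl hI hp)
        have hd' := fun u => (deg_two a b s' t' 3 (is_deg hI 3 hd) u)
        have hT' := tree_two a b s' t' (is_tree hI hT)
        have hll := ll_two a b s' t' (is_ll hI hl)
        have hc := is_card hI
        rw [Fintype.card_option, Fintype.card_option] at hc
        have hvl : ∀ F, vl s t F = F.q ^ 1 * vl (ae a s') (ae b t') F := by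
          intro F
          rw [← is_vl hI, vl_two, pow_one]
        by_cases hab : a = b
        · subst hab
          have g1 := ih (Fintype.card E') (by omega) V' E' s' t' (tree_loop a s' t' hT') hll
            (pl_sub (ae a s') (ae a t') some (Option.some_injective _) hp') (fun u => (hd' u).2) rfl
          refine GRc.congr (QE.of_mul 1 fun F => ?_) (GRc.mul grc_square g1)
          rw [hvl, vl_loop]
        · have g1 := ih (Fintype.card (Option E')) (by rw [Fintype.card_option]; omega) V' (Option E')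
            (ae a s') (ae b t') hT' (LL_ae hll hab) hp' (fun u => (hd' u).1) rfl
          exact GRc.congr (QE.of_mul 1 hvl) g1

/-- The functions `ns` of the grid graphs. -/
def GG : Set (FinField → ℤ) := {f | ∃ G : GridGraph, f = ns (gs G.S) (gt G.S)}

/-- MODULE IND (2).  Proof.  `grc_all`, `exists_grid`: `q ^ a * vl s t = q ^ b * vl (gs G.S) (gt G.S)`.  With `vl = q ^ card - ns`:
`q ^ a * ns s t = q ^ (a + card E) - q ^ b * (q ^ _ - ns (gs G.S) (gt G.S))`, so `Sp.div` with `X ^ a`. -/
theorem ns_grid {V E : Type} [Fintype V] [Fintype E] (s t : E → V) (hT : ∃ T, IsTree s t T)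
    (hl : LL s t) (hp : Pl s t) (hd : ∀ v, deg s t v ≤ 3) : Sp GG (ns s t) := by
  obtain ⟨G, a, b, hab⟩ := exists_grid (grc_all _ V E s t hT hl hp hd rfl)
  refine Sp.div (Polynomial.X ^ a) (Polynomial.monic_X_pow a) ?_
  have h1 : Sp GG fun F => (Polynomial.X ^ (a + Fintype.card E) -
      Polynomial.X ^ (b + Fintype.card (gedges G.S)) : Polynomial ℤ).eval F.q * 1 := Sp.mulp _ Sp.one
  have h2 : Sp GG fun F => (Polynomial.X ^ b : Polynomial ℤ).eval F.q * ns (gs G.S) (gt G.S) F :=
    Sp.mulp _ (Sp.base ⟨G, rfl⟩)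
  refine Sp.congr (fun F => ?_) (Sp.add h1 h2)
  have h3 := hab F
  unfold vl at h3
  simp only [Polynomial.eval_sub, Polynomial.eval_pow, Polynomial.eval_X, mul_one]
  rw [pow_add, pow_add]
  linarith

/-- MODULE IND (3).  `PlanarCubic`: `conn`, `noloop`, `deg_eq`, and `Pl` from `dual` (`PL3.du_of_dual` for the graph and its dual
exchanged, see the proof of `PL3.planar_ns`). -/
theorem ns_preg {f : FinField → ℤ} (hf : f ∈ PReg3S) : Sp GG f := by
  obtain ⟨G, rfl⟩ := hf
  have hD : PLN.Dual G.l G.r G.s G.t := ⟨fun d v => by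
      rw [← G.dual.chain v d]
      exact Finset.sum_congr rfl fun e _ => mul_comm _ _,
    by have := G.dual.euler; omega, G.conn⟩
  exact ns_grid G.s G.t G.conn G.noloop ⟨Fin G.k, inferInstance, G.l, G.r, du_of_dual G.l G.r G.s G.t hD
    G.dual.dconn⟩ fun v => (G.deg_eq v).le

end Pool.Agent.Grd
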