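import Pool.Agent.Grd.Ind

/-!
# Scheme counts are approximated by counts of the hypersurfaces of grid graphs
-/

set_option autoImplicit false

open scoped BigOperators

namespace Pool.Agent.Grd

open Pool.Agent.KG Pool.Agent.P3 Pool.Agent.KGU Pool.Agent.HGC Pool.Agent.HGM Pool.Agent.GPM Pool.Agent.PLN
  Pool.Agent.PL3

theorem bd_grid (G : GridGraph) : Bd G.count := bd_of_le _ fun K _ _ => NS_le (gs G.S) (gt G.S) K

/-- The affine scheme counts are approximated by the numbers of zeros of the Symanzik polynomials of the grid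
graphs, away from `2` and `3`. -/
theorem hg_grid (n m : ℕ) (P : Fin m → MvPolynomial (Fin n) ℤ) :
    InB (fam GridGraph.count) (tr (countPF (affCount P))) := by
  refine InB.congr (fun p r _ => ?_) (inB_of_sp' bd_grid ?_ (aff_phi4 P))
  · by_cases hp : p ∈ Bad
    · rw [tr_bad _ hp, tr_bad _ hp]
    · rw [tr_good _ hp, tr_good _ hp]
      exact toPF_aff P p r
  · rintro f ⟨n, m, s, t, -, rfl⟩
    refine InB.congr (fun p r _ => tr_toPF (ns s t) p r) (inB_of_spF bd_grid ?_ (ns_planar s t))
    rintro f ⟨G, rfl⟩
    refine InB.congr (fun p r _ => (tr_toPF (nk G.s G.t) p r).symm) (inB_of_sp' bd_grid ?_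
      (Sp.mono (fun g hg => ns_preg hg) (planar_ns G)))
    rintro f ⟨G', rfl⟩
    refine (InB.base (g := fam GridGraph.count) (some G')).congr fun p r _ => ?_
    show tr G'.count p r = _
    by_cases hp : p ∈ Bad
    · rw [tr_bad _ hp, tr_bad _ hp]
    · rw [tr_good _ hp, tr_good _ hp]
      simp only [toPF, GridGraph.count, countPF, ns]
      push_cast
      rfl

end Pool.Agent.Grd
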