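import Pool.Agent.Grd.Sub

/-!
# A drawing in double size is an induced subgraph of the grid
-/

set_option autoImplicit false

open scoped BigOperators

namespace Pool.Agent.Grd

open Pool.Agent.KG Pool.Agent.P3 Pool.Agent.PL3

private def PGA_g (E : Type) : (Σ _ : E, Fin (1 + 1)) ≃ E × Bool where
  toFun x := (x.1, decide ((x.2 : ℕ) = 0))
  invFun η := ⟨η.1, if η.2 = true then 0 else 1⟩
  left_inv := by
    rintro ⟨e, j⟩
    fin_cases j <;> rfl
  right_inv := by
    rintro ⟨e, b⟩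
    cases b <;> rfl

/-- MODULE PGA.  Proof.  `Sum.inr ⟨e, 0⟩ ↦ Sum.inr e`, `⟨e, 0⟩ ↦ (e, true)`, `⟨e, 1⟩ ↦ (e, false)` (turned round). -/
theorem is_in {V E : Type} (s t : E → V) :
    Is (sdS s fun _ => 1) (sdT t fun _ => 1) (inS s t) (inT V) := by
  refine ⟨Equiv.sumCongr (Equiv.refl V) (Equiv.sigmaUnique E (fun _ => Fin 1)), PGA_g E, ?_⟩
  rintro ⟨e, j⟩
  fin_cases j
  · left
    exact ⟨rfl, rfl⟩
  · right
    exact ⟨rfl, rfl⟩

/-- MODULE PGB.  The edges of the induced subgraph of the points `2 pos v` and `pos (s e) + pos (t e)`.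

Proof.  `2 pos v` has even coordinates, `pos (s e) + pos (t e) = 2 pos (s e) + d` with `d = pos (t e) - pos (s e)`, one of the four
unit vectors, so exactly one coordinate is odd.  Points of the same kind are no neighbours; the neighbours with even
coordinates of `2 pos (s e) + d` are `2 pos (s e)` and `2 pos (t e)`. -/
theorem nb_dr {V E : Type} (s t : E → V) (pos : V → ℤ × ℤ) (h : Dr s t pos) :
    (∀ u v, ¬ Nb (pos u + pos u) (pos v + pos v)) ∧
    (∀ e e', ¬ Nb (pos (s e) + pos (t e)) (pos (s e') + pos (t e'))) ∧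
    (∀ v e, pos v + pos v ≠ pos (s e) + pos (t e)) ∧
    (∀ e e', pos (s e) + pos (t e) = pos (s e') + pos (t e') → e = e') ∧
    ∀ v e, Nb (pos v + pos v) (pos (s e) + pos (t e)) ↔ v = s e ∨ v = t e := by
  have hinj : ∀ u v, (pos u).1 = (pos v).1 → (pos u).2 = (pos v).2 → u = v :=
    fun u v h1 h2 => h.inj (Prod.ext h1 h2)
  refine ⟨?_, ?_, ?_, ?_, ?_⟩
  · intro u v hn
    unfold Nb at hn
    simp only [Prod.fst_add, Prod.snd_add] at hn
    omega
  · intro e e' hn
    have h1 := h.unit e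
    have h2 := h.unit e'
    unfold Nb at hn h1 h2
    simp only [Prod.fst_add, Prod.snd_add] at hn
    omega
  · intro v e hn
    have h1 := h.unit e
    unfold Nb at h1
    rw [Prod.ext_iff] at hn
    simp only [Prod.fst_add, Prod.snd_add] at hn
    omega
  · intro e e' hn
    have h1 := h.unit e
    have h2 := h.unit e'
    unfold Nb at h1 h2
    rw [Prod.ext_iff] at hn
    simp only [Prod.fst_add, Prod.snd_add] at hn
    have h3 : ((pos (s e)).1 = (pos (s e')).1 ∧ (pos (s e)).2 = (pos (s e')).2 ∧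
        (pos (t e)).1 = (pos (t e')).1 ∧ (pos (t e)).2 = (pos (t e')).2) ∨
        ((pos (s e)).1 = (pos (t e')).1 ∧ (pos (s e)).2 = (pos (t e')).2 ∧
        (pos (t e)).1 = (pos (s e')).1 ∧ (pos (t e)).2 = (pos (s e')).2) := by omega
    refine h.simple e e' ?_
    rcases h3 with ⟨h3, h4, h5, h6⟩ | ⟨h3, h4, h5, h6⟩
    · exact Or.inl ⟨hinj _ _ h3 h4, hinj _ _ h5 h6⟩
    · exact Or.inr ⟨hinj _ _ h3 h4, hinj _ _ h5 h6⟩
  · intro v e
    have h1 := h.unit e
    unfold Nb at h1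
    constructor
    · intro hn
      unfold Nb at hn
      simp only [Prod.fst_add, Prod.snd_add] at hn
      have h3 : ((pos v).1 = (pos (s e)).1 ∧ (pos v).2 = (pos (s e)).2) ∨
          ((pos v).1 = (pos (t e)).1 ∧ (pos v).2 = (pos (t e)).2) := by omega
      rcases h3 with ⟨h3, h4⟩ | ⟨h3, h4⟩
      · exact Or.inl (hinj _ _ h3 h4)
      · exact Or.inr (hinj _ _ h3 h4)
    · unfold Nb
      simp only [Prod.fst_add, Prod.snd_add]
      rintro (rfl | rfl) <;> omega

/-- The vertices of the drawing in double size. -/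
private def PGC_F {V E : Type} (s t : E → V) (pos : V → ℤ × ℤ) : V ⊕ E → ℤ × ℤ :=
  Sum.elim (fun v => pos v + pos v) (fun e => pos (s e) + pos (t e))

private lemma PGC_dbl {V : Type} {pos : V → ℤ × ℤ} {u v : V} (hi : Function.Injective pos)
    (h : pos u + pos u = pos v + pos v) : u = v := by
  rw [Prod.ext_iff] at h
  simp only [Prod.fst_add, Prod.snd_add] at h
  exact hi (Prod.ext (by omega) (by omega))

private lemma PGC_inj {V E : Type} (s t : E → V) (pos : V → ℤ × ℤ) (h : Dr s t pos) :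
    Function.Injective (PGC_F s t pos) := by
  obtain ⟨-, -, h3, h4, -⟩ := nb_dr s t pos h
  rintro (u | e) (v | e') hh
  · exact congrArg Sum.inl (PGC_dbl h.inj hh)
  · exact absurd hh (h3 u e')
  · exact absurd hh.symm (h3 v e)
  · exact congrArg Sum.inr (h4 e e' hh)

private lemma PGC_mem {V E : Type} [Fintype V] [Fintype E] (s t : E → V) (pos : V → ℤ × ℤ)
    (p : ℤ × ℤ) : p ∈ drS s t pos ↔ ∃ x, PGC_F s t pos x = p := by
  classical
  unfold drS
  rw [Finset.mem_union, Finset.mem_image, Finset.mem_image]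
  constructor
  · rintro (⟨v, -, hv⟩ | ⟨e, -, he⟩)
    · exact ⟨Sum.inl v, hv⟩
    · exact ⟨Sum.inr e, he⟩
  · rintro ⟨v | e, hx⟩
    · exact Or.inl ⟨v, Finset.mem_univ _, hx⟩
    · exact Or.inr ⟨e, Finset.mem_univ _, hx⟩

/-- The pair of a half edge. -/
private def PGC_G {V E : Type} (s t : E → V) (pos : V → ℤ × ℤ) (η : E × Bool) :
    (ℤ × ℤ) × (ℤ × ℤ) :=
  if PGC_F s t pos (Sum.inr η.1) = PGC_F s t pos (Sum.inl (hs s t η)) + (1, 0) ∨
      PGC_F s t pos (Sum.inr η.1) = PGC_F s t pos (Sum.inl (hs s t η)) + (0, 1) then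
    (PGC_F s t pos (Sum.inl (hs s t η)), PGC_F s t pos (Sum.inr η.1))
  else (PGC_F s t pos (Sum.inr η.1), PGC_F s t pos (Sum.inl (hs s t η)))

private lemma PGC_hs {V E : Type} (s t : E → V) (η : E × Bool) :
    hs s t η = s η.1 ∨ hs s t η = t η.1 := by
  unfold hs
  split_ifs
  · exact Or.inl rfl
  · exact Or.inr rfl

private lemma PGC_nb {V E : Type} (s t : E → V) (pos : V → ℤ × ℤ) (h : Dr s t pos)
    (η : E × Bool) : Nb (PGC_F s t pos (Sum.inl (hs s t η))) (PGC_F s t pos (Sum.inr η.1)) :=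
  ((nb_dr s t pos h).2.2.2.2 _ _).mpr (PGC_hs s t η)

private lemma PGC_Nb {a b : ℤ × ℤ} (h : Nb a b) (h1 : ¬ (b = a + (1, 0) ∨ b = a + (0, 1))) :
    a = b + (1, 0) ∨ a = b + (0, 1) := by
  unfold Nb at h
  simp only [Prod.ext_iff, Prod.fst_add, Prod.snd_add] at h1 ⊢
  omega

private lemma PGC_Nb' {a b : ℤ × ℤ} (h : b = a + (1, 0) ∨ b = a + (0, 1)) : Nb a b ∧
    ¬ (a = b + (1, 0) ∨ a = b + (0, 1)) := by
  unfold Nb
  simp only [Prod.ext_iff, Prod.fst_add, Prod.snd_add] at h ⊢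
  omega

private lemma PGC_Gmem {V E : Type} [Fintype V] [Fintype E] (s t : E → V) (pos : V → ℤ × ℤ)
    (h : Dr s t pos) (η : E × Bool) : PGC_G s t pos η ∈ gedges (drS s t pos) := by
  have h1 : PGC_F s t pos (Sum.inl (hs s t η)) ∈ drS s t pos := (PGC_mem s t pos _).mpr ⟨_, rfl⟩
  have h2 : PGC_F s t pos (Sum.inr η.1) ∈ drS s t pos := (PGC_mem s t pos _).mpr ⟨_, rfl⟩
  unfold PGC_G gedges
  rw [Finset.mem_filter, Finset.mem_product]
  split_ifs with hc
  · exact ⟨⟨h1, h2⟩, hc⟩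
  · exact ⟨⟨h2, h1⟩, PGC_Nb (PGC_nb s t pos h η) hc⟩

private lemma PGC_st {V E : Type} (s t : E → V) (pos : V → ℤ × ℤ) (h : Dr s t pos) (e : E) :
    s e ≠ t e := by
  intro hh
  have h1 := h.unit e
  rw [hh] at h1
  unfold Nb at h1
  omega

private lemma PGC_Ginj {V E : Type} (s t : E → V) (pos : V → ℤ × ℤ) (h : Dr s t pos)
    {η ζ : E × Bool} (hh : PGC_G s t pos η = PGC_G s t pos ζ) : η = ζ := by
  have hF := PGC_inj s t pos h
  have key : PGC_F s t pos (Sum.inl (hs s t η)) = PGC_F s t pos (Sum.inl (hs s t ζ)) ∧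
      PGC_F s t pos (Sum.inr η.1) = PGC_F s t pos (Sum.inr ζ.1) := by
    unfold PGC_G at hh
    split_ifs at hh with h1 h2 h2
    · exact ⟨congrArg Prod.fst hh, congrArg Prod.snd hh⟩
    · exact absurd (hF (congrArg Prod.fst hh)) Sum.inl_ne_inr
    · exact absurd (hF (congrArg Prod.fst hh)) Sum.inr_ne_inl
    · exact ⟨congrArg Prod.snd hh, congrArg Prod.fst hh⟩
  have h1 : hs s t η = hs s t ζ := Sum.inl_injective (hF key.1)
  have h2 : η.1 = ζ.1 := Sum.inr_injective (hF key.2)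
  obtain ⟨e, b⟩ := η
  obtain ⟨e', b'⟩ := ζ
  simp only at h2
  subst h2
  have hst := PGC_st s t pos h e
  cases b <;> cases b'
  · rfl
  · exact absurd h1.symm hst
  · exact absurd h1 hst
  · rfl

private lemma PGC_Gsurj {V E : Type} [Fintype V] [Fintype E] (s t : E → V) (pos : V → ℤ × ℤ)
    (h : Dr s t pos) (x : (ℤ × ℤ) × (ℤ × ℤ)) (hx : x ∈ gedges (drS s t pos)) :
    ∃ η, PGC_G s t pos η = x := by
  obtain ⟨p, q⟩ := x
  unfold gedges at hx
  rw [Finset.mem_filter, Finset.mem_product] at hx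
  obtain ⟨⟨hp, hq⟩, hpq⟩ := hx
  simp only at hp hq hpq
  obtain ⟨n1, n2, n3, n4, n5⟩ := nb_dr s t pos h
  have hpq' := PGC_Nb' hpq
  rw [PGC_mem] at hp hq
  obtain ⟨x, rfl⟩ := hp
  obtain ⟨y, rfl⟩ := hq
  have hη : ∀ (v : V) (e : E), (v = s e ∨ v = t e) → ∃ η : E × Bool, η.1 = e ∧ hs s t η = v := by
    rintro v e (rfl | rfl)
    · exact ⟨(e, true), rfl, rfl⟩
    · exact ⟨(e, false), rfl, rfl⟩
  rcases x with v | e <;> rcases y with v' | e'
  · exact absurd hpq'.1 (n1 v v')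
  · obtain ⟨η, h1, h2⟩ := hη v e' ((n5 v e').mp hpq'.1)
    refine ⟨η, ?_⟩
    unfold PGC_G
    rw [h1, h2, if_pos hpq]
  · obtain ⟨η, h1, h2⟩ := hη v' e ((n5 v' e).mp (nb_symm hpq'.1))
    refine ⟨η, ?_⟩
    unfold PGC_G
    rw [h1, h2, if_neg hpq'.2]
  · exact absurd hpq'.1 (n2 e e')

/-- MODULE PGC.  Proof.  The vertices: `inl v ↦ 2 pos v`, `inr e ↦ pos (s e) + pos (t e)`, a bijection by `nb_dr` and `inj`
(`Equiv.ofBijective`).  The edges: the half edge `η` goes to the pair formed by the points `2 pos (hs s t η)` and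
`pos (s η.1) + pos (t η.1)`, in the order which is allowed in `gedges`.  Injective: the pair determines the midpoint, so `η.1`,
and the other point, so `η` (`s e ≠ t e` by `unit`); surjective: by `nb_dr` a pair of neighbours consists of a
`2 pos v` and a midpoint, and `v = s e` or `v = t e`. -/
theorem is_gs {V E : Type} [Fintype V] [Fintype E] (s t : E → V) (pos : V → ℤ × ℤ) (h : Dr s t pos) :
    Is (inS s t) (inT V) (gs (drS s t pos)) (gt (drS s t pos)) := by
  have hf : Function.Bijective (fun x : V ⊕ E =>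
      (⟨PGC_F s t pos x, (PGC_mem s t pos _).mpr ⟨x, rfl⟩⟩ : drS s t pos)) := by
    constructor
    · intro x y hxy
      exact PGC_inj s t pos h (congrArg Subtype.val hxy)
    · rintro ⟨p, hp⟩
      obtain ⟨x, hx⟩ := (PGC_mem s t pos p).mp hp
      exact ⟨x, Subtype.ext hx⟩
  have hg : Function.Bijective (fun η : E × Bool =>
      (⟨PGC_G s t pos η, PGC_Gmem s t pos h η⟩ : gedges (drS s t pos))) := by
    constructor
    · intro x y hxy
      exact PGC_Ginj s t pos h (congrArg Subtype.val hxy)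
    · rintro ⟨p, hp⟩
      obtain ⟨x, hx⟩ := PGC_Gsurj s t pos h p hp
      exact ⟨x, Subtype.ext hx⟩
  refine ⟨Equiv.ofBijective _ hf, Equiv.ofBijective _ hg, fun η => ?_⟩
  by_cases hc : PGC_F s t pos (Sum.inr η.1) = PGC_F s t pos (Sum.inl (hs s t η)) + (1, 0) ∨
      PGC_F s t pos (Sum.inr η.1) = PGC_F s t pos (Sum.inl (hs s t η)) + (0, 1)
  · left
    constructor
    · apply Subtype.ext
      change (PGC_G s t pos η).1 = PGC_F s t pos (Sum.inl (hs s t η))
      unfold PGC_G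
      rw [if_pos hc]
    · apply Subtype.ext
      change (PGC_G s t pos η).2 = PGC_F s t pos (Sum.inr η.1)
      unfold PGC_G
      rw [if_pos hc]
  · right
    constructor
    · apply Subtype.ext
      change (PGC_G s t pos η).1 = PGC_F s t pos (Sum.inr η.1)
      unfold PGC_G
      rw [if_neg hc]
    · apply Subtype.ext
      change (PGC_G s t pos η).2 = PGC_F s t pos (Sum.inl (hs s t η))
      unfold PGC_G
      rw [if_neg hc]

/-- MODULE PGD.  Proof.  `is_in`, `is_gs`, `is_trans`; `is_tree` and `tree_sd` for `conn`; `vl_sd`, `is_vl`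
(`Nonempty V` by `conn_of_tree`). -/
theorem exists_grid {f : FinField → ℤ} (hf : GRc f) : ∃ G : GridGraph, QE f (vl (gs G.S) (gt G.S)) := by
  obtain ⟨V, E, iV, iE, s, t, pos, hDr, hT, hQ⟩ := hf
  have hn : Nonempty V := (conn_of_tree hT).1
  have h1 := is_trans (is_in s t) (is_gs s t pos hDr)
  have h2 : ∃ T, IsTree (gs (drS s t pos)) (gt (drS s t pos)) T :=
    is_tree h1 (tree_sd s t (fun _ => 1) hT)
  refine ⟨⟨drS s t pos, h2⟩, ?_⟩
  refine hQ.trans ?_
  have h3 := is_vl h1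
  have h4 : QE (vl (sdS s fun _ => 1) (sdT t fun _ => 1)) (vl s t) :=
    QE.of_mul _ (fun F => vl_sd s t (fun _ => 1) F)
  have h5 := h4.symm
  rw [← h3] at h5
  exact h5

end Pool.Agent.Grd
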