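import Pool.Agent.Grd.Defs

/-!
# Walks in the grid
-/

set_option autoImplicit false

open scoped BigOperators

namespace Pool.Agent.Grd

open Pool.Agent.KG Pool.Agent.P3 Pool.Agent.PL3

/-- MODULE WLK (1). -/
theorem nb_symm {a b : ℤ × ℤ} (h : Nb a b) : Nb b a := by
  rcases h with ⟨h1, h2⟩ | ⟨h1, h2⟩
  · exact Or.inl ⟨h1.symm, h2.symm⟩
  · exact Or.inr ⟨h1.symm, h2.symm⟩

/-- MODULE WLK (2).  Induction on `L`. -/
theorem wk_app {a b c : ℤ × ℤ} {L L' : List (ℤ × ℤ)} (h : Wk a L b) (h' : Wk b L' c) : Wk a (L ++ L') c := by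
  induction L generalizing a with
  | nil =>
    have h1 : a = b := h
    rw [h1]
    exact h'
  | cons d L ih => exact ⟨h.1, ih h.2⟩

/-- MODULE WLK (3).  The converse walk. -/
theorem wk_rev {a b : ℤ × ℤ} {L : List (ℤ × ℤ)} (h : Wk a (L ++ [b]) b) : Wk b (L.reverse ++ [a]) a := by
  induction L generalizing a with
  | nil => exact ⟨nb_symm h.1, rfl⟩
  | cons d L ih =>
    have h1 := ih h.2
    rw [List.reverse_cons]
    exact wk_app h1 (L' := [a]) ⟨nb_symm h.1, rfl⟩

/-- MODULE WLK (4).  Proof.  If `L' = []`, then `d = c`.  Otherwise `L' = L₀ ++ [c]` (`c` is the last point of `d :: L'`), and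
`wk_rev` for `d`, `L₀`, `c`. -/
theorem wk_glue {a b c d : ℤ × ℤ} {L U L' : List (ℤ × ℤ)} (h1 : Wk a L b) (h2 : Wk b (U ++ [c]) c)
    (h3 : Wk d L' c) : Wk a (L ++ U ++ L'.reverse ++ [d]) d := by
  rcases List.eq_nil_or_concat L' with h | ⟨L₀, e, h⟩
  · subst h
    have h4 : d = c := h3
    rw [h4, List.reverse_nil, List.append_nil, List.append_assoc]
    exact wk_app h1 h2
  · have he : e = c := by
      rw [h] at h3
      clear h h2 h1
      induction L₀ generalizing d with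
      | nil => exact h3.2
      | cons f L₀ ih => exact ih h3.2
    subst he
    rw [h, List.concat_eq_append] at h3
    have h4 := wk_rev h3
    rw [h, List.concat_eq_append, List.reverse_concat, List.append_assoc, List.append_assoc]
    refine wk_app h1 ?_
    rw [List.cons_append, List.append_cons]
    exact wk_app h2 h4

private theorem WLH_hz (a : ℤ × ℤ) (n : ℕ) :
    hz a n = (List.range n).map fun i : ℕ => (a.1 + (i : ℤ) + 1, a.2) := by
  unfold hz
  have h : (do let a ← List.range n; pure (a : ℤ)) = (List.range n).map fun i : ℕ => (i : ℤ) := by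
    rw [List.map_eq_flatMap]
    rfl
  rw [h, List.map_map]
  rfl

private theorem WLH_hy (a : ℤ × ℤ) (n : ℕ) :
    hy a n = (List.range n).map fun i : ℕ => (a.1 - (i : ℤ) - 1, a.2) := by
  unfold hy
  have h : (do let a ← List.range n; pure (a : ℤ)) = (List.range n).map fun i : ℕ => (i : ℤ) := by
    rw [List.map_eq_flatMap]
    rfl
  rw [h, List.map_map]
  rfl

private theorem WLH_hz_succ (a : ℤ × ℤ) (n : ℕ) :
    hz a (n + 1) = (a.1 + 1, a.2) :: hz (a.1 + 1, a.2) n := by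
  rw [WLH_hz, WLH_hz, List.range_succ_eq_map, List.map_cons, List.map_map]
  congr 1
  · simp
  · refine List.map_congr_left fun i _ => ?_
    simp only [Function.comp_apply, Nat.cast_succ, Prod.mk.injEq, and_true]
    ring

private theorem WLH_hy_succ (a : ℤ × ℤ) (n : ℕ) :
    hy a (n + 1) = (a.1 - 1, a.2) :: hy (a.1 - 1, a.2) n := by
  rw [WLH_hy, WLH_hy, List.range_succ_eq_map, List.map_cons, List.map_map]
  congr 1
  · simp
  · refine List.map_congr_left fun i _ => ?_
    simp only [Function.comp_apply, Nat.cast_succ, Prod.mk.injEq, and_true]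
    ring

/-- MODULE WLH (1). -/
theorem wk_hz (a : ℤ × ℤ) (n : ℕ) : Wk a (hz a n) (a.1 + n, a.2) := by
  induction n generalizing a with
  | zero => exact Prod.ext (by simp) rfl
  | succ n ih =>
    rw [WLH_hz_succ]
    refine ⟨Or.inl ⟨rfl, Or.inl rfl⟩, ?_⟩
    have h := ih (a.1 + 1, a.2)
    have e : ((a.1 + 1, a.2).1 + (n : ℤ), (a.1 + 1, a.2).2) = (a.1 + ((n + 1 : ℕ) : ℤ), a.2) := by
      ext <;> simp
      ring
    rw [e] at h
    exact h

/-- MODULE WLH (2). -/
theorem mem_hz (a c : ℤ × ℤ) (n : ℕ) : c ∈ hz a n ↔ c.2 = a.2 ∧ a.1 < c.1 ∧ c.1 ≤ a.1 + n := by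
  rw [WLH_hz, List.mem_map]
  constructor
  · rintro ⟨i, hi, rfl⟩
    rw [List.mem_range] at hi
    refine ⟨rfl, ?_, ?_⟩ <;> dsimp only <;> omega
  · rintro ⟨h1, h2, h3⟩
    refine ⟨(c.1 - a.1 - 1).toNat, ?_, ?_⟩
    · rw [List.mem_range]
      omega
    · refine Prod.ext ?_ h1.symm
      dsimp only
      omega

/-- MODULE WLH (3). -/
theorem nodup_hz (a : ℤ × ℤ) (n : ℕ) : (hz a n).Nodup := by
  rw [WLH_hz]
  refine List.Nodup.map ?_ List.nodup_range
  intro i j h
  have h1 := congrArg Prod.fst h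
  dsimp only at h1
  omega

/-- MODULE WLH (4). -/
theorem wk_hy (a : ℤ × ℤ) (n : ℕ) : Wk a (hy a n) (a.1 - n, a.2) := by
  induction n generalizing a with
  | zero => exact Prod.ext (by simp) rfl
  | succ n ih =>
    rw [WLH_hy_succ]
    refine ⟨Or.inl ⟨rfl, Or.inr ?_⟩, ?_⟩
    · dsimp only
      ring
    · have h := ih (a.1 - 1, a.2)
      have e : ((a.1 - 1, a.2).1 - (n : ℤ), (a.1 - 1, a.2).2) = (a.1 - ((n + 1 : ℕ) : ℤ), a.2) := by
        ext <;> simp
        ring
      rw [e] at h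
      exact h

/-- MODULE WLH (5). -/
theorem mem_hy (a c : ℤ × ℤ) (n : ℕ) : c ∈ hy a n ↔ c.2 = a.2 ∧ c.1 < a.1 ∧ a.1 - n ≤ c.1 := by
  rw [WLH_hy, List.mem_map]
  constructor
  · rintro ⟨i, hi, rfl⟩
    rw [List.mem_range] at hi
    refine ⟨rfl, ?_, ?_⟩ <;> dsimp only <;> omega
  · rintro ⟨h1, h2, h3⟩
    refine ⟨(a.1 - c.1 - 1).toNat, ?_, ?_⟩
    · rw [List.mem_range]
      omega
    · refine Prod.ext ?_ h1.symm
      dsimp only
      omega

/-- MODULE WLH (6). -/
theorem nodup_hy (a : ℤ × ℤ) (n : ℕ) : (hy a n).Nodup := by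
  rw [WLH_hy]
  refine List.Nodup.map ?_ List.nodup_range
  intro i j h
  have h1 := congrArg Prod.fst h
  dsimp only at h1
  omega

end Pool.Agent.Grd
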