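import Pool.Agent.Grd.Val
import Pool.Agent.Grd.Walk

/-!
# Subdivision
-/

set_option autoImplicit false

open scoped BigOperators

namespace Pool.Agent.Grd

open Pool.Agent.KG Pool.Agent.P3 Pool.Agent.PL3

private theorem SDA_S0 {V E : Type} (s : E → V) (n : E → ℕ) (e : E) :
    sdS s n ⟨e, 0⟩ = Sum.inl (s e) := by
  unfold sdS
  rw [dif_pos (by simp)]

private theorem SDA_S1 {V E : Type} (s : E → V) (n : E → ℕ) (e : E) (j : Fin (n e)) :
    sdS s n ⟨e, j.succ⟩ = Sum.inr ⟨e, j⟩ := by
  unfold sdS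
  rw [dif_neg (by simp)]
  congr 1

private theorem SDA_T0 {V E : Type} (t : E → V) (n : E → ℕ) (e : E) :
    sdT t n ⟨e, Fin.last (n e)⟩ = Sum.inl (t e) := by
  unfold sdT
  rw [dif_pos (by simp)]

private theorem SDA_T1 {V E : Type} (t : E → V) (n : E → ℕ) (e : E) (j : Fin (n e)) :
    sdT t n ⟨e, j.castSucc⟩ = Sum.inr ⟨e, j⟩ := by
  unfold sdT
  rw [dif_neg (by have := j.2; simp; omega)]
  congr 1

private theorem SDA_S {V E : Type} (s : E → V) (n : E → ℕ) (e : E) (i : Fin (n e))
    (x : Σ e, Fin (n e + 1)) : sdS s n x = Sum.inr ⟨e, i⟩ ↔ x = ⟨e, i.succ⟩ := by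
  obtain ⟨e', j⟩ := x
  refine Fin.cases ?_ (fun j => ?_) j
  · rw [SDA_S0]
    constructor
    · intro h
      exact absurd h (by simp)
    · intro h
      obtain rfl : e' = e := congrArg Sigma.fst h
      have h2 := eq_of_heq (Sigma.mk.inj h).2
      exact absurd h2.symm (Fin.succ_ne_zero i)
  · rw [SDA_S1]
    constructor
    · intro h
      have h1 := Sum.inr.inj h
      obtain rfl : e' = e := congrArg Sigma.fst h1
      have h2 := eq_of_heq (Sigma.mk.inj h1).2
      rw [h2]
    · intro h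
      obtain rfl : e' = e := congrArg Sigma.fst h
      have h2 := eq_of_heq (Sigma.mk.inj h).2
      rw [Fin.succ_injective _ h2]

private theorem SDA_T {V E : Type} (t : E → V) (n : E → ℕ) (e : E) (i : Fin (n e))
    (x : Σ e, Fin (n e + 1)) : sdT t n x = Sum.inr ⟨e, i⟩ ↔ x = ⟨e, i.castSucc⟩ := by
  obtain ⟨e', j⟩ := x
  refine Fin.lastCases ?_ (fun j => ?_) j
  · rw [SDA_T0]
    constructor
    · intro h
      exact absurd h (by simp)
    · intro h
      obtain rfl : e' = e := congrArg Sigma.fst h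
      have h2 := eq_of_heq (Sigma.mk.inj h).2
      exact absurd h2.symm (Fin.castSucc_ne_last i)
  · rw [SDA_T1]
    constructor
    · intro h
      have h1 := Sum.inr.inj h
      obtain rfl : e' = e := congrArg Sigma.fst h1
      have h2 := eq_of_heq (Sigma.mk.inj h1).2
      rw [h2]
    · intro h
      obtain rfl : e' = e := congrArg Sigma.fst h
      have h2 := eq_of_heq (Sigma.mk.inj h).2
      rw [Fin.castSucc_injective _ h2]

/-- MODULE SDA (1).  The currents at a new vertex. -/
theorem net_sd_inr {V E K : Type} [Fintype E] [Field K] (s t : E → V) (n : E → ℕ)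
    (y : (Σ e, Fin (n e + 1)) → K) (e : E) (i : Fin (n e)) :
    net (sdS s n) (sdT t n) y (Sum.inr ⟨e, i⟩) = y ⟨e, i.succ⟩ - y ⟨e, i.castSucc⟩ := by
  classical
  unfold net
  congr 1
  · rw [Finset.sum_eq_single ⟨e, i.succ⟩]
    · rw [if_pos ((SDA_S s n e i _).2 rfl)]
    · intro x _ hx
      rw [if_neg (fun h => hx ((SDA_S s n e i x).1 h))]
    · intro h
      exact absurd (Finset.mem_univ _) h
  · rw [Finset.sum_eq_single ⟨e, i.castSucc⟩]
    · rw [if_pos ((SDA_T t n e i _).2 rfl)]
    · intro x _ hx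
      rw [if_neg (fun h => hx ((SDA_T t n e i x).1 h))]
    · intro h
      exact absurd (Finset.mem_univ _) h

open Classical in
/-- MODULE SDA (2).  The currents at an old vertex. -/
theorem net_sd_inl {V E K : Type} [Fintype E] [Field K] (s t : E → V) (n : E → ℕ)
    (y : (Σ e, Fin (n e + 1)) → K) (v : V) :
    net (sdS s n) (sdT t n) y (Sum.inl v) =
      (∑ e, if s e = v then y ⟨e, 0⟩ else 0) - ∑ e, if t e = v then y ⟨e, Fin.last (n e)⟩ else 0 := by
  unfold net
  congr 1
  · rw [Fintype.sum_sigma]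
    refine Finset.sum_congr rfl fun e _ => ?_
    rw [Fin.sum_univ_succ, SDA_S0, Finset.sum_eq_zero (fun j _ => by
      rw [SDA_S1]; exact if_neg (by simp)), add_zero]
    by_cases h : s e = v
    · rw [if_pos h]; exact if_pos (by rw [h])
    · rw [if_neg h]; exact if_neg (fun h' => h (Sum.inl.inj h'))
  · rw [Fintype.sum_sigma]
    refine Finset.sum_congr rfl fun e _ => ?_
    rw [Fin.sum_univ_castSucc, SDA_T0, Finset.sum_eq_zero (fun j _ => by
      rw [SDA_T1]; exact if_neg (by simp)), zero_add]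
    by_cases h : t e = v
    · rw [if_pos h]; exact if_pos (by rw [h])
    · rw [if_neg h]; exact if_neg (fun h' => h (Sum.inl.inj h'))

private theorem SDB_part {K : Type} [Field K] (N : ℕ) (f : Fin (N + 1) → K) (j : Fin (N + 1)) :
    (∑ k : Fin (N + 1), if (k : ℕ) < (j : ℕ) + 1 then f k else 0)
      - (∑ k : Fin (N + 1), if (k : ℕ) < (j : ℕ) then f k else 0) = f j := by
  rw [← Finset.sum_sub_distrib, Finset.sum_eq_single j]
  · rw [if_pos (by omega), if_neg (by omega), sub_zero]
  · intro k _ hk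
    have hne : (k : ℕ) ≠ (j : ℕ) := fun h => hk (Fin.ext h)
    by_cases h : (k : ℕ) < (j : ℕ)
    · rw [if_pos (by omega), if_pos h, sub_self]
    · rw [if_neg (by omega), if_neg h, sub_self]
  · intro h
    exact absurd (Finset.mem_univ _) h

/-- MODULE SDB.  The resistances in series add up.

Proof.  `P3.crit` for both graphs.  (→) Let `(i, φ)` be a solution for `(s, t)` with the resistances `∑ j, y ⟨e, j⟩`.  Put
`i' ⟨e, j⟩ = i e`, `φ' (inl v) = φ v`, `φ' (inr ⟨e, j⟩) = φ (s e) - (∑ k ≤ j, y ⟨e, k⟩) * i e`.  It is a solution for the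
subdivided graph (`net_sd_inr`, `net_sd_inl`), hence trivial.  (←) Let `(i', φ')` be a solution for the subdivided graph.  By
`net_sd_inr`, `i' ⟨e, j⟩ = i' ⟨e, 0⟩ = : i e`; summing up the equations of the pieces of `e`,
`(∑ j, y ⟨e, j⟩) * i e = φ (s e) - φ (t e)` with `φ = φ' ∘ inl`.  So `i = 0`, `φ` is constant, and `φ'` is constant along
each edge. -/
theorem sym_sd {V E K : Type} [Fintype V] [Nonempty V] [Fintype E] [Field K] (s t : E → V) (n : E → ℕ)
    (y : (Σ e, Fin (n e + 1)) → K) :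
    sym (sdS s n) (sdT t n) y ≠ 0 ↔ sym s t (fun e => ∑ j, y ⟨e, j⟩) ≠ 0 := by
  classical
  rw [crit, crit]
  constructor
  · intro hcr i φ h1 h2
    let φ' : V ⊕ (Σ e, Fin (n e)) → K := Sum.elim φ (fun x => φ (s x.1)
      - (∑ k : Fin (n x.1 + 1), if (k : ℕ) < (x.2 : ℕ) + 1 then y ⟨x.1, k⟩ else 0) * i x.1)
    have hS : ∀ (e : E) (j : Fin (n e + 1)), φ' (sdS s n ⟨e, j⟩) = φ (s e)
        - (∑ k : Fin (n e + 1), if (k : ℕ) < (j : ℕ) then y ⟨e, k⟩ else 0) * i e := by
      intro e j
      refine Fin.cases ?_ (fun j => ?_) j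
      · rw [SDA_S0, Finset.sum_eq_zero (fun k _ => if_neg (by simp)), zero_mul, sub_zero]
        rfl
      · rw [SDA_S1]
        rfl
    have hT : ∀ (e : E) (j : Fin (n e + 1)), φ' (sdT t n ⟨e, j⟩) = φ (s e)
        - (∑ k : Fin (n e + 1), if (k : ℕ) < (j : ℕ) + 1 then y ⟨e, k⟩ else 0) * i e := by
      intro e j
      refine Fin.lastCases ?_ (fun j => ?_) j
      · rw [SDA_T0, Finset.sum_congr rfl (fun k _ => if_pos (by
          have := k.2; rw [Fin.val_last]; exact this)), h1 e]
        show φ (t e) = _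
        ring
      · rw [SDA_T1]
        rfl
    obtain ⟨h3, c, h4⟩ := hcr (fun x => i x.1) φ' (by
        rintro ⟨e, j⟩
        have h5 := SDB_part (n e) (fun k => y ⟨e, k⟩) j
        rw [hS, hT, ← h5]
        ring) (by
        rintro (v | ⟨e, j⟩)
        · rw [net_sd_inl]
          exact h2 v
        · rw [net_sd_inr]
          exact sub_self _)
    refine ⟨funext fun e => congrFun h3 ⟨e, 0⟩, c, fun v => h4 (Sum.inl v)⟩
  · intro hcr i φ h1 h2
    have hi : ∀ (e : E) (j : Fin (n e + 1)), i ⟨e, j⟩ = i ⟨e, 0⟩ := by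
      intro e j
      refine Fin.induction rfl (fun j ih => ?_) j
      have h3 := h2 (Sum.inr ⟨e, j⟩)
      rw [net_sd_inr] at h3
      rw [sub_eq_zero.1 h3, ih]
    have hsum : ∀ e : E, (∑ j, y ⟨e, j⟩) * i ⟨e, 0⟩ = φ (Sum.inl (s e)) - φ (Sum.inl (t e)) := by
      intro e
      have h3 : (∑ j, y ⟨e, j⟩) * i ⟨e, 0⟩
          = (∑ j, φ (sdS s n ⟨e, j⟩)) - ∑ j, φ (sdT t n ⟨e, j⟩) := by
        rw [← Finset.sum_sub_distrib, Finset.sum_mul]
        refine Finset.sum_congr rfl fun j _ => ?_
        rw [← h1 ⟨e, j⟩, hi e j]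
      rw [h3, Fin.sum_univ_succ, Fin.sum_univ_castSucc, SDA_S0, SDA_T0]
      have h4 : ∀ j : Fin (n e), φ (sdS s n ⟨e, j.succ⟩) = φ (sdT t n ⟨e, j.castSucc⟩) := by
        intro j
        rw [SDA_S1, SDA_T1]
      rw [Finset.sum_congr rfl fun j _ => h4 j]
      ring
    obtain ⟨h3, c, h4⟩ := hcr (fun e => i ⟨e, 0⟩) (fun v => φ (Sum.inl v)) hsum (by
      intro v
      have h5 := h2 (Sum.inl v)
      rw [net_sd_inl] at h5
      rw [← h5]
      unfold net
      congr 1
      exact Finset.sum_congr rfl fun e _ => by rw [hi e (Fin.last (n e))])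
    have hi0 : ∀ x, i x = 0 := by
      rintro ⟨e, j⟩
      rw [hi e j]
      exact congrFun h3 e
    have hST : ∀ x, φ (sdS s n x) = φ (sdT t n x) := by
      intro x
      have h5 := h1 x
      rw [hi0, mul_zero] at h5
      exact (sub_eq_zero.1 h5.symm)
    have hc : ∀ (e : E) (j : Fin (n e + 1)), φ (sdS s n ⟨e, j⟩) = c := by
      intro e j
      refine Fin.induction ?_ (fun j ih => ?_) j
      · rw [SDA_S0]
        exact h4 (s e)
      · rw [SDA_S1, ← SDA_T1 t n e j, ← hST]
        exact ih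
    refine ⟨funext hi0, c, ?_⟩
    rintro (v | ⟨e, j⟩)
    · exact h4 v
    · rw [← SDA_S1 s n e j]
      exact hc e j.succ

/-- The bijection of `vl_sd`. -/
private def SDC_equiv {E K : Type} [Field K] (n : E → ℕ) (P : (E → K) → Prop) :
    {y : (Σ e, Fin (n e + 1)) → K // P (fun e => ∑ j, y ⟨e, j⟩)} ≃
      {x : E → K // P x} × ((Σ e, Fin (n e)) → K) where
  toFun y := (⟨fun e => ∑ j, y.1 ⟨e, j⟩, y.2⟩, fun x => y.1 ⟨x.1, x.2.succ⟩)
  invFun z := ⟨fun x => Fin.cases (motive := fun _ => K) (z.1.1 x.1 - ∑ j, z.2 ⟨x.1, j⟩)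
      (fun j => z.2 ⟨x.1, j⟩) x.2, by
    have h : (fun e => ∑ j : Fin (n e + 1), Fin.cases (motive := fun _ => K)
        (z.1.1 e - ∑ j, z.2 ⟨e, j⟩) (fun j => z.2 ⟨e, j⟩) j) = z.1.1 := by
      funext e
      rw [Fin.sum_univ_succ]
      simp
    show P (fun e => ∑ j : Fin (n e + 1), Fin.cases (motive := fun _ => K)
        (z.1.1 e - ∑ j, z.2 ⟨e, j⟩) (fun j => z.2 ⟨e, j⟩) j)
    rw [h]
    exact z.1.2⟩
  left_inv y := by
    apply Subtype.ext
    funext x
    obtain ⟨e, j⟩ := x
    refine Fin.cases ?_ (fun j => ?_) j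
    · show (∑ j, y.1 ⟨e, j⟩) - ∑ j : Fin (n e), y.1 ⟨e, j.succ⟩ = y.1 ⟨e, 0⟩
      rw [Fin.sum_univ_succ]
      ring
    · rfl
  right_inv z := by
    refine Prod.ext (Subtype.ext ?_) ?_
    · funext e
      show ∑ j : Fin (n e + 1), Fin.cases (motive := fun _ => K)
        (z.1.1 e - ∑ j, z.2 ⟨e, j⟩) (fun j => z.2 ⟨e, j⟩) j = z.1.1 e
      rw [Fin.sum_univ_succ]
      simp
    · funext x
      rfl

/-- MODULE SDC.  Proof.  `vl_eq`, `sym_sd`, and the bijection `y ↦ (fun e => ∑ j, y ⟨e, j⟩, fun ⟨e, j⟩ => y ⟨e, j.succ⟩)` from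
`(Σ e, Fin (n e + 1)) → K` to `(E → K) × ((Σ e, Fin (n e)) → K)`. -/
theorem vl_sd {V E : Type} [Fintype V] [Nonempty V] [Fintype E] (s t : E → V) (n : E → ℕ) (F : FinField) :
    vl (sdS s n) (sdT t n) F = F.q ^ (∑ e, n e) * vl s t F := by
  rw [vl_eq, vl_eq]
  have h1 : Nat.card {x : (Σ e, Fin (n e + 1)) → F.K // sym (sdS s n) (sdT t n) x ≠ 0}
      = Nat.card {y : (Σ e, Fin (n e + 1)) → F.K // sym s t (fun e => ∑ j, y ⟨e, j⟩) ≠ 0} :=
    Nat.card_congr (Equiv.subtypeEquivRight fun y => sym_sd s t n y)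
  have h2 := Nat.card_congr (SDC_equiv (K := F.K) n (fun x => sym s t x ≠ 0))
  rw [h1, h2, Nat.card_prod, Nat.card_fun, Nat.card_eq_fintype_card (α := Σ e, Fin (n e)),
    Fintype.card_sigma]
  simp only [Fintype.card_fin]
  push_cast
  unfold FinField.q
  ring

/-- MODULE SDD.  Proof.  `conn_of_tree`, `tree_of_conn`: every `inr ⟨e, j⟩` is connected with `inl (s e)` (induction on `j`),
`inl (s e)` is connected with `inl (t e)`, and so `inl u` with `inl v` for all `u`, `v`. -/
theorem tree_sd {V E : Type} [Fintype V] [Fintype E] (s t : E → V) (n : E → ℕ) (h : ∃ T, IsTree s t T) :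
    ∃ T, IsTree (sdS s n) (sdT t n) T := by
  obtain ⟨hV, hc⟩ := conn_of_tree h
  let R : (V ⊕ Σ e, Fin (n e)) → (V ⊕ Σ e, Fin (n e)) → Prop := fun a b =>
    ∃ x, (sdS s n x = a ∧ sdT t n x = b) ∨ (sdS s n x = b ∧ sdT t n x = a)
  have hsym : ∀ a b, Relation.ReflTransGen R a b → Relation.ReflTransGen R b a := by
    intro a b hab
    induction hab with
    | refl => exact .refl
    | tail _ h1 ih =>
      obtain ⟨x, hx⟩ := h1
      exact .head ⟨x, hx.symm⟩ ih
  have hA : ∀ (e : E) (j : ℕ) (hj : j < n e + 1),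
      Relation.ReflTransGen R (Sum.inl (s e)) (sdS s n ⟨e, ⟨j, hj⟩⟩) := by
    intro e j
    induction j with
    | zero =>
      intro hj
      have h1 : sdS s n ⟨e, ⟨0, hj⟩⟩ = Sum.inl (s e) := dif_pos rfl
      rw [h1]
    | succ j ih =>
      intro hj
      refine (ih (by omega)).tail ⟨⟨e, ⟨j, by omega⟩⟩, Or.inl ⟨rfl, ?_⟩⟩
      have h1 : sdS s n ⟨e, ⟨j + 1, hj⟩⟩ = Sum.inr ⟨e, ⟨j, by omega⟩⟩ := dif_neg (Nat.succ_ne_zero j)
      have h2 : sdT t n ⟨e, ⟨j, by omega⟩⟩ = Sum.inr ⟨e, ⟨j, by omega⟩⟩ :=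
        dif_neg (show ¬ j = n e by omega)
      rw [h1, h2]
  have hB : ∀ e : E, Relation.ReflTransGen R (Sum.inl (s e)) (Sum.inl (t e)) := by
    intro e
    refine (hA e (n e) (by omega)).tail ⟨⟨e, ⟨n e, by omega⟩⟩, Or.inl ⟨rfl, ?_⟩⟩
    exact dif_pos rfl
  have hC : ∀ u v : V, Relation.ReflTransGen R (Sum.inl u) (Sum.inl v) := by
    intro u v
    have h1 := hc u v
    induction h1 with
    | refl => exact .refl
    | tail _ h2 ih =>
      obtain ⟨e, ⟨h3, h4⟩ | ⟨h3, h4⟩⟩ := h2
      · rw [← h3] at ih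
        rw [← h4]
        exact ih.trans (hB e)
      · rw [← h4] at ih
        rw [← h3]
        exact ih.trans (hsym _ _ (hB e))
  have hD : ∀ y : V ⊕ Σ e, Fin (n e), ∃ v : V, Relation.ReflTransGen R (Sum.inl v) y := by
    rintro (v | ⟨e, j⟩)
    · exact ⟨v, .refl⟩
    · refine ⟨s e, ?_⟩
      have h1 : sdS s n ⟨e, ⟨j + 1, by have := j.2; omega⟩⟩ = Sum.inr ⟨e, j⟩ :=
        dif_neg (Nat.succ_ne_zero (j : ℕ))
      rw [← h1]
      exact hA e _ _
  refine tree_of_conn _ _ fun y z => ?_
  obtain ⟨u, hu⟩ := hD y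
  obtain ⟨v, hv⟩ := hD z
  exact ((hsym _ _ hu).trans (hC u v)).trans hv

private theorem SDE_nb {a b : ℤ × ℤ} {L : List (ℤ × ℤ)} (h : Wk a L b) (j : ℕ) (hj : j < L.length) :
    Nb ((a :: L)[j]'(by rw [List.length_cons]; omega)) (L[j]) := by
  induction L generalizing a j with
  | nil => exact absurd hj (Nat.not_lt_zero _)
  | cons c L ih =>
    cases j with
    | zero => exact h.1
    | succ j =>
      rw [List.length_cons] at hj
      exact ih h.2 j (by omega)

/-- MODULE SDE.  The drawing with long edges gives a drawing with short edges.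

Proof.  `inj`: `inj`, `und`, `udj`, `uv`.  `unit`: the points of the walk (a lemma: if `Wk a L b` then consecutive points of
`a :: L` are neighbours).  `simple`: every edge of the subdivided graph has an end `inr ⟨e, j⟩` (as `U e ≠ []`), which
determines `e`; for the same `e` use `s e ≠ t e`. -/
theorem dr_sd {V E : Type} (s t : E → V) (hl : LL s t) (pos : V → ℤ × ℤ) (U : E → List (ℤ × ℤ))
    (h : Fd s t pos U) : Dr (sdS s fun e => (U e).length) (sdT t fun e => (U e).length)
      (Sum.elim pos fun x => (U x.1).get x.2) := by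
  have hn : ∀ e, 0 < (U e).length := fun e => List.length_pos_of_ne_nil (h.une e)
  refine ⟨?_, ?_, ?_⟩
  · rintro (u | ⟨e, i⟩) (v | ⟨e', j⟩) huv
    · exact congrArg Sum.inl (h.inj huv)
    · have h1 : pos u = (U e').get j := huv
      exact absurd (h1 ▸ List.get_mem _ _) (h.uv e' u)
    · have h1 : (U e).get i = pos v := huv
      exact absurd (h1 ▸ List.get_mem _ _) (h.uv e v)
    · have h1 : (U e).get i = (U e').get j := huv
      by_cases he : e = e'
      · subst he
        rw [(List.nodup_iff_injective_get.1 (h.und e)) h1]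
      · refine absurd ?_ (h.udj e e' he _ (List.get_mem (U e) i))
        rw [h1]
        exact List.get_mem (U e') j
  · rintro ⟨e, j, hj⟩
    have hw := SDE_nb (h.uw e) j (by rw [List.length_append, List.length_singleton]; exact hj)
    have h1 : Sum.elim pos (fun x : Σ e, Fin (U e).length => (U x.1).get x.2)
        (sdS s (fun e => (U e).length) ⟨e, ⟨j, hj⟩⟩) =
        (pos (s e) :: (U e ++ [pos (t e)]))[j]'(by
          rw [List.length_cons, List.length_append, List.length_singleton]; omega) := by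
      rcases Nat.eq_zero_or_pos j with h0 | h0
      · subst h0
        rw [show sdS s (fun e => (U e).length) ⟨e, ⟨0, hj⟩⟩ = Sum.inl (s e) from dif_pos rfl]
        rfl
      · obtain ⟨k, rfl⟩ : ∃ k, j = k + 1 := ⟨j - 1, by omega⟩
        rw [show sdS s (fun e => (U e).length) ⟨e, ⟨k + 1, hj⟩⟩ =
          Sum.inr ⟨e, ⟨k, by omega⟩⟩ from dif_neg (Nat.succ_ne_zero k)]
        rw [List.getElem_cons_succ, List.getElem_append_left (show k < (U e).length by omega)]
        rfl
    have h2 : Sum.elim pos (fun x : Σ e, Fin (U e).length => (U x.1).get x.2)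
        (sdT t (fun e => (U e).length) ⟨e, ⟨j, hj⟩⟩) =
        (U e ++ [pos (t e)])[j]'(by
          rw [List.length_append, List.length_singleton]; exact hj) := by
      by_cases h0 : j = (U e).length
      · rw [show sdT t (fun e => (U e).length) ⟨e, ⟨j, hj⟩⟩ = Sum.inl (t e) from dif_pos h0]
        rw [List.getElem_append_right (by omega)]
        simp [h0]
      · have h3 : j < (U e).length := by
          have h4 : j < (U e).length + 1 := hj
          omega
        rw [show sdT t (fun e => (U e).length) ⟨e, ⟨j, hj⟩⟩ = Sum.inr ⟨e, ⟨j, h3⟩⟩ from dif_neg h0]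
        rw [List.getElem_append_left h3]
        rfl
    rw [h1, h2]
    exact hw
  · rintro ⟨e, i, hi⟩ ⟨e', j, hj⟩ hij
    have hne := hn e
    have hne' := hn e'
    have hi' : i < (U e).length + 1 := hi
    have hj' : j < (U e').length + 1 := hj
    unfold sdS sdT at hij
    dsimp only at hij
    have key : e = e' ∧ i = j := by
      rcases hij with ⟨h1, h2⟩ | ⟨h1, h2⟩
      · by_cases hi0 : i = 0
        · rw [dif_neg (show ¬ i = (U e).length by omega)] at h2
          by_cases hjn : j = (U e').length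
          · rw [dif_pos hjn] at h2
            exact absurd h2 Sum.inr_ne_inl
          · rw [dif_neg hjn, Sum.inr.injEq, Sigma.mk.injEq] at h2
            obtain ⟨h3, h4⟩ := h2
            subst h3
            have h5 := Fin.mk.inj_iff.1 (eq_of_heq h4)
            exact ⟨rfl, h5⟩
        · rw [dif_neg hi0] at h1
          by_cases hj0 : j = 0
          · rw [dif_pos hj0] at h1
            exact absurd h1 Sum.inr_ne_inl
          · rw [dif_neg hj0, Sum.inr.injEq, Sigma.mk.injEq] at h1
            obtain ⟨h3, h4⟩ := h1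
            subst h3
            have h5 := Fin.mk.inj_iff.1 (eq_of_heq h4)
            exact ⟨rfl, by omega⟩
      · exfalso
        by_cases hi0 : i = 0
        · rw [dif_neg (show ¬ i = (U e).length by omega)] at h2
          rw [dif_pos hi0] at h1
          by_cases hjn : j = (U e').length
          · rw [dif_pos hjn, Sum.inl.injEq] at h1
            rw [dif_neg (show ¬ j = 0 by omega), Sum.inr.injEq, Sigma.mk.injEq] at h2
            obtain ⟨h3, h4⟩ := h2
            subst h3
            exact hl _ h1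
          · rw [dif_neg hjn] at h1
            exact absurd h1 Sum.inl_ne_inr
        · rw [dif_neg hi0] at h1
          by_cases hjn : j = (U e').length
          · rw [dif_pos hjn] at h1
            exact absurd h1 Sum.inr_ne_inl
          · rw [dif_neg hjn, Sum.inr.injEq, Sigma.mk.injEq] at h1
            obtain ⟨h3, h4⟩ := h1
            subst h3
            have h5 := Fin.mk.inj_iff.1 (eq_of_heq h4)
            by_cases hin : i = (U e).length
            · rw [dif_pos hin] at h2
              by_cases hj0 : j = 0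
              · rw [dif_pos hj0, Sum.inl.injEq] at h2
                exact hl _ h2.symm
              · rw [dif_neg hj0] at h2
                exact absurd h2 Sum.inl_ne_inr
            · rw [dif_neg hin] at h2
              by_cases hj0 : j = 0
              · rw [dif_pos hj0] at h2
                exact absurd h2 Sum.inr_ne_inl
              · rw [dif_neg hj0, Sum.inr.injEq, Sigma.mk.injEq] at h2
                have h6 := Fin.mk.inj_iff.1 (eq_of_heq h2.2)
                omega
    obtain ⟨h3, h4⟩ := key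
    subst h3
    subst h4
    rfl

/-- MODULE SDF.  Proof.  `dr_sd`, `tree_sd`, `vl_sd`, `QE.of_mul`. -/
theorem grc_of_fd {V E : Type} [Fintype V] [Fintype E] (s t : E → V) (hl : LL s t)
    (hT : ∃ T, IsTree s t T) (pos : V → ℤ × ℤ) (U : E → List (ℤ × ℤ)) (h : Fd s t pos U) :
    GRc (vl s t) := by
  have := (conn_of_tree hT).1
  refine ⟨V ⊕ Σ e, Fin (U e).length, Σ e, Fin ((U e).length + 1), inferInstance, inferInstance,
    sdS s fun e => (U e).length, sdT t fun e => (U e).length,
    Sum.elim pos fun x => (U x.1).get x.2, dr_sd s t hl pos U h, tree_sd s t _ hT, ?_⟩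
  exact (QE.of_mul _ (vl_sd s t fun e => (U e).length)).symm

end Pool.Agent.Grd
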