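import Pool.Agent.Grd.Defs

/-!
# The order of the edges at a vertex of degree three
-/

set_option autoImplicit false

open scoped BigOperators

namespace Pool.Agent.Grd

open Pool.Agent.KG Pool.Agent.P3 Pool.Agent.PL3

private theorem TRL_rv {E D : Type} (l r : E → D) (η : E × Bool) :
    fa l r (rv η) = fb l r η ∧ fb l r (rv η) = fa l r η := by
  obtain ⟨e, b⟩ := η
  cases b <;> exact ⟨rfl, rfl⟩

private theorem TRL_hs {V E : Type} (s t : E → V) (η : E × Bool) :
    hs s t (rv η) = he s t η ∧ he s t (rv η) = hs s t η := by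
  obtain ⟨e, b⟩ := η
  cases b <;> exact ⟨rfl, rfl⟩

private theorem TRL_mem {V E : Type} (s t : E → V) (η : E × Bool) {v : V} (h : hs s t η = v) :
    s η.1 = v ∨ t η.1 = v := by
  obtain ⟨e, b⟩ := η
  cases b
  · exact Or.inr h
  · exact Or.inl h

private theorem TRL_uniq {V E : Type} (s t : E → V) (hl : LL s t) (η ζ : E × Bool)
    (h : hs s t η = hs s t ζ) (h1 : η.1 = ζ.1) : η = ζ := by
  obtain ⟨e, b⟩ := η
  obtain ⟨e', b'⟩ := ζ
  have h2 : e = e' := h1
  subst h2
  cases b <;> cases b'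
  · rfl
  · exact absurd (show s e = t e from h.symm) (hl e)
  · exact absurd (show s e = t e from h) (hl e)
  · rfl

private theorem TRL_face {V E D : Type} (s t : E → V) (hl : LL s t) (l r : E → D) (η : E × Bool)
    {v : V} (h : hs s t η = v) : tl s l r v η.1 = fa l r η ∧ hd s l r v η.1 = fb l r η := by
  obtain ⟨e, b⟩ := η
  cases b
  · have h1 : t e = v := h
    have h2 : s e ≠ v := fun h3 => hl e (h3.trans h1.symm)
    unfold tl hd
    rw [if_neg h2, if_neg h2]
    exact ⟨rfl, rfl⟩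
  · have h1 : s e = v := h
    unfold tl hd
    rw [if_pos h1, if_pos h1]
    exact ⟨rfl, rfl⟩

private theorem TRL_ex {V E : Type} (s t : E → V) (e : E) {v : V} (h : s e = v ∨ t e = v) :
    ∃ η : E × Bool, hs s t η = v ∧ η.1 = e := by
  rcases h with h | h
  · exact ⟨(e, true), h, rfl⟩
  · exact ⟨(e, false), h, rfl⟩

open Classical in
private theorem TRL_card {V E : Type} [Fintype E] (s t : E → V) (hl : LL s t) (v : V) :
    (Finset.univ.filter fun e => s e = v ∨ t e = v).card = deg s t v := by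
  have h1 : {e | s e = v ∨ t e = v} = {e | s e = v} ∪ {e | t e = v} := rfl
  have h2 : {e | s e = v ∨ t e = v}.ncard = deg s t v := by
    unfold deg
    rw [h1, Set.ncard_union_eq _ (Set.toFinite _) (Set.toFinite _)]
    rw [Set.disjoint_left]
    intro e he he'
    exact hl e ((show s e = v from he).trans (show t e = v from he').symm)
  rw [← h2, ← Set.ncard_coe_finset]
  congr 1
  ext e
  simp

/-- MODULE TRL (1).  The three half edges at the end of the half edge `η`: `rv η`, `η1`, `η2` in this order.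

Proof.  Let `v = he s t η`, `A = Finset.univ.filter (fun e => s e = v ∨ t e = v)`, `3` elements (no loops); `PL3.bal` for
`p = tl s l r v`, `q = hd s l r v`.  The edge `e ∈ A` corresponds to the half edge `ζ = (e, decide (s e = v))`, and
`tl s l r v e = fa l r ζ`, `hd s l r v e = fb l r ζ`.  `e0 = η.1` corresponds to `rv η`: `fa (rv η) = fb η`, `fb (rv η) = fa η`.
`PL3.next_edge` for `J = {e0}` (`hb e0`) gives `e1 ≠ e0` with `p e1 = q e0`.  If `q e1 = p e0`, the balance of the third edge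
`e` gives `φ (q e) = φ (p e)` for all `φ`, so `q e = p e`, a contradiction to `hb e`.  So `next_edge` for `{e0, e1}` gives
`e2` with `p e2 = q e1`, and the balance gives `q e2 = p e0` (take the indicator of `p e0`, `p e2 ≠ q e2`). -/
theorem rot3 {V E D : Type} [Fintype E] (s t : E → V) (hl : LL s t) (l r : E → D) (h : Du s t l r)
    (hb : ∀ e, l e ≠ r e) (η : E × Bool) (h3 : deg s t (he s t η) = 3) :
    ∃ η1 η2 : E × Bool, hs s t η1 = he s t η ∧ hs s t η2 = he s t η ∧ η1.1 ≠ η.1 ∧ η2.1 ≠ η.1 ∧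
      η1.1 ≠ η2.1 ∧ (∀ ζ : E × Bool, hs s t ζ = he s t η → ζ.1 = η.1 ∨ ζ = η1 ∨ ζ = η2) ∧
      fa l r η1 = fa l r η ∧ fb l r η1 = fa l r η2 ∧ fb l r η2 = fb l r η := by
  classical
  obtain ⟨v, hv⟩ : ∃ v, he s t η = v := ⟨_, rfl⟩
  rw [hv] at h3 ⊢
  have h0 : hs s t (rv η) = v := by rw [(TRL_hs s t η).1, hv]
  have hA := bal s t hl l r h v
  have hA3 : (Finset.univ.filter fun e => s e = v ∨ t e = v).card = 3 := by
    rw [← h3]
    exact TRL_card s t hl v
  have hmem : ∀ e, e ∈ (Finset.univ.filter fun e => s e = v ∨ t e = v) ↔ (s e = v ∨ t e = v) := by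
    intro e
    simp
  generalize hAA : (Finset.univ.filter fun e => s e = v ∨ t e = v) = A at hA hA3 hmem
  have hne : ∀ ζ : E × Bool, fa l r ζ ≠ fb l r ζ := by
    rintro ⟨e, b⟩
    cases b
    · exact hb e
    · exact (hb e).symm
  have he0 : η.1 ∈ A := (hmem _).2 (TRL_mem s t (rv η) h0)
  obtain ⟨hp0, hq0⟩ := TRL_face s t hl l r (rv η) h0
  rw [(TRL_rv l r η).1] at hp0
  rw [(TRL_rv l r η).2] at hq0
  have hp0' : tl s l r v η.1 = fb l r η := hp0
  have hq0' : hd s l r v η.1 = fa l r η := hq0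
  -- the next edge
  obtain ⟨e1, he1, hp1⟩ := next_edge A {η.1} (Finset.singleton_subset_iff.2 he0) (tl s l r v)
    (hd s l r v) hA (tl s l r v η.1) (hd s l r v η.1) (by rw [hp0', hq0']; exact (hne η).symm)
    (fun φ => by rw [Finset.sum_singleton])
  rw [Finset.mem_sdiff, Finset.mem_singleton] at he1
  obtain ⟨he1A, he10⟩ := he1
  -- the third edge
  have hc : ((A.erase η.1).erase e1).card = 1 := by
    rw [Finset.card_erase_of_mem (Finset.mem_erase.2 ⟨he10, he1A⟩), Finset.card_erase_of_mem he0, hA3]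
  obtain ⟨e2, he2⟩ := Finset.card_eq_one.1 hc
  have he2' : e2 ∈ (A.erase η.1).erase e1 := by
    rw [he2]
    exact Finset.mem_singleton_self _
  rw [Finset.mem_erase, Finset.mem_erase] at he2'
  obtain ⟨he21, he20, he2A⟩ := he2'
  have hall : ∀ e ∈ A, e = η.1 ∨ e = e1 ∨ e = e2 := by
    intro e he
    by_cases k0 : e = η.1
    · exact Or.inl k0
    · by_cases k1 : e = e1
      · exact Or.inr (Or.inl k1)
      · have k2 : e ∈ (A.erase η.1).erase e1 :=
          Finset.mem_erase.2 ⟨k1, Finset.mem_erase.2 ⟨k0, he⟩⟩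
        rw [he2] at k2
        exact Or.inr (Or.inr (Finset.mem_singleton.1 k2))
  have hsum : ∀ φ : D → ℚ, (φ (hd s l r v η.1) - φ (tl s l r v η.1)) +
      ((φ (hd s l r v e1) - φ (tl s l r v e1)) + (φ (hd s l r v e2) - φ (tl s l r v e2))) = 0 := by
    intro φ
    have k := hA φ
    rw [← Finset.add_sum_erase A _ he0,
      ← Finset.add_sum_erase (A.erase η.1) _ (Finset.mem_erase.2 ⟨he10, he1A⟩), he2,
      Finset.sum_singleton] at k
    exact k
  obtain ⟨η1, hη1, hη1'⟩ := TRL_ex s t e1 ((hmem e1).1 he1A)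
  obtain ⟨η2, hη2, hη2'⟩ := TRL_ex s t e2 ((hmem e2).1 he2A)
  obtain ⟨hp1', hq1'⟩ := TRL_face s t hl l r η1 hη1
  obtain ⟨hp2', hq2'⟩ := TRL_face s t hl l r η2 hη2
  rw [hη1'] at hp1' hq1'
  rw [hη2'] at hp2' hq2'
  rw [hq0', hp0', hp1', hq1', hp2', hq2'] at hsum
  rw [hp1', hq0'] at hp1
  have k1 : fb l r η1 = fa l r η2 := by
    by_contra k
    have k2 := hsum (fun d => if d = fa l r η2 then 1 else 0)
    simp only [if_neg k, if_neg (hne η2).symm, if_true, hp1] at k2
    split_ifs at k2 <;> norm_num at k2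
  have k3 : fb l r η2 = fb l r η := by
    by_contra k
    have k2 := hsum (fun d => if d = fb l r η then 1 else 0)
    simp only [if_neg k, if_true, hp1, k1] at k2
    split_ifs at k2 <;> norm_num at k2
  refine ⟨η1, η2, hη1, hη2, ?_, ?_, ?_, ?_, hp1, k1, k3⟩
  · rw [hη1']
    exact he10
  · rw [hη2']
    exact he20
  · rw [hη1', hη2']
    exact he21.symm
  · intro ζ hζ
    rcases hall ζ.1 ((hmem _).2 (TRL_mem s t ζ hζ)) with k | k | k
    · exact Or.inl k
    · exact Or.inr (Or.inl (TRL_uniq s t hl ζ η1 (hζ.trans hη1.symm) (k.trans hη1'.symm)))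
    · exact Or.inr (Or.inr (TRL_uniq s t hl ζ η2 (hζ.trans hη2.symm) (k.trans hη2'.symm)))

/-- MODULE TRL (2).  Proof.  There is a half edge `ζ` at `v` (the degree is not `0`); `rot3` for `rv ζ`. -/
theorem start3 {V E D : Type} [Fintype E] (s t : E → V) (hl : LL s t) (l r : E → D) (h : Du s t l r)
    (hb : ∀ e, l e ≠ r e) (v : V) (h3 : deg s t v = 3) :
    ∃ η0 η1 η2 : E × Bool, hs s t η0 = v ∧ hs s t η1 = v ∧ hs s t η2 = v ∧ η0.1 ≠ η1.1 ∧ η0.1 ≠ η2.1 ∧
      η1.1 ≠ η2.1 ∧ (∀ ζ : E × Bool, hs s t ζ = v → ζ = η0 ∨ ζ = η1 ∨ ζ = η2) ∧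
      fb l r η0 = fa l r η1 ∧ fb l r η1 = fa l r η2 := by
  classical
  have hne : (Finset.univ.filter fun e => s e = v ∨ t e = v).Nonempty := by
    rw [← Finset.card_pos, TRL_card s t hl v, h3]
    norm_num
  obtain ⟨e, he⟩ := hne
  rw [Finset.mem_filter] at he
  obtain ⟨ζ, hζ, -⟩ := TRL_ex s t e he.2
  have hv : Pool.Agent.Grd.he s t (rv ζ) = v := by rw [(TRL_hs s t ζ).2, hζ]
  obtain ⟨η1, η2, k1, k2, k3, k4, k5, k6, k7, k8, k9⟩ :=
    rot3 s t hl l r h hb (rv ζ) (by rw [hv]; exact h3)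
  rw [hv] at k1 k2 k6
  rw [(TRL_rv l r ζ).1] at k7
  refine ⟨ζ, η1, η2, hζ, k1, k2, fun k => k3 k.symm, fun k => k4 k.symm, k5, fun ξ hξ => ?_, k7.symm, k8⟩
  rcases k6 ξ hξ with k | k | k
  · exact Or.inl (TRL_uniq s t hl ξ ζ (hξ.trans hζ.symm) k)
  · exact Or.inr (Or.inl k)
  · exact Or.inr (Or.inr k)

end Pool.Agent.Grd
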